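import Pool.Agent.NRC.L01Ml

/-!
# Module C01Cop: relatively prime pairs of Laurent polynomials

PROOF of `exists_cop`. `toLaurent p = P * T n`, `toLaurent q = Q * T m` (`exists_T_pow`), `p, q ≠ 0`;
`p = g p'`, `q = g q'`, `IsRelPrime p' q'` in `ℤ[X]` (UFD; `exists_reduced_factors`, or `exists_reduced_factors'`).
`g₀ = toLaurent g`, `P' = toLaurent p' * T (-n)`, `Q' = toLaurent q' * T (-m)`. `Cop P' Q'`: if `R * Q' = S * P'` multiply by a large
`T N` and write `toLaurent r = R * T _`, `toLaurent s = S * T _`: `r q' X^a = s p' X^b` in `ℤ[X]` for suitable `a, b : ℕ`, so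
`p' ∣ r X^a` (`IsRelPrime.dvd_of_dvd_mul_right`), giving `R = W * P'` in `LZ` (`X` is invertible there), and `S = W * Q'` by
cancelling `P' ≠ 0`.
-/

open LaurentPolynomial MeasureTheory

namespace Pool.Agent.NRC

/-- the pair `(P, Q)` is relatively prime: every relation is a multiple of it -/
def Cop (P Q : LZ) : Prop := ∀ R S : LZ, R * Q = S * P → ∃ W : LZ, R = W * P ∧ S = W * Q

/-- relatively prime pairs with the same absolute value on the unit circle -/
def Pr (P Q : LZ) : Prop := P ≠ 0 ∧ Q ≠ 0 ∧ P * invert P = Q * invert Q ∧ Cop P Q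

theorem exists_cop {P Q : LZ} (hP : P ≠ 0) (hQ : Q ≠ 0) : ∃ g P' Q' : LZ, g ≠ 0 ∧ P' ≠ 0 ∧ Q' ≠ 0 ∧
    P = g * P' ∧ Q = g * Q' ∧ Cop P' Q' := by
  have : UniqueFactorizationMonoid LZ :=
    UniqueFactorizationMonoid.of_isLocalization (Submonoid.powers (Polynomial.X : Polynomial ℤ)) LZ
  obtain ⟨P', Q', g, hrel, h1, h2⟩ := UniqueFactorizationMonoid.exists_reduced_factors P hP Q
  have hg : g ≠ 0 := by
    rintro rfl
    exact hP (by rw [← h1, zero_mul])
  have hP' : P' ≠ 0 := by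
    rintro rfl
    exact hP (by rw [← h1, mul_zero])
  have hQ' : Q' ≠ 0 := by
    rintro rfl
    exact hQ (by rw [← h2, mul_zero])
  refine ⟨g, P', Q', hg, hP', hQ', h1.symm, h2.symm, ?_⟩
  intro R S hRS
  have hd : P' ∣ R * Q' := by rw [hRS]; exact dvd_mul_left _ _
  obtain ⟨W, hW⟩ := hrel.dvd_of_dvd_mul_right hd
  refine ⟨W, by rw [hW]; ring, ?_⟩
  have h3 : P' * S = P' * (W * Q') := by
    calc P' * S = S * P' := by ring
      _ = R * Q' := hRS.symm
      _ = P' * (W * Q') := by rw [hW]; ring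
  exact mul_left_cancel₀ hP' h3

theorem exists_pr {P Q : LZ} (hP : P ≠ 0) (hQ : Q ≠ 0) (h : P * invert P = Q * invert Q) :
    ∃ g P' Q' : LZ, g ≠ 0 ∧ P = g * P' ∧ Q = g * Q' ∧ Pr P' Q' := by
  obtain ⟨g, P', Q', hg, hP', hQ', h1, h2, h3⟩ := exists_cop hP hQ
  refine ⟨g, P', Q', hg, h1, h2, hP', hQ', ?_, h3⟩
  have hg' : invert g ≠ 0 := by
    intro h0
    exact hg ((map_eq_zero_iff _ invert.injective).mp h0)
  have h4 : g * invert g * (P' * invert P') = g * invert g * (Q' * invert Q') := by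
    rw [h1, h2, map_mul, map_mul] at h
    calc g * invert g * (P' * invert P') = g * P' * (invert g * invert P') := by ring
      _ = g * Q' * (invert g * invert Q') := h
      _ = _ := by ring
  exact mul_left_cancel₀ (mul_ne_zero hg hg') h4

theorem Pr.ml_eq {P Q : LZ} (h : Pr P Q) : ml P = ml Q := ml_eq_of_mul_invert h.2.2.1

/-- the measure of a factor of a relation -/
theorem Pr.ml_le {P Q R S : LZ} (h : Pr P Q) (hR : R ≠ 0) (hRS : R * Q = S * P) :
    ml P ≤ ml R ∧ ml P ≤ ml S := by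
  obtain ⟨W, h1, h2⟩ := h.2.2.2 R S hRS
  have hW : W ≠ 0 := by
    rintro rfl
    exact hR (by rw [h1, zero_mul])
  constructor
  · rw [h1, ml_mul hW h.1]
    have := ml_nonneg W
    linarith
  · rw [h2, ml_mul hW h.2.1, h.ml_eq]
    have := ml_nonneg W
    linarith

end Pool.Agent.NRC
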