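import Pool.Agent.NRC.L01Ml
import Pool.Agent.SpCl.A07Limit
import Pool.Agent.H27Mahler.Nonrecip

/-!
# Module C03Rev: algebra of the reversal of polynomials

`rev e F = x^e F(1/x)` (library `Pool.Agent.H27Mahler.Nonrecip`: `coeff_rev`, `support_rev`, `norm_ev_rev`, `degs`, `le_degs`).
HINTS. All statements coefficientwise or by writing `F = ∑ monomial`; `rev_eq_of`: `rev e F` is the sum over any finite set
containing the support. `rev_mul`: bilinear in `F`, `G` if the bounds hold. `not_X_dvd_rev`: `F` has an exponent `s` with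
`s j = degreeOf j F`, so `rev (degs F) F` has an exponent with `j`-th coordinate `0`. `rev_rev_degs`: if no `X j` divides `F` then
`degs (rev (degs F) F) = degs F`. `mm_rev`: `norm_ev_rev`. `sp_rev`: on monomials, `sp_monomial`, `invert_T`, `wt_add`.
-/

open MvPolynomial LaurentPolynomial MeasureTheory Pool.Agent.H27Mahler Pool.Agent.SpCl

namespace Pool.Agent.NRC

/-- `rev` as a sum over a larger set -/
theorem rev_eq_sum_of_subset {σ : Type} (e : σ →₀ ℕ) {F : MvPolynomial σ ℤ} {S : Finset (σ →₀ ℕ)}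
    (hS : F.support ⊆ S) : rev e F = ∑ s ∈ S, monomial (e - s) (coeff s F) := by
  rw [rev]
  refine Finset.sum_subset hS fun s _ hs => ?_
  rw [notMem_support_iff.mp hs, monomial_zero]

theorem rev_map_add {σ : Type} (e : σ →₀ ℕ) (F G : MvPolynomial σ ℤ) :
    rev e (F + G) = rev e F + rev e G := by
  classical
  rw [rev_eq_sum_of_subset e (F := F + G) (S := F.support ∪ G.support) support_add,
    rev_eq_sum_of_subset e (F := F) (S := F.support ∪ G.support) Finset.subset_union_left,
    rev_eq_sum_of_subset e (F := G) (S := F.support ∪ G.support) Finset.subset_union_right,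
    ← Finset.sum_add_distrib]
  refine Finset.sum_congr rfl fun s _ => ?_
  rw [coeff_add, map_add]

theorem rev_map_zero {σ : Type} (e : σ →₀ ℕ) : rev e (0 : MvPolynomial σ ℤ) = 0 := by
  simp [rev]

theorem rev_map_sum {σ ι : Type} (e : σ →₀ ℕ) (S : Finset ι) (f : ι → MvPolynomial σ ℤ) :
    rev e (∑ i ∈ S, f i) = ∑ i ∈ S, rev e (f i) := by
  classical
  induction S using Finset.induction_on with
  | empty => simp [rev_map_zero]
  | insert a S ha ih => rw [Finset.sum_insert ha, Finset.sum_insert ha, rev_map_add, ih]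

theorem rev_monomial {σ : Type} (e s : σ →₀ ℕ) (c : ℤ) :
    rev e (monomial s c) = monomial (e - s) c := by
  classical
  rw [rev_eq_sum_of_subset e (S := {s}) support_monomial_subset, Finset.sum_singleton,
    coeff_monomial, if_pos rfl]

theorem le_add_of_mem_support_mul {σ : Type} {e e' : σ →₀ ℕ} {F G : MvPolynomial σ ℤ}
    (hF : ∀ s ∈ F.support, s ≤ e) (hG : ∀ s ∈ G.support, s ≤ e') :
    ∀ s ∈ (F * G).support, s ≤ e + e' := by
  classical
  intro s hs
  have h1 := support_mul F G hs
  rw [Finset.mem_add] at h1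
  obtain ⟨a, ha, b, hb, rfl⟩ := h1
  exact add_le_add (hF a ha) (hG b hb)

theorem rev_mul {σ : Type} {e e' : σ →₀ ℕ} {F G : MvPolynomial σ ℤ}
    (hF : ∀ s ∈ F.support, s ≤ e) (hG : ∀ s ∈ G.support, s ≤ e') :
    rev (e + e') (F * G) = rev e F * rev e' G := by
  have h1 : F * G = ∑ s ∈ F.support, ∑ t ∈ G.support,
      monomial (s + t) (coeff s F * coeff t G) := by
    conv_lhs => rw [F.as_sum, G.as_sum, Finset.sum_mul_sum]
    refine Finset.sum_congr rfl fun s _ => Finset.sum_congr rfl fun t _ => ?_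
    rw [monomial_mul]
  rw [h1, rev_map_sum, rev, rev, Finset.sum_mul_sum]
  refine Finset.sum_congr rfl fun s hs => ?_
  rw [rev_map_sum]
  refine Finset.sum_congr rfl fun t ht => ?_
  have h4 : e + e' - (s + t) = e - s + (e' - t) := by
    ext i
    have h2 := hF s hs i
    have h3 := hG t ht i
    simp only [Finsupp.coe_tsub, Finsupp.coe_add, Pi.sub_apply, Pi.add_apply]
    omega
  rw [rev_monomial, monomial_mul, h4]

theorem rev_rev {σ : Type} {e : σ →₀ ℕ} {F : MvPolynomial σ ℤ} (hF : ∀ s ∈ F.support, s ≤ e) :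
    rev e (rev e F) = F := by
  have h1 : rev e F = ∑ s ∈ F.support, monomial (e - s) (coeff s F) := rfl
  rw [h1, rev_map_sum]
  conv_rhs => rw [F.as_sum]
  refine Finset.sum_congr rfl fun s hs => ?_
  rw [rev_monomial, tsub_tsub_cancel_of_le (hF s hs)]

theorem rev_add {σ : Type} {e c : σ →₀ ℕ} {F : MvPolynomial σ ℤ} (hF : ∀ s ∈ F.support, s ≤ e) :
    rev (e + c) F = monomial c 1 * rev e F := by
  rw [rev, rev, Finset.mul_sum]
  refine Finset.sum_congr rfl fun s hs => ?_
  have h4 : e + c - s = c + (e - s) := by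
    ext i
    have h2 := hF s hs i
    simp only [Finsupp.coe_tsub, Finsupp.coe_add, Pi.sub_apply, Pi.add_apply]
    omega
  rw [monomial_mul, one_mul, h4]

theorem support_rev_le {σ : Type} {e : σ →₀ ℕ} {F : MvPolynomial σ ℤ} :
    ∀ s ∈ (rev e F).support, s ≤ e := by
  classical
  intro s hs
  rw [rev] at hs
  have h1 := support_sum hs
  rw [Finset.mem_biUnion] at h1
  obtain ⟨s', _, h2⟩ := h1
  have h3 := support_monomial_subset h2
  rw [Finset.mem_singleton] at h3
  rw [h3]
  exact tsub_le_self

theorem degs_mul {σ : Type} [Fintype σ] {F G : MvPolynomial σ ℤ} (hF : F ≠ 0) (hG : G ≠ 0) :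
    degs (F * G) = degs F + degs G := by
  ext i
  simp only [degs, Finsupp.coe_add, Pi.add_apply, Finsupp.coe_equivFunOnFinite_symm]
  exact degreeOf_mul_eq hF hG

theorem rev_degs_mul {σ : Type} [Fintype σ] {F G : MvPolynomial σ ℤ} (hF : F ≠ 0) (hG : G ≠ 0) :
    rev (degs (F * G)) (F * G) = rev (degs F) F * rev (degs G) G := by
  rw [degs_mul hF hG]
  exact rev_mul le_degs le_degs

theorem mm_rev {σ : Type} [Fintype σ] {e : σ →₀ ℕ} {F : MvPolynomial σ ℤ}
    (hF : ∀ s ∈ F.support, s ≤ e) : mm (rev e F) = mm F := by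
  rw [mm, mm]
  congr 1
  funext t
  rw [norm_ev_rev hF]

theorem not_X_dvd_rev {σ : Type} [Fintype σ] {F : MvPolynomial σ ℤ} (hF : F ≠ 0) (j : σ) :
    ¬ X j ∣ rev (degs F) F := by
  classical
  rintro ⟨G, hG⟩
  obtain ⟨s, hs, hsj⟩ := Finset.exists_mem_eq_sup F.support (support_nonempty.mpr hF) (fun m => m j)
  rw [← degreeOf_eq_sup] at hsj
  have h1 := coeff_rev (P := F) le_degs (tsub_add_cancel_of_le (le_degs s hs))
  rw [hG, coeff_X_mul', if_neg] at h1
  · exact (mem_support_iff.mp hs) h1.symm
  · rw [Finsupp.notMem_support_iff]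
    simp [degs, hsj]

/-- if no variable divides `F` then reversing twice gives `F` -/
theorem rev_rev_degs {σ : Type} [Fintype σ] {F : MvPolynomial σ ℤ} (hF : F ≠ 0)
    (hX : ∀ j, ¬ X j ∣ F) : rev (degs (rev (degs F) F)) (rev (degs F) F) = F := by
  classical
  have h1 : degs (rev (degs F) F) = degs F := by
    ext j
    simp only [degs, Finsupp.coe_equivFunOnFinite_symm]
    change degreeOf j (rev (degs F) F) = degreeOf j F
    refine le_antisymm ?_ ?_
    · rw [degreeOf_le_iff]
      intro s hs
      have := support_rev_le s hs j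
      simpa [degs] using this
    · -- some exponent of `F` has `j`-th coordinate zero
      obtain ⟨s, hs, hsj⟩ : ∃ s ∈ F.support, s j = 0 := by
        by_contra hcon
        push Not at hcon
        apply hX j
        rw [F.as_sum]
        refine Finset.dvd_sum fun s hs => ?_
        rw [X_dvd_monomial]
        exact Or.inr (hcon s hs)
      have h2 := coeff_rev (P := F) le_degs (tsub_add_cancel_of_le (le_degs s hs))
      have h3 : degs F - s ∈ (rev (degs F) F).support := by
        rw [mem_support_iff, h2]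
        exact mem_support_iff.mp hs
      have h4 := monomial_le_degreeOf j h3
      simpa [degs, hsj] using h4
  rw [h1, rev_rev le_degs]

/-- an irreducible polynomial dividing a monomial has measure one -/
theorem mm_of_dvd_monomial {σ : Type} [Fintype σ] {P : MvPolynomial σ ℤ} (hP : Irreducible P)
    {c : σ →₀ ℕ} (h : P ∣ monomial c 1) : mm P = 0 := by
  classical
  obtain ⟨m, b, _, hb, rfl⟩ := (dvd_monomial_iff_exists one_ne_zero).mp h
  have hb1 : ‖(b : ℂ)‖ = 1 := by
    rcases Int.isUnit_iff.mp (isUnit_of_dvd_one hb) with rfl | rfl <;> simp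
  have hb0 : b ≠ 0 := by
    rintro rfl
    simp at hb1
  rw [mm]
  have h1 : ∀ t : Tor σ, Real.log ‖ev t (monomial m b)‖ = 0 := by
    intro t
    rw [ev_eq_sum, support_monomial, if_neg hb0, Finset.sum_singleton, coeff_monomial, if_pos rfl,
      norm_mul, norm_mon, mul_one, hb1, Real.log_one]
  simp [h1]

theorem sp_rev {K : ℕ} (γ : Fin K → ℤ) {e : Fin K →₀ ℕ} {F : MvPolynomial (Fin K) ℤ}
    (hF : ∀ s ∈ F.support, s ≤ e) : sp γ (rev e F) = T (wt γ e) * invert (sp γ F) := by
  rw [rev, map_sum, sp_eq_sum γ F, map_sum, Finset.mul_sum]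
  refine Finset.sum_congr rfl fun s hs => ?_
  have h1 : wt γ e = wt γ (e - s) + wt γ s := by
    rw [← wt_add, tsub_add_cancel_of_le (hF s hs)]
  rw [sp_monomial, map_mul, invert_C, invert_T, h1, T_add]
  have h2 : (T (wt γ s) * T (-wt γ s) : LZ) = 1 := by
    rw [← T_add, add_neg_cancel, T_zero]
  calc LaurentPolynomial.C (coeff s F) * T (wt γ (e - s))
      = LaurentPolynomial.C (coeff s F) * T (wt γ (e - s)) * (T (wt γ s) * T (-wt γ s)) := by
        rw [h2, mul_one]
    _ = _ := by ring

/-- the relation between a pair with the same absolute value on the torus, without denominators -/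
theorem mul_rev_eq_of_free {K : ℕ} {l : Filter ℕ} [l.NeBot] {γ : ℕ → Fin K → ℤ} (hγ : Free l γ)
    {A B : MvPolynomial (Fin K) ℤ}
    (h : ∀ᶠ n in l, sp (γ n) A * invert (sp (γ n) A) = sp (γ n) B * invert (sp (γ n) B)) :
    monomial (degs B) 1 * (A * rev (degs A) A) = monomial (degs A) 1 * (B * rev (degs B) B) := by
  rw [← sub_eq_zero]
  refine hγ.eq_zero (Filter.Eventually.frequently ?_)
  filter_upwards [h] with n hn
  rw [map_sub, map_mul, map_mul, map_mul, map_mul, sp_rev _ le_degs, sp_rev _ le_degs, sp_monomial,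
    sp_monomial, map_one, one_mul, one_mul, sub_eq_zero]
  calc T (wt (γ n) (degs B)) * (sp (γ n) A * (T (wt (γ n) (degs A)) * invert (sp (γ n) A)))
      = T (wt (γ n) (degs B)) * T (wt (γ n) (degs A)) * (sp (γ n) A * invert (sp (γ n) A)) := by ring
    _ = T (wt (γ n) (degs B)) * T (wt (γ n) (degs A)) * (sp (γ n) B * invert (sp (γ n) B)) := by
        rw [hn]
    _ = _ := by ring

end Pool.Agent.NRC
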