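import Pool.Agent.NRC.Defs
import Pool.Agent.H27Mahler.OneVar

/-!
# Module L01Ml: Mahler measure of Laurent polynomials

HINTS. Reduce to polynomials with `LaurentPolynomial.exists_T_pow` (`toLaurent p = P * T n`) and `norm_ez_T`; for
polynomials use `Pool.Agent.H27Mahler.integral_log_norm_eval`, `integrable_log_norm_eval`, `ae_eval_ne_zero`, multiplicativity
pointwise a.e.; `ml_nonneg`: a non-zero integer polynomial has Mahler measure `≥ 1` (leading coefficient;
`Polynomial.one_le_mahlerMeasure_of_ne_zero` or `log_coeff_le` in OneVar); `P = 0`: `log 0 = 0`.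
`ez_invert`: check on `C r * T n`, `conj (z ^ n) = z ^ (-n)` for `‖z‖ = 1`. `eq_of_ez`: infinitely many points
(`Pool.Agent.H27Mahler.Dobro`: `poly_eq_of_circle`, `infinite_circle`). `mul_invert_eq_iff`: `ez t (P * invert P) = ‖ez t P‖ ^ 2`.
-/

open LaurentPolynomial MeasureTheory

namespace Pool.Agent.NRC

/-- a point of the unit circle, as a unit of `ℂ` -/
noncomputable def cu (t : UnitAddCircle) : ℂˣ := Circle.toUnits (AddCircle.toCircle t)

/-- value of a Laurent polynomial at a point of the unit circle -/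
noncomputable def ez (t : UnitAddCircle) : LZ →+* ℂ := LaurentPolynomial.eval₂ (Int.castRingHom ℂ) (cu t)

/-- logarithm of the Mahler measure of a Laurent polynomial -/
noncomputable def ml (P : LZ) : ℝ := ∫ t : UnitAddCircle, Real.log ‖ez t P‖

theorem ez_T (t : UnitAddCircle) (n : ℤ) : ez t (T n) = ((AddCircle.toCircle t : Circle) : ℂ) ^ n := by
  rw [ez, eval₂_T, cu, Units.val_zpow_eq_zpow_val]
  rfl

theorem norm_ez_T (t : UnitAddCircle) (n : ℤ) : ‖ez t (T n)‖ = 1 := by
  rw [ez_T, norm_zpow, Circle.norm_coe, one_zpow]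

theorem ez_toLaurent (t : UnitAddCircle) (p : Polynomial ℤ) :
    ez t (Polynomial.toLaurent p) =
      (p.map (Int.castRingHom ℂ)).eval ((AddCircle.toCircle t : Circle) : ℂ) := by
  rw [ez, eval₂_toLaurent, Polynomial.eval_map]
  rfl

theorem ml_toLaurent (p : Polynomial ℤ) :
    ml (Polynomial.toLaurent p) = (p.map (Int.castRingHom ℂ)).logMahlerMeasure := by
  rw [ml, ← H27Mahler.integral_log_norm_eval]
  congr 1
  funext t
  rw [ez_toLaurent]

theorem ml_mul_T (P : LZ) (n : ℤ) : ml (P * T n) = ml P := by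
  rw [ml, ml]
  congr 1
  funext t
  rw [map_mul, norm_mul, norm_ez_T, mul_one]

theorem ae_ez_ne_zero {P : LZ} (hP : P ≠ 0) : ∀ᵐ t : UnitAddCircle, ez t P ≠ 0 := by
  obtain ⟨n, p, hp⟩ := exists_T_pow P
  have hp0 : p.map (Int.castRingHom ℂ) ≠ 0 := by
    rw [Ne, Polynomial.map_eq_zero_iff (RingHom.injective_int _)]
    rintro rfl
    rw [map_zero] at hp
    have h2 : P * T (n : ℤ) * T (-(n : ℤ)) = P := by
      rw [mul_assoc, ← T_add, add_neg_cancel, T_zero, mul_one]
    rw [← hp, zero_mul] at h2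
    exact hP h2.symm
  filter_upwards [H27Mahler.ae_eval_ne_zero _ hp0] with t ht h0
  apply ht
  rw [← ez_toLaurent, hp, map_mul, h0, zero_mul]

theorem integrable_log_ez (P : LZ) : Integrable fun t : UnitAddCircle => Real.log ‖ez t P‖ := by
  obtain ⟨n, p, hp⟩ := exists_T_pow P
  refine (H27Mahler.integrable_log_norm_eval (p.map (Int.castRingHom ℂ))).congr ?_
  refine Filter.Eventually.of_forall fun t => ?_
  show Real.log ‖Polynomial.eval (AddCircle.toCircle t : ℂ) (p.map (Int.castRingHom ℂ))‖ =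
    Real.log ‖ez t P‖
  rw [← ez_toLaurent, hp, map_mul, norm_mul, norm_ez_T, mul_one]

theorem ml_mul {P Q : LZ} (hP : P ≠ 0) (hQ : Q ≠ 0) : ml (P * Q) = ml P + ml Q := by
  rw [ml, ml, ml, ← integral_add (integrable_log_ez P) (integrable_log_ez Q)]
  apply integral_congr_ae
  filter_upwards [ae_ez_ne_zero hP, ae_ez_ne_zero hQ] with t h1 h2
  rw [map_mul, norm_mul, Real.log_mul (norm_ne_zero_iff.mpr h1) (norm_ne_zero_iff.mpr h2)]

theorem ml_nonneg (P : LZ) : 0 ≤ ml P := by
  obtain ⟨n, p, hp⟩ := exists_T_pow P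
  rw [← ml_mul_T P n, ← hp, ml_toLaurent, Polynomial.logMahlerMeasure_eq_log_MahlerMeasure]
  by_cases h0 : p = 0
  · subst h0
    simp
  · exact Real.log_nonneg (Polynomial.one_le_mahlerMeasure_of_ne_zero h0)

theorem ez_invert (t : UnitAddCircle) (P : LZ) :
    ez t (invert P) = (starRingEnd ℂ) (ez t P) := by
  induction P using LaurentPolynomial.induction_on' with
  | add p q hp hq => rw [map_add, map_add, map_add, map_add, hp, hq]
  | C_mul_T n a =>
    have hz : ‖((AddCircle.toCircle t : Circle) : ℂ)‖ = 1 := Circle.norm_coe _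
    have hinv : (starRingEnd ℂ) ((AddCircle.toCircle t : Circle) : ℂ) =
        ((AddCircle.toCircle t : Circle) : ℂ)⁻¹ := (Complex.inv_eq_conj hz).symm
    have hC : ez t (LaurentPolynomial.C a) = (a : ℂ) := by
      rw [ez, eval₂_C]
      rfl
    rw [map_mul, invert_C, invert_T, map_mul, map_mul, map_mul, ez_T, ez_T, map_zpow₀, hinv, hC,
      inv_zpow, zpow_neg, map_intCast]

theorem eq_of_ez {P Q : LZ} (h : ∀ t, ez t P = ez t Q) : P = Q := by
  by_contra hne
  have h1 := ae_ez_ne_zero (sub_ne_zero.mpr hne)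
  obtain ⟨t, ht⟩ := h1.exists
  apply ht
  rw [map_sub, h t, sub_self]

theorem mul_invert_eq_iff {P Q : LZ} :
    P * invert P = Q * invert Q ↔ ∀ t, ‖ez t P‖ = ‖ez t Q‖ := by
  have key : ∀ (t : UnitAddCircle) (R : LZ), ez t (R * invert R) = ((‖ez t R‖ ^ 2 : ℝ) : ℂ) := by
    intro t R
    rw [map_mul, ez_invert, Complex.mul_conj, Complex.normSq_eq_norm_sq]
  constructor
  · intro h t
    have h1 := key t P
    rw [h, key t Q] at h1
    have h2 : ‖ez t Q‖ ^ 2 = ‖ez t P‖ ^ 2 := by exact_mod_cast h1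
    exact ((sq_eq_sq₀ (norm_nonneg _) (norm_nonneg _)).mp h2).symm
  · intro h
    apply eq_of_ez
    intro t
    rw [key, key, h t]

theorem ml_eq_of_mul_invert {P Q : LZ} (h : P * invert P = Q * invert Q) : ml P = ml Q := by
  rw [ml, ml]
  congr 1
  funext t
  rw [mul_invert_eq_iff.mp h t]

end Pool.Agent.NRC
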