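import Pool.Agent.NRC.L01Ml
import Pool.Agent.SpCl.A07Limit

/-!
# Module L02Lim: the Boyd-Lawton limit along a filter

PROOF. `A = pl a s` (`Pool.Agent.SpCl.exists_pl`), `s` injective, `a i ≠ 0`, index type `ι = Fin card` (non-empty as `A ≠ 0`).
For `n` with `i ↦ wt (γ n) (s i)` injective (eventually, `Free.injOn`) let `N_n` be an integer with
`wt (γ n) (s i) + N_n ≥ 0` for all `i`, and `s n i = single 0 (wt (γ n) (s i) + N_n).toNat : Fin 1 →₀ ℕ`; for the other `n` let `s n` be any
injective family. Then (eventually) `sp (γ n) A * T N_n = toLaurent p_n` with `p_n = ∑ a_i X^(..)`, and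
`mm (pl a (s n)) = ml (toLaurent p_n) = ml (sp (γ n) A)` (`Tor (Fin 1)` and `UnitAddCircle`:
`MeasureTheory.volume_preserving_funUnique` / `piUnique`). `tendsto_mm` applies: relations
`∑_r s n (u r) = ∑_r s n (v r) ↔ ∑_r s (u r) = ∑_r s (v r)` eventually: `←` always holds (`wt` is additive, `j N_n` on both
sides); `→`: if `t = ∑ s (u r) - ∑ s (v r) ≠ 0` in `ℤ^K`, then `dt t (γ n) ≠ 0` eventually (`Free`).
-/

open MvPolynomial LaurentPolynomial MeasureTheory Filter Topology Pool.Agent.H27Mahler Pool.Agent.SpCl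

namespace Pool.Agent.NRC

section L02aux

/-- shift which makes all weights non-negative -/
private def l02sh {K m : ℕ} (g : Fin K → ℤ) (s : Fin m → (Fin K →₀ ℕ)) : ℤ := ∑ i, |wt g (s i)|

private theorem l02sh_le {K m : ℕ} (g : Fin K → ℤ) (s : Fin m → (Fin K →₀ ℕ)) (i : Fin m) :
    0 ≤ wt g (s i) + l02sh g s := by
  have h1 : |wt g (s i)| ≤ l02sh g s :=
    Finset.single_le_sum (f := fun i => |wt g (s i)|) (fun _ _ => abs_nonneg _) (Finset.mem_univ i)
  have h2 := neg_abs_le (wt g (s i))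
  linarith

private noncomputable def l02ex {K m : ℕ} (g : Fin K → ℤ) (s : Fin m → (Fin K →₀ ℕ)) (i : Fin m) :
    Unit →₀ ℕ := Finsupp.single () (wt g (s i) + l02sh g s).toNat

private theorem l02ex_apply {K m : ℕ} (g : Fin K → ℤ) (s : Fin m → (Fin K →₀ ℕ)) (i : Fin m) :
    ((l02ex g s i () : ℕ) : ℤ) = wt g (s i) + l02sh g s := by
  rw [l02ex, Finsupp.single_eq_same, Int.toNat_of_nonneg (l02sh_le g s i)]

private theorem l02ex_inj {K m : ℕ} {g : Fin K → ℤ} {s : Fin m → (Fin K →₀ ℕ)}
    (h : Function.Injective fun i => wt g (s i)) : Function.Injective (l02ex g s) := by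
  intro i j hij
  apply h
  have h1 := l02ex_apply g s i
  rw [hij, l02ex_apply] at h1
  show wt g (s i) = wt g (s j)
  linarith

private theorem l02ez_C (t : UnitAddCircle) (c : ℤ) : ez t (LaurentPolynomial.C c) = (c : ℂ) := by
  rw [ez, LaurentPolynomial.eval₂_C]
  simp

private theorem l02ez_sp {K m : ℕ} (g : Fin K → ℤ) (a : Fin m → ℤ) (s : Fin m → (Fin K →₀ ℕ))
    (t : UnitAddCircle) : ez t (sp g (pl a s)) =
      ∑ i, (a i : ℂ) * ((AddCircle.toCircle t : Circle) : ℂ) ^ (wt g (s i)) := by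
  rw [pl, map_sum, map_sum]
  refine Finset.sum_congr rfl fun i _ => ?_
  rw [sp_monomial, map_mul, l02ez_C, ez_T]

private theorem l02norm {K m : ℕ} (g : Fin K → ℤ) (a : Fin m → ℤ) (s : Fin m → (Fin K →₀ ℕ))
    (t : Tor Unit) : ‖ev t (pl a (l02ex g s))‖ = ‖ez (t ()) (sp g (pl a s))‖ := by
  have hz : ((AddCircle.toCircle (t ()) : Circle) : ℂ) ≠ 0 := Circle.coe_ne_zero _
  have h1 : ev t (pl a (l02ex g s)) = ez (t ()) (sp g (pl a s)) *
      ((AddCircle.toCircle (t ()) : Circle) : ℂ) ^ (l02sh g s) := by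
    rw [ev_pl, l02ez_sp, Finset.sum_mul]
    refine Finset.sum_congr rfl fun i _ => ?_
    have h2 : mon t (l02ex g s i) =
        ((AddCircle.toCircle (t ()) : Circle) : ℂ) ^ (wt g (s i) + l02sh g s) := by
      rw [← l02ex_apply, zpow_natCast, mon]
      simp
    rw [h2, zpow_add₀ hz, mul_assoc]
  rw [h1, norm_mul, norm_zpow, Circle.norm_coe, one_zpow, mul_one]

private theorem l02mm {K m : ℕ} (g : Fin K → ℤ) (a : Fin m → ℤ) (s : Fin m → (Fin K →₀ ℕ)) :
    mm (pl a (l02ex g s)) = ml (sp g (pl a s)) := by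
  rw [mm, ml]
  simp_rw [l02norm]
  exact (volume_preserving_funUnique Unit UnitAddCircle).integral_comp'
    (fun x => Real.log ‖ez x (sp g (pl a s))‖)

private theorem l02wt_sum {K j : ℕ} (g : Fin K → ℤ) (f : Fin j → (Fin K →₀ ℕ)) :
    wt g (∑ r, f r) = ∑ r, wt g (f r) := by
  let φ : (Fin K →₀ ℕ) →+ ℤ := ⟨⟨wt g, wt_zero g⟩, wt_add g⟩
  exact map_sum φ f Finset.univ

private theorem l02rel {K m j : ℕ} (g : Fin K → ℤ) (s : Fin m → (Fin K →₀ ℕ)) (u v : Fin j → Fin m) :
    (∑ r, l02ex g s (u r) = ∑ r, l02ex g s (v r)) ↔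
      wt g (∑ r, s (u r)) = wt g (∑ r, s (v r)) := by
  have key : ∀ w : Fin j → Fin m, (((∑ r, l02ex g s (w r)) () : ℕ) : ℤ) =
      wt g (∑ r, s (w r)) + j * l02sh g s := by
    intro w
    rw [Finsupp.finset_sum_apply, Nat.cast_sum, l02wt_sum]
    simp_rw [l02ex_apply]
    rw [Finset.sum_add_distrib]
    simp
  constructor
  · intro h
    have h1 := key u
    rw [h, key v] at h1
    linarith
  · intro h
    ext x
    have h1 := key u
    rw [h, ← key v] at h1
    exact_mod_cast h1

end L02aux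

theorem tendsto_ml {K : ℕ} {l : Filter ℕ} {γ : ℕ → Fin K → ℤ} (hγ : Free l γ)
    {A : MvPolynomial (Fin K) ℤ} (hA : A ≠ 0) :
    Tendsto (fun n => ml (sp (γ n) A)) l (𝓝 (mm A)) := by
  classical
  obtain ⟨a, s, hs, ha, hAe⟩ := exists_pl A
  haveI : Nonempty (Fin A.support.card) := by
    have : 0 < A.support.card := Finset.card_pos.2 (support_nonempty.mpr hA)
    exact ⟨⟨0, this⟩⟩
  set sn : ℕ → Fin A.support.card → (Unit →₀ ℕ) := fun n =>
    if Function.Injective (fun i => wt (γ n) (s i)) then l02ex (γ n) s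
    else fun i => Finsupp.single () (i : ℕ) with hsn
  have hgood : ∀ᶠ n in l, Function.Injective (fun i => wt (γ n) (s i)) := by
    filter_upwards [hγ.injOn A.support] with n hn i j hij
    have hmem : ∀ i, s i ∈ (A.support : Set (Fin K →₀ ℕ)) := by
      intro i
      have h1 := mem_support_pl hs ha i
      have h2 : s i ∈ A.support := by
        have e : A.support = (pl a s).support := congrArg MvPolynomial.support hAe
        rw [e]
        exact h1
      exact h2
    exact hs (hn (hmem i) (hmem j) hij)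
  have hsn_inj : ∀ n, Function.Injective (sn n) := by
    intro n
    rw [hsn]
    by_cases h : Function.Injective (fun i => wt (γ n) (s i))
    · simp only [if_pos h]
      exact l02ex_inj h
    · simp only [if_neg h]
      intro i j hij
      have h1 := DFunLike.congr_fun hij ()
      simp only [Finsupp.single_eq_same] at h1
      exact Fin.ext h1
  have hrel : ∀ (j : ℕ) (u v : Fin j → Fin A.support.card), ∀ᶠ n in l,
      (∑ r, sn n (u r) = ∑ r, sn n (v r) ↔ ∑ r, s (u r) = ∑ r, s (v r)) := by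
    intro j u v
    filter_upwards [hgood, hγ.injOn {∑ r, s (u r), ∑ r, s (v r)}] with n hn hn2
    have e : sn n = l02ex (γ n) s := by
      rw [hsn]
      simp only [if_pos hn]
    rw [e, l02rel]
    constructor
    · intro h
      exact hn2 (by simp) (by simp) h
    · intro h
      rw [h]
  have hT := tendsto_mm l a ha sn hsn_inj s hs hrel
  have hA2 : mm A = mm (pl a s) := congrArg mm hAe
  rw [hA2]
  refine hT.congr' ?_
  filter_upwards [hgood] with n hn
  have e : sn n = l02ex (γ n) s := by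
    rw [hsn]
    simp only [if_pos hn]
  rw [e, l02mm]
  exact congrArg (fun B => ml (sp (γ n) B)) hAe.symm

end Pool.Agent.NRC
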