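import Pool.Agent.NRC.O02Poly
import Pool.Agent.NRC.L01Ml

/-!
# Module O03Bd: the outer polynomial bounds the coefficients

PROOF of `parseval_poly`: `∑_j ‖f_j‖² =` mean of `‖f‖²` over the circle (finite Parseval: average of
`f(z) conj f(z)` over the `m`-th roots of unity, `m > deg f`, or the circle average; Mathlib may have it near
`Polynomial.mahlerMeasure` / Landau's inequality; or via `Pool.Agent.NRC.parseval`-like orthogonality of characters).
PROOF of `bd_of_norm_eq`. Let `(1 + δ')² ≤ 1 + δ`, `toLaurent p = P * T n` (`exists_T_pow`), `q` from `exists_outer_real p δ'`: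
on the circle `‖q z‖ ‖p z‖ ≤ (1 + δ') mahlerMeasure p = (1 + δ') exp (ml P)` (`ml_toLaurent`, `ml_mul_T`,
`Polynomial.mahlerMeasure = exp logMahlerMeasure` for `p ≠ 0`). `cf q P (e - n)` is the coefficient `e` of `q * p` (`coeff_mul_T`), so
`parseval_poly` gives the bound for `P`; for `Q`: `toLaurent p' = Q * T n'`, `‖q z * p' z‖ = ‖q z‖ ‖ez t Q‖ = ‖q z‖ ‖ez t P‖`.
-/

open LaurentPolynomial MeasureTheory

namespace Pool.Agent.NRC

theorem parseval_poly (f : Polynomial ℂ) {M : ℝ} (hM : ∀ z : ℂ, ‖z‖ = 1 → ‖f.eval z‖ ≤ M)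
    (A : Finset ℕ) : ∑ j ∈ A, ‖f.coeff j‖ ^ 2 ≤ M ^ 2 := by
  classical
  have h1 : ∑ j ∈ A, ‖f.coeff j‖ ^ 2 ≤ ∑ j ∈ f.support, ‖f.coeff j‖ ^ 2 := by
    rw [← Finset.sum_filter_of_ne (s := A) (p := fun j => j ∈ f.support)]
    · apply Finset.sum_le_sum_of_subset_of_nonneg
      · intro j hj
        exact (Finset.mem_filter.mp hj).2
      · intro j _ _
        positivity
    · intro j _ hj
      rw [Polynomial.mem_support_iff]
      intro h0
      apply hj
      simp [h0]
  refine h1.trans ?_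
  rw [Polynomial.sum_sq_norm_coeff_eq_circleAverage]
  apply Real.circleAverage_mono_on_of_le_circle
  · apply Continuous.continuousOn (s := Metric.sphere 0 |1|) (f := fun x => ‖f.eval x‖ ^ 2) (by fun_prop)
      |>.circleIntegrable'
  · intro z hz
    have hz1 : ‖z‖ = 1 := by simpa using hz
    have := hM z hz1
    have h0 := norm_nonneg (f.eval z)
    gcongr

/-- coefficients of the Laurent polynomial of a polynomial -/
private theorem O03_coeff_toLaurent (p : Polynomial ℤ) (e : ℕ) :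
    (Polynomial.toLaurent p).coeff (e : ℤ) = p.coeff e := by
  rw [LaurentPolynomial.coeff_toLaurent, ← Polynomial.toFinsupp_apply]
  have h := Finsupp.mapDomain_apply (f := Nat.castEmbedding (R := ℤ)) Nat.castEmbedding.injective
    p.toFinsupp.coeff e
  exact h

private theorem O03_coeff_toLaurent_neg (p : Polynomial ℤ) (e : ℤ) (he : e < 0) :
    (Polynomial.toLaurent p).coeff e = 0 := by
  rw [LaurentPolynomial.coeff_toLaurent]
  apply Finsupp.mapDomain_of_notMem_range
  rintro ⟨k, hk⟩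
  have : (k : ℤ) = e := hk
  omega

private theorem O03_cf_zero {q : Polynomial ℝ} {P : LZ} {n : ℤ} {p : Polynomial ℤ}
    (hp : Polynomial.toLaurent p = P * T n) (e : ℤ) (he : e + n < 0) : cf q P e = 0 := by
  unfold cf
  apply Finset.sum_eq_zero
  intro j _
  have h1 := coeff_mul_T P n (e + n - j)
  rw [← hp, O03_coeff_toLaurent_neg p _ (by omega)] at h1
  rw [show e - (j : ℤ) = e + n - j - n by ring, ← h1]
  simp

private theorem O03_cf {q : Polynomial ℝ} {P : LZ} {n : ℤ} {p : Polynomial ℤ}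
    (hp : Polynomial.toLaurent p = P * T n) (e : ℕ) :
    ((cf q P (e - n) : ℝ) : ℂ) =
      (q.map (algebraMap ℝ ℂ) * p.map (Int.castRingHom ℂ)).coeff e := by
  have hmap : q.map (algebraMap ℝ ℂ) * p.map (Int.castRingHom ℂ)
      = (q * p.map (Int.castRingHom ℝ)).map (algebraMap ℝ ℂ) := by
    rw [Polynomial.map_mul, Polynomial.map_map]
    congr 2
  rw [hmap, Polynomial.coeff_map]
  congr 1
  rw [Polynomial.coeff_mul, Finset.Nat.sum_antidiagonal_eq_sum_range_succ_mk]
  have h1 : cf q P (e - n) = ∑ j ∈ q.support,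
      (if j ≤ e then q.coeff j * ((p.coeff (e - j) : ℤ) : ℝ) else 0) := by
    unfold cf
    refine Finset.sum_congr rfl fun j _ => ?_
    have h2 := coeff_mul_T P n (e - j)
    rw [← hp] at h2
    rw [show (e : ℤ) - n - j = e - j - n by ring, ← h2]
    split_ifs with hj
    · rw [show (e : ℤ) - (j : ℤ) = ((e - j : ℕ) : ℤ) by omega, O03_coeff_toLaurent]
    · rw [O03_coeff_toLaurent_neg p _ (by omega)]
      simp
  have h3 : ∑ k ∈ Finset.range (e + 1), q.coeff k * (p.map (Int.castRingHom ℝ)).coeff (e - k)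
      = ∑ k ∈ Finset.range (e + 1),
        (if k ≤ e then q.coeff k * ((p.coeff (e - k) : ℤ) : ℝ) else 0) := by
    refine Finset.sum_congr rfl fun k hk => ?_
    rw [if_pos (by have := Finset.mem_range.mp hk; omega), Polynomial.coeff_map, eq_intCast]
  rw [h1]
  refine Eq.trans ?_ h3.symm
  have h4 := Finset.sum_subset (Finset.subset_union_left (s₁ := q.support)
    (s₂ := Finset.range (e + 1)))
    (f := fun j => if j ≤ e then q.coeff j * ((p.coeff (e - j) : ℤ) : ℝ) else 0)
    (by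
      intro x _ hx
      have : q.coeff x = 0 := Polynomial.notMem_support_iff.mp hx
      simp [this])
  have h5 := Finset.sum_subset (Finset.subset_union_right (s₁ := q.support)
    (s₂ := Finset.range (e + 1)))
    (f := fun j => if j ≤ e then q.coeff j * ((p.coeff (e - j) : ℤ) : ℝ) else 0)
    (by
      intro x _ hx
      rw [if_neg]
      intro hxe
      exact hx (Finset.mem_range.mpr (by omega)))
  rw [h4, h5]

private theorem O03_bound {q : Polynomial ℝ} {P : LZ} {n : ℤ} {p : Polynomial ℤ}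
    (hp : Polynomial.toLaurent p = P * T n) {M : ℝ}
    (hM : ∀ z : ℂ, ‖z‖ = 1 →
      ‖(q.map (algebraMap ℝ ℂ)).eval z‖ * ‖(p.map (Int.castRingHom ℂ)).eval z‖ ≤ M)
    (A : Finset ℤ) : ∑ e ∈ A, (cf q P e) ^ 2 ≤ M ^ 2 := by
  classical
  have hinj : Set.InjOn (fun e : ℤ => (e + n).toNat)
      ((A.filter fun e => 0 ≤ e + n : Finset ℤ) : Set ℤ) := by
    intro a ha b hb hab
    have h1 := (Finset.mem_filter.mp ha).2
    have h2 := (Finset.mem_filter.mp hb).2
    simp only at hab
    omega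
  have h1 : ∑ e ∈ A, (cf q P e) ^ 2 = ∑ e ∈ A.filter (fun e => 0 ≤ e + n), (cf q P e) ^ 2 := by
    rw [Finset.sum_filter_of_ne]
    intro e _ he
    by_contra hcon
    exact he (by rw [O03_cf_zero hp e (by omega)]; simp)
  have h2 : ∑ j ∈ (A.filter fun e => 0 ≤ e + n).image (fun e : ℤ => (e + n).toNat),
      ‖(q.map (algebraMap ℝ ℂ) * p.map (Int.castRingHom ℂ)).coeff j‖ ^ 2
      = ∑ e ∈ A.filter (fun e => 0 ≤ e + n), (cf q P e) ^ 2 := by
    rw [Finset.sum_image hinj]
    refine Finset.sum_congr rfl fun e he => ?_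
    have h3 := (Finset.mem_filter.mp he).2
    rw [← O03_cf hp, show (((e + n).toNat : ℕ) : ℤ) - n = e by omega, Complex.norm_real,
      Real.norm_eq_abs, sq_abs]
  rw [h1, ← h2]
  apply parseval_poly
  intro z hz
  rw [Polynomial.eval_mul, norm_mul]
  exact hM z hz

private theorem O03_surj (z : ℂ) (hz : ‖z‖ = 1) :
    ∃ t : UnitAddCircle, ((AddCircle.toCircle t : Circle) : ℂ) = z := by
  refine ⟨((Complex.arg z / (2 * Real.pi) : ℝ) : UnitAddCircle), ?_⟩
  rw [AddCircle.toCircle_apply_mk, Circle.coe_exp]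
  have h1 : (2 * Real.pi / 1 * (Complex.arg z / (2 * Real.pi)) : ℝ) = Complex.arg z := by
    field_simp
  rw [h1]
  have h2 := Complex.norm_mul_exp_arg_mul_I z
  rw [hz] at h2
  simpa using h2

theorem bd_of_norm_eq {P Q : LZ} (hP : P ≠ 0) (h : ∀ t, ‖ez t P‖ = ‖ez t Q‖) {δ : ℝ} (hδ : 0 < δ) :
    Bd P Q ((1 + δ) * Real.exp (2 * ml P)) := by
  obtain ⟨n, p, hp⟩ := P.exists_T_pow
  obtain ⟨m, r, hr⟩ := Q.exists_T_pow
  have hδ' : 0 < Real.sqrt (1 + δ) - 1 := by
    have := Real.lt_sqrt_of_sq_lt (x := 1) (y := 1 + δ) (by linarith)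
    linarith
  obtain ⟨q, hq0, hq⟩ := exists_outer_real p hδ'
  have hp0 : p.map (Int.castRingHom ℂ) ≠ 0 := by
    rw [Ne, Polynomial.map_eq_zero_iff (RingHom.injective_int _)]
    intro h0
    rw [h0, map_zero] at hp
    have h1 : P * T n * T (-n) = 0 := by rw [← hp, zero_mul]
    rw [mul_assoc, ← T_add, add_neg_cancel, T_zero, mul_one] at h1
    exact hP h1
  have hmm : (p.map (Int.castRingHom ℂ)).mahlerMeasure = Real.exp (ml P) := by
    rw [← ml_mul_T P n, ← hp, ml_toLaurent, Polynomial.logMahlerMeasure_eq_log_MahlerMeasure,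
      Real.exp_log (Polynomial.mahlerMeasure_pos_of_ne_zero hp0)]
  have hnormP : ∀ t : UnitAddCircle, ‖(p.map (Int.castRingHom ℂ)).eval
      ((AddCircle.toCircle t : Circle) : ℂ)‖ = ‖ez t P‖ := by
    intro t
    rw [← ez_toLaurent, hp, map_mul, norm_mul, norm_ez_T, mul_one]
  have hnormQ : ∀ t : UnitAddCircle, ‖(r.map (Int.castRingHom ℂ)).eval
      ((AddCircle.toCircle t : Circle) : ℂ)‖ = ‖ez t Q‖ := by
    intro t
    rw [← ez_toLaurent, hr, map_mul, norm_mul, norm_ez_T, mul_one]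
  have hsq : ((1 + (Real.sqrt (1 + δ) - 1)) * Real.exp (ml P)) ^ 2
      = (1 + δ) * Real.exp (2 * ml P) := by
    rw [add_sub_cancel, mul_pow, Real.sq_sqrt (by linarith), ← Real.exp_nat_mul]
    norm_num
  rw [← hsq]
  rw [hmm] at hq
  refine ⟨q, hq0, fun A => O03_bound hp hq A, fun A => O03_bound hr ?_ A⟩
  intro z hz
  obtain ⟨t, rfl⟩ := O03_surj z hz
  rw [hnormQ t, ← h t, ← hnormP t]
  exact hq _ hz

end Pool.Agent.NRC
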