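import Mathlib

/-!
# Module N02Jump: the jump rows of a finite sequence of integer rows

`E` = set of those `k` for which the row `R k` (cast to `ι → ℚ` or `ι → ℝ`) is not in the span of the rows `R l`,
`l < k`.

PROOF. (1) By strong induction on `k` every row `R k` is in the span of the `R l`, `l ∈ E`, `l ≤ k`; for `k ∉ E` in the
span of the `R l`, `l ∈ E`, `l < k`. This gives the first clause (work over ℚ or ℝ; `x` real extension).
(2) The rows `R k`, `k ∈ E`, are linearly independent (the largest index in a dependence would be in the span of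
the smaller ones), so their Gram determinant is non-zero: over ℝ, `G = A Aᵀ` with `yᵀ G y = |yᵀ A|²`, so `G` is
injective; `det` of the integer Gram matrix casts to the real one.
(3) `∑_l L k l R_l = R_k + ∑_{l < k} L k l R_l` (for `k ∈ E`), and every `R_l`, `l < k`, is a real combination of the
`R_{k'}`, `k' ∈ E`, `k' ≤ l < k`. So it equals `R_k + ∑_{k' ∈ E, k' < k} c_{k k'} R_{k'}`: `U k k = 1`, `U k k' = c_{k k'}` for
`k' < k`, `0` for `k' > k`: lower triangular with unit diagonal (`Matrix.det_of_lowerTriangular`), `det U = 1`.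
-/

open Matrix

namespace Pool.Agent.NRC

/-- the jump set of a finite sequence of real vectors -/
private noncomputable def jmp {ι : Type} [Fintype ι] {H : ℕ} (v : Fin H → ι → ℝ) : Finset (Fin H) :=
  by
    classical
    exact Finset.univ.filter fun k => v k ∉ Submodule.span ℝ (v '' {l | l < k})

private theorem mem_jmp {ι : Type} [Fintype ι] {H : ℕ} (v : Fin H → ι → ℝ) (k : Fin H) :
    k ∈ jmp v ↔ v k ∉ Submodule.span ℝ (v '' {l | l < k}) := by
  classical
  simp [jmp]

private theorem jmp_span {ι : Type} [Fintype ι] {H : ℕ} (v : Fin H → ι → ℝ) (k : Fin H) :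
    v k ∈ Submodule.span ℝ (v '' {l | l ∈ jmp v ∧ l ≤ k}) := by
  induction k using WellFoundedLT.induction with
  | ind k ih =>
    by_cases hk : k ∈ jmp v
    · exact Submodule.subset_span ⟨k, ⟨hk, le_rfl⟩, rfl⟩
    · rw [mem_jmp, not_not] at hk
      refine Submodule.span_le.2 ?_ hk
      rintro _ ⟨l, hl, rfl⟩
      refine Submodule.span_mono ?_ (ih l hl)
      rintro _ ⟨l', ⟨h1, h2⟩, rfl⟩
      exact ⟨l', ⟨h1, h2.trans (le_of_lt hl)⟩, rfl⟩

private theorem jmp_comb {ι : Type} [Fintype ι] {H : ℕ} (v : Fin H → ι → ℝ) (k : Fin H) (w : ι → ℝ)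
    (hw : w ∈ Submodule.span ℝ (v '' {l | l ∈ jmp v ∧ l < k})) :
    ∃ c : jmp v → ℝ, (∀ k' : jmp v, ¬ (k' : Fin H) < k → c k' = 0) ∧ ∑ k' : jmp v, c k' • v k' = w := by
  classical
  induction hw using Submodule.span_induction with
  | mem x hx =>
    obtain ⟨l, ⟨h1, h2⟩, rfl⟩ := hx
    refine ⟨Pi.single ⟨l, h1⟩ 1, ?_, ?_⟩
    · intro k' hk'
      rw [Pi.single_apply, if_neg]
      rintro rfl
      exact hk' h2
    · rw [Finset.sum_eq_single ⟨l, h1⟩]
      · simp
      · intro b _ hb
        rw [Pi.single_apply, if_neg hb, zero_smul]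
      · simp
  | zero => exact ⟨0, fun _ _ => rfl, by simp⟩
  | add x y _ _ hx hy =>
    obtain ⟨c, hc, rfl⟩ := hx
    obtain ⟨d, hd, rfl⟩ := hy
    refine ⟨c + d, fun k' hk' => by simp [hc k' hk', hd k' hk'], ?_⟩
    simp [add_smul, Finset.sum_add_distrib]
  | smul a x _ hx =>
    obtain ⟨c, hc, rfl⟩ := hx
    refine ⟨a • c, fun k' hk' => by simp [hc k' hk'], ?_⟩
    simp [Finset.smul_sum, smul_smul]

private theorem jmp_indep {ι : Type} [Fintype ι] {H : ℕ} (v : Fin H → ι → ℝ) (g : jmp v → ℝ)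
    (hg : ∑ k' : jmp v, g k' • v k' = 0) : g = 0 := by
  classical
  by_contra hne
  have hex : (Finset.univ.filter fun k : jmp v => g k ≠ 0).Nonempty := by
    by_contra h
    rw [Finset.not_nonempty_iff_eq_empty, Finset.filter_eq_empty_iff] at h
    refine hne (funext fun k => ?_)
    have := h (Finset.mem_univ k)
    simpa using this
  obtain ⟨k, hk, hmax⟩ := Finset.exists_max_image _ (fun k : jmp v => (k : Fin H)) hex
  rw [Finset.mem_filter] at hk
  have hkJ := (mem_jmp v k).1 k.2
  apply hkJ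
  have h1 : g k • v k = - ∑ k' ∈ Finset.univ.erase k, g k' • v k' := by
    rw [← Finset.add_sum_erase _ _ (Finset.mem_univ k)] at hg
    exact eq_neg_of_add_eq_zero_left hg
  have h2 : v k = (g k)⁻¹ • - ∑ k' ∈ Finset.univ.erase k, g k' • v k' := by
    rw [← h1, smul_smul, inv_mul_cancel₀ hk.2, one_smul]
  rw [h2]
  refine Submodule.smul_mem _ _ (Submodule.neg_mem _ (Submodule.sum_mem _ fun k' hk' => ?_))
  by_cases hz : g k' = 0
  · rw [hz, zero_smul]
    exact Submodule.zero_mem _
  · have hle := hmax k' (Finset.mem_filter.2 ⟨Finset.mem_univ _, hz⟩)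
    have hlt : (k' : Fin H) < k := by
      refine lt_of_le_of_ne hle fun h => ?_
      exact (Finset.mem_erase.1 hk').1 (Subtype.ext h)
    exact Submodule.smul_mem _ _ (Submodule.subset_span ⟨k', hlt, rfl⟩)

theorem exists_jumps {ι : Type} [Fintype ι] [DecidableEq ι] (H : ℕ) (R : Fin H → ι → ℤ)
    (L : Fin H → Fin H → ℝ) (hd : ∀ k, L k k = 1) (hu : ∀ k l, k < l → L k l = 0) :
    ∃ E : Finset (Fin H),
      (∀ x : ι → ℤ, (∀ k ∈ E, ∑ i, R k i * x i = 0) → ∀ k, ∑ i, R k i * x i = 0) ∧
      ((Matrix.of fun (k : E) (i : ι) => R k i) *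
        (Matrix.of fun (k : E) (i : ι) => R k i)ᵀ).det ≠ 0 ∧
      ∃ U : Matrix E E ℝ, U.det = 1 ∧
        ∀ (k : E) (i : ι), ∑ l, L k l * ((R l i : ℤ) : ℝ) = ∑ k' : E, U k k' * ((R k' i : ℤ) : ℝ) := by
  classical
  set v : Fin H → ι → ℝ := fun k i => ((R k i : ℤ) : ℝ) with hv
  refine ⟨jmp v, ?_, ?_, ?_⟩
  · intro x hx k
    let f : (ι → ℝ) →ₗ[ℝ] ℝ := ∑ i, (x i : ℝ) • LinearMap.proj i
    have hf : ∀ l, f (v l) = ((∑ i, R l i * x i : ℤ) : ℝ) := by
      intro l
      simp [f, hv, mul_comm]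
    have h0 : ∀ w ∈ Submodule.span ℝ (v '' {l | l ∈ jmp v ∧ l ≤ k}), f w = 0 := by
      intro w hw
      have hle : Submodule.span ℝ (v '' {l | l ∈ jmp v ∧ l ≤ k}) ≤ LinearMap.ker f := by
        rw [Submodule.span_le]
        rintro _ ⟨l, ⟨h1, _⟩, rfl⟩
        rw [SetLike.mem_coe, LinearMap.mem_ker, hf, hx l h1]
        simp
      exact hle hw
    have h1 := h0 _ (jmp_span v k)
    rw [hf] at h1
    exact_mod_cast h1
  · intro hdet
    set A : Matrix (jmp v) ι ℝ := Matrix.of fun k i => ((R k i : ℤ) : ℝ) with hA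
    have hdetR : (A * Aᵀ).det = 0 := by
      have h1 : (A * Aᵀ) = ((Matrix.of fun (k : jmp v) (i : ι) => R k i) *
          (Matrix.of fun (k : jmp v) (i : ι) => R k i)ᵀ).map (Int.castRingHom ℝ) := by
        ext a b
        simp [hA, Matrix.mul_apply]
      rw [h1, ← RingHom.mapMatrix_apply, ← RingHom.map_det, hdet, map_zero]
    obtain ⟨y, hy, hy0⟩ := Matrix.exists_vecMul_eq_zero_iff.2 hdetR
    apply hy
    have h2 : (y ᵥ* A) ⬝ᵥ (y ᵥ* A) = 0 := by
      have h3 : (y ᵥ* A) ⬝ᵥ (y ᵥ* A) = (y ᵥ* (A * Aᵀ)) ⬝ᵥ y := by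
        rw [← Matrix.vecMul_vecMul, Matrix.vecMul_transpose, ← Matrix.mulVec_transpose A y,
          Matrix.dotProduct_mulVec, Matrix.vecMul_transpose]
      rw [h3, hy0, zero_dotProduct]
    have h4 : y ᵥ* A = 0 := dotProduct_self_eq_zero.1 h2
    refine jmp_indep v y ?_
    funext i
    have h5 := congrFun h4 i
    simp only [Matrix.vecMul, dotProduct, hA, Matrix.of_apply, Pi.zero_apply] at h5
    simpa [Finset.sum_apply, hv] using h5
  · have key : ∀ k : jmp v, ∃ c : jmp v → ℝ, (∀ k' : jmp v, ¬ (k' : Fin H) < k → c k' = 0) ∧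
        ∑ k' : jmp v, c k' • v k' = ∑ l ∈ Finset.univ.erase (k : Fin H), L k l • v l := by
      intro k
      refine jmp_comb v k _ (Submodule.sum_mem _ fun l hl => ?_)
      rcases lt_or_ge (k : Fin H) l with h | h
      · rw [hu _ _ h, zero_smul]
        exact Submodule.zero_mem _
      · have hlt : l < k := lt_of_le_of_ne h (Finset.mem_erase.1 hl).1
        refine Submodule.smul_mem _ _ (Submodule.span_mono ?_ (jmp_span v l))
        rintro _ ⟨l', ⟨h1, h2⟩, rfl⟩
        exact ⟨l', ⟨h1, lt_of_le_of_lt h2 hlt⟩, rfl⟩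
    choose c hc0 hc using key
    refine ⟨Matrix.of fun k k' => if k' = k then 1 else c k k', ?_, ?_⟩
    · rw [Matrix.det_of_isLowerTriangular]
      · simp
      · intro a b hab
        have hab' : a < b := hab
        simp only [Matrix.of_apply]
        rw [if_neg (ne_of_gt hab'), hc0 a b]
        exact not_lt_of_gt (show (a : Fin H) < b from hab')
    · intro k i
      have h1 := congrFun (hc k) i
      simp only [Finset.sum_apply, Pi.smul_apply, smul_eq_mul, hv] at h1
      rw [← Finset.add_sum_erase _ _ (Finset.mem_univ (k : Fin H)), ← h1, hd, one_mul]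
      have h2 : ∀ k' : jmp v, (Matrix.of fun k k' => if k' = k then (1 : ℝ) else c k k') k k' *
          ((R k' i : ℤ) : ℝ) = (if k' = k then ((R k' i : ℤ) : ℝ) else 0) +
            c k k' * ((R k' i : ℤ) : ℝ) := by
        intro k'
        simp only [Matrix.of_apply]
        split_ifs with h
        · subst h
          rw [hc0 k' k' (lt_irrefl _)]
          ring
        · ring
      rw [Finset.sum_congr rfl fun k' _ => h2 k', Finset.sum_add_distrib,
        Finset.sum_ite_eq' Finset.univ k, if_pos (Finset.mem_univ _)]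

end Pool.Agent.NRC
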