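import Pool.Agent.NRC.N01Had
import Pool.Agent.NRC.N02Jump

/-!
# Module N03Row: jump rows indexed by integers, multiplied with a polynomial

PROOF of `exists_rows`. The set of `e` with `R e ≠ 0` is finite, so it lies in `[a, a + H)` for some `a : ℤ`, `H : ℕ`. Apply
`exists_jumps` to `R' k = R (a + k)`, `k : Fin H`, and `L k l = q.coeff (k - l)` for `l ≤ k`, `0` otherwise
(`L k k = q.coeff 0 = 1`). For `k : Fin H`: `∑_l L k l R'_l = ∑_{j ∈ q.support} q_j R (a + k - j)` (the terms with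
`j > k` vanish because `R (a + k - j) = 0`). `E = image (k ↦ a + k)` of the jump set (a bijection; reindexing of
determinants: `Matrix.det_submatrix_equiv_self` / `Matrix.reindex`). With `A` = real matrix of the rows `R e`, `e ∈ E`, and
`B` = matrix of the rows `∑_j q_j R (e - j)`: `B = U A`, so `det (B Bᵀ) = det U ^ 2 * det (A Aᵀ) = det (A Aᵀ)`, and
`det (B Bᵀ) ≤ ∏ rho` by `det_gram_le`. For a minor `φ`: `B.submatrix id φ = U * A.submatrix id φ`, so
`det (A.submatrix id φ) ^ 2 = det (B.submatrix id φ) ^ 2 ≤ ∏_e ∑_{e'} B e (φ e') ^ 2 ≤ ∏_e rho e` (`φ` injective,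
`det_sq_le`). Kernel clause: for `e` outside `[a, a+H)` the row is zero.
-/

open Matrix

namespace Pool.Agent.NRC

/-- the square norm of the row `e` of the product of `q` with the sequence of rows `R` -/
noncomputable def rho {ι : Type} [Fintype ι] (q : Polynomial ℝ) (R : ℤ → ι → ℤ) (e : ℤ) : ℝ :=
  ∑ i, (∑ j ∈ q.support, q.coeff j * ((R (e - (j : ℤ)) i : ℤ) : ℝ)) ^ 2

theorem rho_nonneg {ι : Type} [Fintype ι] (q : Polynomial ℝ) (R : ℤ → ι → ℤ) (e : ℤ) :
    0 ≤ rho q R e := Finset.sum_nonneg fun _ _ => sq_nonneg _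

/-- the matrix of the rows in `E` -/
def RE {ι : Type} (R : ℤ → ι → ℤ) (E : Finset ℤ) : Matrix E ι ℤ := Matrix.of fun e i => R e i

/-- the convolution as a sum over the earlier rows -/
private lemma N03Row_conv {ι : Type} (R : ℤ → ι → ℤ) (a : ℤ) (H : ℕ)
    (hRz : ∀ e, e < a → R e = 0) (q : Polynomial ℝ) (k : Fin H) (i : ι) :
    ∑ l : Fin H, (if l ≤ k then q.coeff ((k : ℕ) - (l : ℕ)) else 0) * ((R (a + ((l : ℕ) : ℤ)) i : ℤ) : ℝ)
      = ∑ j ∈ q.support, q.coeff j * ((R (a + ((k : ℕ) : ℤ) - (j : ℤ)) i : ℤ) : ℝ) := by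
  have hF : ∀ j : ℕ, (k : ℕ) < j →
      q.coeff j * ((R (a + ((k : ℕ) : ℤ) - (j : ℤ)) i : ℤ) : ℝ) = 0 := by
    intro j hj
    rw [hRz _ (by omega)]
    simp
  have h1 : ∑ j ∈ q.support, q.coeff j * ((R (a + ((k : ℕ) : ℤ) - (j : ℤ)) i : ℤ) : ℝ)
      = ∑ j ∈ q.support ∪ Finset.range ((k : ℕ) + 1),
        q.coeff j * ((R (a + ((k : ℕ) : ℤ) - (j : ℤ)) i : ℤ) : ℝ) := by
    refine Finset.sum_subset Finset.subset_union_left ?_
    intro j _ hj
    rw [Polynomial.notMem_support_iff.1 hj, zero_mul]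
  have h2 : ∑ j ∈ Finset.range ((k : ℕ) + 1),
        q.coeff j * ((R (a + ((k : ℕ) : ℤ) - (j : ℤ)) i : ℤ) : ℝ)
      = ∑ j ∈ q.support ∪ Finset.range ((k : ℕ) + 1),
        q.coeff j * ((R (a + ((k : ℕ) : ℤ) - (j : ℤ)) i : ℤ) : ℝ) := by
    refine Finset.sum_subset Finset.subset_union_right ?_
    intro j _ hj
    refine hF j ?_
    rw [Finset.mem_range] at hj
    omega
  rw [h1, ← h2, ← Finset.sum_range_reflect]
  have h3 : ∑ l : Fin H, (if l ≤ k then q.coeff ((k : ℕ) - (l : ℕ)) else 0) *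
        ((R (a + ((l : ℕ) : ℤ)) i : ℤ) : ℝ)
      = ∑ l ∈ Finset.range H, (if l ≤ (k : ℕ) then q.coeff ((k : ℕ) - l) else 0) *
        ((R (a + (l : ℤ)) i : ℤ) : ℝ) := by
    rw [Finset.sum_range]
    refine Finset.sum_congr rfl fun l _ => ?_
    simp only [Fin.le_def]
  rw [h3]
  symm
  have h4 : Finset.range ((k : ℕ) + 1) ⊆ Finset.range H := Finset.range_mono (by omega)
  refine Finset.sum_subset_zero_on_sdiff h4 ?_ ?_
  · intro l hl
    rw [Finset.mem_sdiff, Finset.mem_range, Finset.mem_range] at hl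
    rw [if_neg (by omega), zero_mul]
  · intro l hl
    rw [Finset.mem_range] at hl
    rw [if_pos (by omega)]
    have h5 : (k : ℕ) + 1 - 1 - l = (k : ℕ) - l := by omega
    have h6 : a + ((k : ℕ) : ℤ) - (((k : ℕ) - l : ℕ) : ℤ) = a + (l : ℤ) := by
      rw [Nat.cast_sub (by omega)]
      ring
    rw [h5, h6]

theorem exists_rows {ι : Type} [Fintype ι] [DecidableEq ι] (R : ℤ → ι → ℤ)
    (hR : {e | R e ≠ 0}.Finite) (q : Polynomial ℝ) (hq : q.coeff 0 = 1) :
    ∃ E : Finset ℤ,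
      (∀ x : ι → ℤ, (∀ e ∈ E, ∑ i, R e i * x i = 0) → ∀ e, ∑ i, R e i * x i = 0) ∧
      (RE R E * (RE R E)ᵀ).det ≠ 0 ∧
      (((RE R E * (RE R E)ᵀ).det : ℤ) : ℝ) ≤ ∏ e ∈ E, rho q R e ∧
      ∀ φ : E → ι, Function.Injective φ →
        (((Matrix.of fun (e e' : E) => R e (φ e')).det : ℤ) : ℝ) ^ 2 ≤ ∏ e ∈ E, rho q R e := by
  obtain ⟨M, hM⟩ := hR.bddAbove
  obtain ⟨a, ha⟩ := hR.bddBelow
  set H : ℕ := (M + 1 - a).toNat with hH
  have hlow : ∀ e, e < a → R e = 0 := by
    intro e he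
    by_contra h
    exact absurd (ha h) (not_le.2 he)
  have hhigh : ∀ e, a + (H : ℤ) ≤ e → R e = 0 := by
    intro e he
    by_contra h
    have h1 : e ≤ M := hM h
    omega
  obtain ⟨E', h1, h2, U, hU, hUB⟩ := exists_jumps H (fun k : Fin H => R (a + ((k : ℕ) : ℤ)))
    (fun k l => if l ≤ k then q.coeff ((k : ℕ) - (l : ℕ)) else 0)
    (by
      intro k
      simp [hq])
    (by
      intro k l hkl
      rw [if_neg (not_le.2 hkl)])
  simp only [N03Row_conv R a H hlow q] at hUB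
  set emb : Fin H ↪ ℤ := ⟨fun k => a + ((k : ℕ) : ℤ), fun k l hkl => by
    have h : a + ((k : ℕ) : ℤ) = a + ((l : ℕ) : ℤ) := hkl
    exact Fin.ext (by omega)⟩ with hemb
  have hembv : ∀ k : Fin H, emb k = a + ((k : ℕ) : ℤ) := fun k => rfl
  set σ : E' ≃ (E'.map emb) := Finset.equivMap emb E' with hσ
  have hσv : ∀ k : E', ((σ k : ℤ)) = a + (((k : Fin H) : ℕ) : ℤ) := fun k => rfl
  set A0 : Matrix E' ι ℤ := Matrix.of fun (k : E') (i : ι) => R (a + (((k : Fin H) : ℕ) : ℤ)) i with hA0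
  set A : Matrix E' ι ℝ := A0.map (fun x => (x : ℝ)) with hA
  set B : Matrix E' ι ℝ := U * A with hB
  have hBv : ∀ k i, B k i = ∑ j ∈ q.support,
      q.coeff j * ((R (a + (((k : Fin H) : ℕ) : ℤ) - (j : ℤ)) i : ℤ) : ℝ) := by
    intro k i
    rw [hUB k i, hB, Matrix.mul_apply]
    rfl
  have hrho : ∀ k : E', ∑ i, B k i ^ 2 = rho q R (a + (((k : Fin H) : ℕ) : ℤ)) := by
    intro k
    unfold rho
    refine Finset.sum_congr rfl fun i _ => ?_
    rw [hBv]
  have hprod : ∏ e ∈ E'.map emb, rho q R e = ∏ k : E', rho q R (a + (((k : Fin H) : ℕ) : ℤ)) := by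
    rw [Finset.prod_map]
    exact (Finset.prod_coe_sort E' (fun k : Fin H => rho q R (a + ((k : ℕ) : ℤ)))).symm
  have hdet : (RE R (E'.map emb) * (RE R (E'.map emb))ᵀ).det = (A0 * A0ᵀ).det := by
    rw [← Matrix.det_submatrix_equiv_self σ (RE R (E'.map emb) * (RE R (E'.map emb))ᵀ)]
    congr 1
  refine ⟨E'.map emb, ?_, ?_, ?_, ?_⟩
  · intro x hx e
    by_cases he : a ≤ e ∧ e < a + (H : ℤ)
    · have h3 := h1 x (by
        intro k hk
        exact hx (emb k) (Finset.mem_map_of_mem _ hk)) ⟨(e - a).toNat, by omega⟩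
      have h4 : a + (((⟨(e - a).toNat, by omega⟩ : Fin H) : ℕ) : ℤ) = e := by
        show a + ((e - a).toNat : ℤ) = e
        omega
      simp only [h4] at h3
      exact h3
    · have h3 : R e = 0 := by
        by_cases h4 : e < a
        · exact hlow e h4
        · exact hhigh e (by push Not at he; exact he (by omega))
      rw [h3]
      simp
  · rw [hdet]
    exact h2
  · rw [hdet, hprod, Int.cast_det]
    have h3 : ((A0 * A0ᵀ).map fun x => (x : ℝ)) = A * Aᵀ := by
      ext k l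
      simp [Matrix.mul_apply, hA]
    have h4 : (B * Bᵀ).det = (A * Aᵀ).det := by
      rw [hB, Matrix.transpose_mul, Matrix.mul_assoc, Matrix.det_mul, ← Matrix.mul_assoc A,
        Matrix.det_mul, Matrix.det_transpose, hU]
      ring
    rw [h3, ← h4]
    refine (det_gram_le B).trans (le_of_eq ?_)
    exact Finset.prod_congr rfl fun k _ => hrho k
  · intro φ hφ
    rw [hprod]
    have h3 : (Matrix.of fun (e e' : (E'.map emb)) => R e (φ e')).det
        = (A0.submatrix id (fun k => φ (σ k))).det := by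
      rw [← Matrix.det_submatrix_equiv_self σ]
      congr 1
    rw [h3, Int.cast_det]
    have h4 : ((A0.submatrix id (fun k => φ (σ k))).map fun x => (x : ℝ))
        = A.submatrix id (fun k => φ (σ k)) := rfl
    have h5 : B.submatrix id (fun k => φ (σ k)) = U * A.submatrix id (fun k => φ (σ k)) := by
      ext k l
      simp [hB, Matrix.mul_apply]
    have h6 : (B.submatrix id (fun k => φ (σ k))).det = (A.submatrix id (fun k => φ (σ k))).det := by
      rw [h5, Matrix.det_mul, hU, one_mul]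
    rw [h4, ← h6]
    refine (det_sq_le _).trans ?_
    refine Finset.prod_le_prod (fun k _ => Finset.sum_nonneg fun _ _ => sq_nonneg _) fun k _ => ?_
    rw [← hrho]
    have hinj : Function.Injective (fun k => φ (σ k)) := hφ.comp σ.injective
    have h7 : ∑ j : E', (B.submatrix id (fun k => φ (σ k))) k j ^ 2
        = ∑ i ∈ Finset.univ.map ⟨fun k => φ (σ k), hinj⟩, B k i ^ 2 := by
      rw [Finset.sum_map]
      rfl
    rw [h7]
    exact Finset.sum_le_sum_of_subset_of_nonneg (Finset.subset_univ _) fun _ _ _ => sq_nonneg _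

/-- the Gram determinant of integer rows is non-negative (positive semidefinite after casting to ℝ) -/
theorem gram_det_nonneg {E ι : Type} [Fintype E] [DecidableEq E] [Fintype ι] (R : Matrix E ι ℤ) :
    0 ≤ (R * Rᵀ).det := by
  have h : (0 : ℝ) ≤ (((R * Rᵀ).det : ℤ) : ℝ) := by
    rw [Int.cast_det]
    have h3 : ((R * Rᵀ).map fun x => (x : ℝ)) =
        (R.map fun x => (x : ℝ)) * (R.map fun x => (x : ℝ))ᴴ := by
      ext k l
      simp [Matrix.mul_apply]
    rw [h3]
    exact (Matrix.posSemidef_self_mul_conjTranspose _).det_nonneg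
  exact_mod_cast h

end Pool.Agent.NRC
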