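import Pool.Agent.NRC.Defs
import Pool.Agent.NRC.N03Row

/-!
# Module N06Rows: the rows of the pair `(P, Q)` on a box

For `x : Ix K N → ℤ` (two families of coefficients on the box `[0,N)^K`), the scalar product with the
row `e` is the coefficient at `e` of `sp γ b * P - sp γ a * Q`.

HINTS. `coeff_pol`, `pol_eq_zero`, `exists_pol`, `pol_support_lt`: `bx` is injective with range the exponents with all
coordinates `< N`. `row_finite`: the row is zero unless `e - wt γ (bx s)` is in the support of `P` or `Q` for some `s` (finitely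
many `s`). `row_dot`: linearity of `sp`, `sp_monomial`, `coeff_monomial_mul` (in `Defs`). `rho_row`: split the sum over `Ix` with
`Fintype.sum_sum_type`, `cf` is exactly the inner sum (`e - j - wt = (e - wt) - j`); `(-a)^2 = a^2`. `rho_row_le`: from
`rho_row`, injectivity of `s ↦ e - wt γ (bx s)` and `h1`, `h2` for the image set.
-/

open MvPolynomial

namespace Pool.Agent.NRC

/-- the exponent of a point of the box -/
noncomputable def bx {K N : ℕ} (s : Fin K → Fin N) : Fin K →₀ ℕ :=
  Finsupp.equivFunOnFinite.symm fun i => (s i : ℕ)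

@[simp] theorem bx_apply {K N : ℕ} (s : Fin K → Fin N) (i : Fin K) : bx s i = (s i : ℕ) := rfl

theorem bx_injective {K N : ℕ} : Function.Injective (bx : (Fin K → Fin N) → (Fin K →₀ ℕ)) := by
  intro s t h
  funext i
  have := DFunLike.congr_fun h i
  simp only [bx_apply] at this
  exact Fin.ext this

/-- index set of the pairs `(b, a)` of polynomials with exponents in the box -/
abbrev Ix (K N : ℕ) : Type := (Fin K → Fin N) ⊕ (Fin K → Fin N)

/-- the row `e` of the pair `(P, Q)` -/
noncomputable def row {K : ℕ} (γ : Fin K → ℤ) (P Q : LZ) (N : ℕ) (e : ℤ) : Ix K N → ℤ :=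
  Sum.elim (fun s => P.coeff (e - wt γ (bx s))) (fun s => -Q.coeff (e - wt γ (bx s)))

/-- the polynomial with given coefficients on the box -/
noncomputable def pol {K N : ℕ} (x : (Fin K → Fin N) → ℤ) : MvPolynomial (Fin K) ℤ :=
  ∑ s, monomial (bx s) (x s)

private theorem coeff_pol_aux {K N : ℕ} (x : (Fin K → Fin N) → ℤ) (m : Fin K →₀ ℕ) :
    (pol x).coeff m = ∑ s, if bx s = m then x s else 0 := by
  classical
  rw [pol, MvPolynomial.coeff_sum]
  exact Finset.sum_congr rfl fun s _ => by rw [MvPolynomial.coeff_monomial]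

theorem coeff_pol {K N : ℕ} (x : (Fin K → Fin N) → ℤ) (s : Fin K → Fin N) :
    (pol x).coeff (bx s) = x s := by
  rw [coeff_pol_aux, Finset.sum_eq_single s]
  · rw [if_pos rfl]
  · intro t _ hts
    rw [if_neg fun h => hts (bx_injective h)]
  · intro h
    exact absurd (Finset.mem_univ s) h

theorem pol_eq_zero {K N : ℕ} (x : (Fin K → Fin N) → ℤ) : pol x = 0 ↔ x = 0 := by
  constructor
  · intro h
    funext s
    rw [← coeff_pol x s, h]
    simp
  · intro h
    rw [h, pol]
    simp

theorem pol_support_lt {K N : ℕ} (x : (Fin K → Fin N) → ℤ) :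
    ∀ s ∈ (pol x).support, ∀ i, s i < N := by
  intro m hm i
  rw [mem_support_iff, coeff_pol_aux] at hm
  obtain ⟨s, _, hs⟩ := Finset.exists_ne_zero_of_sum_ne_zero hm
  have h1 : bx s = m := by
    by_contra hne
    exact hs (if_neg hne)
  rw [← h1, bx_apply]
  exact (s i).2

/-- every polynomial of degree less than `N` in each variable is of this form -/
theorem exists_pol {K N : ℕ} (A : MvPolynomial (Fin K) ℤ) (hA : ∀ s ∈ A.support, ∀ i, s i < N) :
    pol (fun s : Fin K → Fin N => A.coeff (bx s)) = A := by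
  ext m
  by_cases hm : m ∈ A.support
  · have h1 : bx (fun i => (⟨m i, hA m hm i⟩ : Fin N)) = m := by
      ext i
      rfl
    conv_lhs => rw [← h1]
    rw [coeff_pol, h1]
  · have h2 : A.coeff m = 0 := by
      rw [mem_support_iff, not_not] at hm
      exact hm
    rw [coeff_pol_aux, h2]
    refine Finset.sum_eq_zero fun s _ => ?_
    split_ifs with h
    · rw [h, h2]
    · rfl

theorem row_finite {K : ℕ} (γ : Fin K → ℤ) (P Q : LZ) (N : ℕ) : {e | row γ P Q N e ≠ 0}.Finite := by
  classical
  have hfin : (⋃ s : Fin K → Fin N, ((fun e : ℤ => e + wt γ (bx s)) ''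
      ((P.coeff.support : Set ℤ) ∪ (Q.coeff.support : Set ℤ)))).Finite := by
    refine Set.finite_iUnion fun s => Set.Finite.image _ ?_
    exact (Finset.finite_toSet _).union (Finset.finite_toSet _)
  refine hfin.subset fun e he => ?_
  rw [Set.mem_ofPred_eq] at he
  by_contra hcon
  apply he
  have hz : ∀ s : Fin K → Fin N, P.coeff (e - wt γ (bx s)) = 0 ∧ Q.coeff (e - wt γ (bx s)) = 0 := by
    intro s
    by_contra hne
    apply hcon
    rw [Set.mem_iUnion]
    refine ⟨s, e - wt γ (bx s), ?_, by simp⟩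
    rw [not_and_or] at hne
    rcases hne with h | h
    · exact Or.inl (Finset.mem_coe.2 (Finsupp.mem_support_iff.2 h))
    · exact Or.inr (Finset.mem_coe.2 (Finsupp.mem_support_iff.2 h))
  funext i
  rcases i with s | s
  · simp only [row, Sum.elim_inl, (hz s).1, Pi.zero_apply]
  · simp only [row, Sum.elim_inr, (hz s).2, neg_zero, Pi.zero_apply]

private theorem coeff_sp_pol {K N : ℕ} (γ : Fin K → ℤ) (P : LZ) (x : (Fin K → Fin N) → ℤ) (e : ℤ) :
    (sp γ (pol x) * P).coeff e = ∑ s, x s * P.coeff (e - wt γ (bx s)) := by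
  rw [pol, map_sum, Finset.sum_mul, AddMonoidAlgebra.coeff_sum, Finsupp.finsetSum_apply]
  refine Finset.sum_congr rfl fun s _ => ?_
  rw [sp_monomial, coeff_monomial_mul]

theorem row_dot {K : ℕ} (γ : Fin K → ℤ) (P Q : LZ) (N : ℕ) (e : ℤ) (x : Ix K N → ℤ) :
    ∑ i, row γ P Q N e i * x i =
      (sp γ (pol fun s => x (Sum.inl s)) * P - sp γ (pol fun s => x (Sum.inr s)) * Q).coeff e := by
  rw [AddMonoidAlgebra.coeff_sub, Finsupp.sub_apply, coeff_sp_pol, coeff_sp_pol,
    Fintype.sum_sum_type, sub_eq_add_neg, ← Finset.sum_neg_distrib]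
  congr 1
  · refine Finset.sum_congr rfl fun s _ => ?_
    rw [row, Sum.elim_inl, mul_comm]
  · refine Finset.sum_congr rfl fun s _ => ?_
    rw [row, Sum.elim_inr]
    ring

theorem rho_row {K : ℕ} (γ : Fin K → ℤ) (P Q : LZ) (N : ℕ) (q : Polynomial ℝ) (e : ℤ) :
    rho q (row γ P Q N) e = ∑ s : Fin K → Fin N,
      ((cf q P (e - wt γ (bx s))) ^ 2 + (cf q Q (e - wt γ (bx s))) ^ 2) := by
  rw [rho, Fintype.sum_sum_type, ← Finset.sum_add_distrib]
  refine Finset.sum_congr rfl fun s _ => ?_
  congr 1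
  · rw [cf]
    congr 1
    refine Finset.sum_congr rfl fun j _ => ?_
    rw [row, Sum.elim_inl, sub_right_comm]
  · rw [cf, ← neg_sq, ← Finset.sum_neg_distrib]
    congr 1
    refine Finset.sum_congr rfl fun j _ => ?_
    rw [row, Sum.elim_inr, sub_right_comm]
    push_cast
    ring

theorem rho_row_le {K : ℕ} (γ : Fin K → ℤ) (P Q : LZ) (N : ℕ) (q : Polynomial ℝ) (M : ℝ)
    (hinj : Function.Injective fun s : Fin K → Fin N => wt γ (bx s))
    (h1 : ∀ A : Finset ℤ, ∑ e ∈ A, (cf q P e) ^ 2 ≤ M)
    (h2 : ∀ A : Finset ℤ, ∑ e ∈ A, (cf q Q e) ^ 2 ≤ M) (e : ℤ) :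
    rho q (row γ P Q N) e ≤ 2 * M := by
  classical
  have hinj' : Function.Injective fun s : Fin K → Fin N => e - wt γ (bx s) := by
    intro s t hst
    apply hinj
    simp only at hst ⊢
    linarith
  rw [rho_row, Finset.sum_add_distrib, two_mul]
  have e1 := h1 (Finset.univ.image fun s : Fin K → Fin N => e - wt γ (bx s))
  have e2 := h2 (Finset.univ.image fun s : Fin K → Fin N => e - wt γ (bx s))
  rw [Finset.sum_image fun s _ t _ h => hinj' h] at e1 e2
  exact add_le_add e1 e2

/-- the kernel of the rows is the set of relations -/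
theorem row_kernel {K : ℕ} (γ : Fin K → ℤ) (P Q : LZ) (N : ℕ) (x : Ix K N → ℤ) :
    (∀ e, ∑ i, row γ P Q N e i * x i = 0) ↔
      sp γ (pol fun s => x (Sum.inl s)) * P = sp γ (pol fun s => x (Sum.inr s)) * Q := by
  constructor
  · intro h
    rw [← sub_eq_zero]
    ext e
    rw [← row_dot, h e]
    simp
  · intro h e
    rw [row_dot, h, sub_self]
    simp

end Pool.Agent.NRC
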