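import Mathlib

/-!
# Module U02Box: the Folner property of boxes

PROOF. `Y` is contained in `{y | ∀ i, |y i| ≤ r}` for some `r : ℕ`, so the image is contained in the set of `z` with
`-r ≤ z i < N + r` for all `i` (`Fintype.piFinset`), which has `(N + 2 r) ^ K` elements. `(1 + 2 r / N) ^ K → 1` as `N → ∞`.
(`K = 0` is allowed.)
-/

namespace Pool.Agent.NRC

theorem exists_box {K : ℕ} (Y : Finset (Fin K → ℤ)) : ∃ N : ℕ, 1 ≤ N ∧
    4 * (((Finset.univ : Finset (Fin K → Fin N)) ×ˢ Y).image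
      (fun p i => ((p.1 i : ℕ) : ℤ) + p.2 i)).card ≤ 6 * N ^ K := by
  classical
  set r : ℕ := ∑ y ∈ Y, ∑ i, (y i).natAbs with hr
  have hyr : ∀ y ∈ Y, ∀ i, (y i).natAbs ≤ r := by
    intro y hy i
    have h1 : (y i).natAbs ≤ ∑ i, (y i).natAbs :=
      Finset.single_le_sum (f := fun i => (y i).natAbs) (fun _ _ => Nat.zero_le _) (Finset.mem_univ i)
    have h2 : ∑ i, (y i).natAbs ≤ ∑ y ∈ Y, ∑ i, (y i).natAbs :=
      Finset.single_le_sum (f := fun y : Fin K → ℤ => ∑ i, (y i).natAbs)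
        (fun _ _ => Nat.zero_le _) hy
    exact h1.trans h2
  have hlim : Filter.Tendsto (fun N : ℕ => (1 + (2 * (r : ℝ)) / (N : ℝ)) ^ K) Filter.atTop
      (nhds ((1 + 0) ^ K)) :=
    ((tendsto_const_div_atTop_nhds_zero_nat (2 * (r : ℝ))).const_add 1).pow K
  rw [add_zero, one_pow] at hlim
  obtain ⟨N, hN1, hN2⟩ := ((Filter.eventually_ge_atTop 1).and
    (hlim.eventually (gt_mem_nhds (show (1 : ℝ) < 3 / 2 by norm_num)))).exists
  refine ⟨N, hN1, ?_⟩
  have hsub : ((Finset.univ : Finset (Fin K → Fin N)) ×ˢ Y).image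
      (fun p i => ((p.1 i : ℕ) : ℤ) + p.2 i) ⊆
      Fintype.piFinset (fun _ : Fin K => Finset.Ico (-(r : ℤ)) (N + r)) := by
    intro z hz
    obtain ⟨⟨a, y⟩, hp, rfl⟩ := Finset.mem_image.mp hz
    rw [Finset.mem_product] at hp
    rw [Fintype.mem_piFinset]
    intro i
    have h1 := hyr y hp.2 i
    have h2 := (a i).isLt
    rw [Finset.mem_Ico]
    show -(r : ℤ) ≤ ((a i : ℕ) : ℤ) + y i ∧ ((a i : ℕ) : ℤ) + y i < N + r
    omega
  have hcard : (Fintype.piFinset (fun _ : Fin K => Finset.Ico (-(r : ℤ)) (N + r))).card =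
      (N + 2 * r) ^ K := by
    rw [Fintype.card_piFinset, Finset.prod_const, Int.card_Ico, Finset.card_univ, Fintype.card_fin]
    congr 1
    omega
  have h3 := Finset.card_le_card hsub
  rw [hcard] at h3
  have hNpos : (0 : ℝ) < N := by exact_mod_cast hN1
  have h4 : ((N + 2 * r : ℕ) : ℝ) ^ K ≤ 3 / 2 * (N : ℝ) ^ K := by
    have h5 : ((N + 2 * r : ℕ) : ℝ) = (1 + (2 * (r : ℝ)) / (N : ℝ)) * N := by
      push_cast
      field_simp
    rw [h5, mul_pow]
    exact mul_le_mul_of_nonneg_right hN2.le (pow_nonneg hNpos.le K)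
  have h6 : (4 : ℝ) * ((N + 2 * r : ℕ) : ℝ) ^ K ≤ 6 * (N : ℝ) ^ K := by linarith
  have h7 : 4 * (N + 2 * r) ^ K ≤ 6 * N ^ K := by exact_mod_cast h6
  exact (Nat.mul_le_mul_left 4 h3).trans h7

end Pool.Agent.NRC
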