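import Pool.Agent.NRC.N04Ker

/-!
# Module U03Small: small kernel vector when most of the rows are short

PROOF. `E` from `exists_rows`, `c = card ι ≥ 1`. We may assume `δ ≤ 1` (`δ ≤ δ Λ^3 < 1` if `δ ≥ 0`, `Λ ≥ 1`). `card E ≤ c`
(`card_le_of_gram`). If `card E = c`: `1 ≤ det (RE REᵀ)` (`gram_det_nonneg`, non-zero integer)
`≤ ∏_E rho ≤ Λ ^ card (E ∩ Z) * δ ^ card (E \ Z)`, `4 card (E ∩ Z) ≤ 3 c`, `4 card (E \ Z) ≥ c`, so, taking fourth powers,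
`1 ≤ Λ^(3c) δ^c = (δ Λ^3)^c < 1`: contradiction. So `card E < c` and `exists_kernel` with `B = ∏_E rho ≤ Λ ^ card E ≤ Λ ^ c`.
-/

namespace Pool.Agent.NRC

private theorem U03Small_prod (s : Finset ℤ) (f : ℤ → ℝ) (n : ℝ) (h0 : ∀ e ∈ s, 0 ≤ f e)
    (h : ∀ e ∈ s, f e ≤ n) : ∏ e ∈ s, f e ≤ n ^ s.card := by
  have h1 := Finset.prod_le_prod h0 h
  rwa [Finset.prod_const] at h1

theorem small_kernel {ι : Type} [Fintype ι] [DecidableEq ι] [Nonempty ι] (R : ℤ → ι → ℤ)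
    (hR : {e | R e ≠ 0}.Finite) (q : Polynomial ℝ) (hq : q.coeff 0 = 1) {Λ δ : ℝ} (hΛ : 1 ≤ Λ)
    (hδ : 0 ≤ δ) (hΛδ : δ * Λ ^ 3 < 1) (h1 : ∀ e, rho q R e ≤ Λ) (Z : Finset ℤ)
    (hZ : 4 * Z.card ≤ 3 * Fintype.card ι) (h2 : ∀ e, e ∉ Z → rho q R e ≤ δ) :
    ∃ x : ι → ℤ, x ≠ 0 ∧ (∀ e, ∑ i, R e i * x i = 0) ∧
      ∀ i, ((x i : ℤ) : ℝ) ^ 2 ≤ Λ ^ Fintype.card ι := by
  obtain ⟨E, hk, hd, hg, hm⟩ := exists_rows R hR q hq
  have hc0 : 0 < Fintype.card ι := Fintype.card_pos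
  have hEc : E.card ≤ Fintype.card ι := card_le_of_gram R E hd
  have hprod : ∏ e ∈ E, rho q R e ≤ Λ ^ E.card :=
    U03Small_prod E (fun e => rho q R e) Λ (fun e _ => rho_nonneg q R e)
      (fun e _ => h1 e)
  have hpc : ∏ e ∈ E, rho q R e ≤ Λ ^ Fintype.card ι :=
    hprod.trans (pow_le_pow_right₀ hΛ hEc)
  rcases lt_or_eq_of_le hEc with hlt | heq
  · exact exists_kernel R E _ hk hd (fun φ hφ => (hm φ hφ).trans hpc) hlt
  · exfalso
    have hdet : (1 : ℝ) ≤ (((RE R E * (RE R E).transpose).det : ℤ) : ℝ) := by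
      have h0 := gram_det_nonneg (RE R E)
      have h3 : 1 ≤ (RE R E * (RE R E).transpose).det :=
        lt_of_le_of_ne h0 (Ne.symm hd)
      exact_mod_cast h3
    have hsplit := Finset.prod_filter_mul_prod_filter_not E (fun e => e ∈ Z)
      (fun e => rho q R e)
    have hz : ∏ e ∈ E with e ∈ Z, rho q R e ≤ Λ ^ (E.filter fun e => e ∈ Z).card :=
      U03Small_prod _ _ _ (fun e _ => rho_nonneg q R e) (fun e _ => h1 e)
    have hw : ∏ e ∈ E with e ∉ Z, rho q R e ≤ δ ^ (E.filter fun e => e ∉ Z).card :=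
      U03Small_prod _ _ _ (fun e _ => rho_nonneg q R e)
        (fun e he => h2 e (Finset.mem_filter.1 he).2)
    have hcard := Finset.card_filter_add_card_filter_not (s := E) (fun e => e ∈ Z)
    have hzZ : (E.filter fun e => e ∈ Z).card ≤ Z.card :=
      Finset.card_le_card fun e he => (Finset.mem_filter.1 he).2
    set z := (E.filter fun e => e ∈ Z).card with hz_def
    set w := (E.filter fun e => e ∉ Z).card with hw_def
    have hΛ0 : 0 ≤ Λ := by linarith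
    have hδ1 : δ ≤ 1 := by
      have h3 : (1 : ℝ) ≤ Λ ^ 3 := one_le_pow₀ hΛ
      nlinarith
    have h4 : (1 : ℝ) ≤ Λ ^ z * δ ^ w := by
      refine (hdet.trans hg).trans ?_
      rw [← hsplit]
      exact mul_le_mul hz hw (Finset.prod_nonneg fun e _ => rho_nonneg q R e)
        (pow_nonneg hΛ0 _)
    have h5 : (1 : ℝ) ≤ (Λ ^ z * δ ^ w) ^ 4 := one_le_pow₀ h4
    have h6 : (Λ ^ z * δ ^ w) ^ 4 = Λ ^ (4 * z) * δ ^ (4 * w) := by
      rw [mul_pow, ← pow_mul, ← pow_mul, mul_comm z, mul_comm w]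
    have h7 : Λ ^ (4 * z) ≤ Λ ^ (3 * Fintype.card ι) := pow_le_pow_right₀ hΛ (by omega)
    have h8 : δ ^ (4 * w) ≤ δ ^ Fintype.card ι :=
      pow_le_pow_of_le_one hδ hδ1 (by omega)
    have h9 : Λ ^ (4 * z) * δ ^ (4 * w) ≤ Λ ^ (3 * Fintype.card ι) * δ ^ Fintype.card ι :=
      mul_le_mul h7 h8 (pow_nonneg hδ _) (pow_nonneg hΛ0 _)
    have h10 : Λ ^ (3 * Fintype.card ι) * δ ^ Fintype.card ι = (δ * Λ ^ 3) ^ Fintype.card ι := by
      rw [mul_pow, ← pow_mul, mul_comm]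
    have h11 : (δ * Λ ^ 3) ^ Fintype.card ι < 1 :=
      pow_lt_one₀ (mul_nonneg hδ (pow_nonneg hΛ0 _)) hΛδ hc0.ne'
    linarith

end Pool.Agent.NRC
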