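import Pool.Agent.NRC.U01Sel
import Pool.Agent.NRC.U02Box
import Pool.Agent.NRC.U03Small
import Pool.Agent.NRC.N06Rows

/-!
# Module U04ThmB: Theorem B (small sparse relations along an ultrafilter)

PROOF. For `l`-most `n` choose `q_n` from `Bd (P n) (Q n) M`; `m n e = (cf q_n (P n) e)² + (cf q_n (Q n) e)²` for these `n`, `0` for
the others. `Λ = max 1 (2 M)`, `ε > 0` with `ε Λ³ < 1`. `exists_selection` gives `K, γ, Y`. `exists_box` gives `N`. Apply (b) of the
selection to `ι = Fin K → Fin N`, `τ s i = (s i : ℤ)`: for `l`-most `n`: for `e ∉ Z_n`, `Z_n` = image of `univ ×ˢ Y` under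
`(s, y) ↦ dt (τ s + y) (γ n)`, `∑_s m n (e - dt (τ s) (γ n)) ≤ ε`. `card Z_n ≤ (3/2) N^K`, so `4 card Z_n ≤ 3 card (Ix K N)`,
`card (Ix K N) = 2 N^K`. `rho q_n (row (γ n) (P n) (Q n) N) e = ∑_s m n (e - wt ..)` (`rho_row`, `wt_eq_dt`), `≤ Λ` always, for
`l`-most `n` (the weight is injective on the box: `Free.injOn`). `small_kernel` gives for `l`-most `n` an integer vector
`x_n : Ix K N → ℤ`, `x_n ≠ 0`, `x_n i ^ 2 ≤ Λ ^ (2 N^K)`, in the kernel of all rows, i.e. (`row_kernel`)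
`sp γ_n b_n * P n = sp γ_n a_n * Q n`, `b_n = pol (x_n ∘ inl)`, `a_n = pol (x_n ∘ inr)`. The vectors `x_n` lie in a finite set, so
one `x` occurs for `l`-most `n` (`Ultrafilter.eventually_exists_mem_iff` or `Ultrafilter.finite_biUnion_mem_iff`).
`a, b` for this `x`: not both zero; if `a = 0` then `sp γ_n b * P n = 0` for `l`-most `n`, so `sp γ_n b = 0`, `b = 0` (`Free.eq_zero`,
`l.NeBot`, `LZ` is a domain); likewise `b = 0 → a = 0`. So `a, b ≠ 0`. `a = g A`, `b = g B`, `IsRelPrime A B`, `g ≠ 0`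
(`exists_reduced_factors'` / `UniqueFactorizationMonoid.exists_reduced_factors`), and
`sp γ_n g * (sp γ_n B * P n) = sp γ_n g * (sp γ_n A * Q n)` with `sp γ_n g ≠ 0` for `l`-most `n` (`Free.sp_ne_zero`): cancel.
-/

open MvPolynomial Filter Topology

namespace Pool.Agent.NRC

theorem thmB (l : Ultrafilter ℕ) {P Q : ℕ → LZ} (hP : ∀ n, P n ≠ 0) (hQ : ∀ n, Q n ≠ 0) {M : ℝ}
    (hM : ∀ᶠ n in (l : Filter ℕ), Bd (P n) (Q n) M) :
    ∃ (K : ℕ) (γ : ℕ → Fin K → ℤ) (A B : MvPolynomial (Fin K) ℤ), Free (l : Filter ℕ) γ ∧ A ≠ 0 ∧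
      B ≠ 0 ∧ IsRelPrime A B ∧ ∀ᶠ n in (l : Filter ℕ), sp (γ n) A * Q n = sp (γ n) B * P n := by
  classical
  have hq : ∀ n, ∃ q : Polynomial ℝ, Bd (P n) (Q n) M → (q.coeff 0 = 1 ∧
      (∀ A : Finset ℤ, ∑ e ∈ A, (cf q (P n) e) ^ 2 ≤ M) ∧
      ∀ A : Finset ℤ, ∑ e ∈ A, (cf q (Q n) e) ^ 2 ≤ M) := by
    intro n
    by_cases h : Bd (P n) (Q n) M
    · obtain ⟨q, h1⟩ := h
      exact ⟨q, fun _ => h1⟩
    · exact ⟨0, fun h' => absurd h' h⟩
  choose q hq using hq
  let m : ℕ → ℤ → ℝ := fun n e =>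
    if Bd (P n) (Q n) M then (cf (q n) (P n) e) ^ 2 + (cf (q n) (Q n) e) ^ 2 else 0
  have h0 : ∀ n e, 0 ≤ m n e := by
    intro n e
    by_cases h : Bd (P n) (Q n) M
    · have h1 : m n e = (cf (q n) (P n) e) ^ 2 + (cf (q n) (Q n) e) ^ 2 := if_pos h
      rw [h1]
      positivity
    · have h1 : m n e = 0 := if_neg h
      rw [h1]
  set Λ : ℝ := max 1 (2 * M) with hΛdef
  have hΛ1 : 1 ≤ Λ := le_max_left _ _
  have hΛM : 2 * M ≤ Λ := le_max_right _ _
  have hΛ : ∀ (n : ℕ) (A : Finset ℤ), ∑ e ∈ A, m n e ≤ Λ := by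
    intro n A
    by_cases h : Bd (P n) (Q n) M
    · obtain ⟨-, h1, h2⟩ := hq n h
      have h3 : ∑ e ∈ A, m n e =
          ∑ e ∈ A, (cf (q n) (P n) e) ^ 2 + ∑ e ∈ A, (cf (q n) (Q n) e) ^ 2 := by
        rw [← Finset.sum_add_distrib]
        exact Finset.sum_congr rfl fun e _ => if_pos h
      rw [h3]
      linarith [h1 A, h2 A]
    · have h3 : ∑ e ∈ A, m n e = 0 := Finset.sum_eq_zero fun e _ => if_neg h
      rw [h3]
      linarith
  set ε : ℝ := 1 / (2 * Λ ^ 3) with hεdef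
  have hΛ3 : 0 < Λ ^ 3 := by positivity
  have hε : 0 < ε := by positivity
  have hεΛ : ε * Λ ^ 3 < 1 := by
    rw [hεdef, div_mul_eq_mul_div, div_lt_one (by positivity)]
    linarith
  obtain ⟨K, γ, Y, hfree, hsel⟩ := exists_selection l m h0 hΛ hε
  obtain ⟨N, hN1, hN⟩ := exists_box Y
  let τ : (Fin K → Fin N) → Fin K → ℤ := fun s i => ((s i : ℕ) : ℤ)
  have hτ : Function.Injective τ := by
    intro s t h
    funext i
    have h1 := congrFun h i
    have h2 : ((s i : ℕ) : ℤ) = ((t i : ℕ) : ℤ) := h1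
    exact Fin.ext (by exact_mod_cast h2)
  have hev := hsel (Fin K → Fin N) τ hτ
  have hinj := hfree.injOn (Finset.univ.image (bx : (Fin K → Fin N) → (Fin K →₀ ℕ)))
  have : Nonempty (Fin N) := ⟨⟨0, hN1⟩⟩
  have : Nonempty (Ix K N) := ⟨Sum.inl fun _ => ⟨0, hN1⟩⟩
  have hcard : Fintype.card (Ix K N) = 2 * N ^ K := by
    rw [Fintype.card_sum, Fintype.card_fun, Fintype.card_fin, Fintype.card_fin]
    ring
  set L : ℝ := Λ ^ Fintype.card (Ix K N) with hL
  set F : Finset (Ix K N → ℤ) := Fintype.piFinset fun _ => Finset.Icc (-⌈L⌉) ⌈L⌉ with hF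
  have hker : ∀ᶠ n in (l : Filter ℕ), ∃ x ∈ (F : Set (Ix K N → ℤ)), x ≠ 0 ∧
      sp (γ n) (pol fun s => x (Sum.inl s)) * P n =
        sp (γ n) (pol fun s => x (Sum.inr s)) * Q n := by
    filter_upwards [hM, hev, hinj] with n hn hsn hin
    obtain ⟨hq0, hq1, hq2⟩ := hq n hn
    have hinj' : Function.Injective fun s : Fin K → Fin N => wt (γ n) (bx s) := by
      intro s t hst
      exact bx_injective (hin (by simp) (by simp) hst)
    obtain ⟨x, hx0, hx1, hx2⟩ := small_kernel (row (γ n) (P n) (Q n) N)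
      (row_finite (γ n) (P n) (Q n) N) (q n) hq0 hΛ1 hε.le hεΛ
      (fun e => (rho_row_le (γ n) (P n) (Q n) N (q n) M hinj' hq1 hq2 e).trans hΛM)
      (((Finset.univ : Finset (Fin K → Fin N)) ×ˢ Y).image fun p => dt (τ p.1 + p.2) (γ n))
      (by
        have h1 : (((Finset.univ : Finset (Fin K → Fin N)) ×ˢ Y).image
            fun p => dt (τ p.1 + p.2) (γ n)) =
            ((((Finset.univ : Finset (Fin K → Fin N)) ×ˢ Y).image
              (fun p i => ((p.1 i : ℕ) : ℤ) + p.2 i)).image fun z => dt z (γ n)) := by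
          rw [Finset.image_image]
          rfl
        rw [h1, hcard]
        have h2 := Finset.card_image_le (f := fun z => dt z (γ n))
          (s := ((Finset.univ : Finset (Fin K → Fin N)) ×ˢ Y).image
              (fun p i => ((p.1 i : ℕ) : ℤ) + p.2 i))
        omega)
      (by
        intro e he
        rw [rho_row]
        have h3 : ∀ s, ∀ y ∈ Y, e ≠ dt (τ s + y) (γ n) := by
          intro s y hy hcon
          exact he (Finset.mem_image.2 ⟨(s, y), Finset.mem_product.2 ⟨Finset.mem_univ _, hy⟩,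
            hcon.symm⟩)
        refine le_trans (le_of_eq ?_) (hsn e h3)
        refine Finset.sum_congr rfl fun s _ => ?_
        exact (if_pos hn).symm)
    refine ⟨x, ?_, hx0, (row_kernel (γ n) (P n) (Q n) N x).1 hx1⟩
    rw [Finset.mem_coe, hF, Fintype.mem_piFinset]
    intro i
    have h4 := hx2 i
    have h5 : ((|x i| : ℤ) : ℝ) ≤ L := by
      refine le_trans ?_ h4
      have h6 : |x i| ≤ (x i) ^ 2 := by
        rcases eq_or_ne (x i) 0 with h | h
        · rw [h]; simp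
        · have h7 : 1 ≤ |x i| := Int.one_le_abs h
          rw [← sq_abs]
          nlinarith
      exact_mod_cast h6
    have h8 : |x i| ≤ ⌈L⌉ := by
      have := Int.le_ceil L
      exact_mod_cast h5.trans this
    rw [Finset.mem_Icc]
    exact abs_le.1 h8
  obtain ⟨x, -, hx⟩ := (Ultrafilter.eventually_exists_mem_iff F.finite_toSet).1 hker
  have hx0 : x ≠ 0 := (hx.exists).choose_spec.1
  have hrel : ∀ᶠ n in (l : Filter ℕ), sp (γ n) (pol fun s => x (Sum.inl s)) * P n =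
        sp (γ n) (pol fun s => x (Sum.inr s)) * Q n := hx.mono fun n hn => hn.2
  set b : MvPolynomial (Fin K) ℤ := pol fun s => x (Sum.inl s) with hb
  set a : MvPolynomial (Fin K) ℤ := pol fun s => x (Sum.inr s) with ha
  have hab : ¬ (a = 0 ∧ b = 0) := by
    rintro ⟨h1, h2⟩
    apply hx0
    rw [ha, pol_eq_zero] at h1
    rw [hb, pol_eq_zero] at h2
    funext i
    rcases i with s | s
    · exact congrFun h2 s
    · exact congrFun h1 s
  have ha0 : a ≠ 0 := by
    intro h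
    refine hab ⟨h, hfree.eq_zero (Filter.Eventually.frequently ?_)⟩
    filter_upwards [hrel] with n hn
    rw [h, map_zero, zero_mul] at hn
    exact (mul_eq_zero.1 hn).resolve_right (hP n)
  have hb0 : b ≠ 0 := by
    intro h
    refine hab ⟨hfree.eq_zero (Filter.Eventually.frequently ?_), h⟩
    filter_upwards [hrel] with n hn
    rw [h, map_zero, zero_mul] at hn
    exact (mul_eq_zero.1 hn.symm).resolve_right (hQ n)
  obtain ⟨A, B, g, hAB, hgA, hgB⟩ := UniqueFactorizationMonoid.exists_reduced_factors a ha0 b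
  have hg0 : g ≠ 0 := by
    rintro rfl
    exact ha0 (by rw [← hgA, zero_mul])
  refine ⟨K, γ, A, B, hfree, ?_, ?_, hAB, ?_⟩
  · rintro rfl
    exact ha0 (by rw [← hgA, mul_zero])
  · rintro rfl
    exact hb0 (by rw [← hgB, mul_zero])
  · filter_upwards [hrel, hfree.sp_ne_zero hg0] with n hn hgn
    rw [← hgA, ← hgB, map_mul, map_mul, mul_assoc, mul_assoc] at hn
    exact (mul_left_cancel₀ hgn hn).symm

end Pool.Agent.NRC
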