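import Pool.Agent.NRC.N12ThmD
import Pool.Agent.NRC.U04ThmB
import Pool.Agent.NRC.O03Bd
import Pool.Agent.NRC.L02Lim
import Pool.Agent.NRC.C01Cop

/-!
# Module C02One: the one-variable theorem

PROOF of `log_two_add_le_LL`: `2 ‖a‖ ‖b‖ ≤ ‖a‖² + ‖b‖²`, a.e. `ev` non-zero, `integrable_LL`, `integrable_log_ev`.
PROOF of `one_var`. `Bd (P n) (Q n) (2 exp (2 ml (P n)))` (`bd_of_norm_eq`, `δ = 1`), `ml (P n) ≤ μ + 1` eventually, so `thmB`
applies with `M = 2 exp (2 (μ + 1))`: `K, γ, A, B`. Eventually `sp A, sp B ≠ 0` and `Pr.ml_le`: `ml (P n) ≤ ml (sp A)`,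
`ml (P n) ≤ ml (sp B)`; limits (`tendsto_ml`, `le_of_tendsto_of_tendsto`): `μ ≤ mm A`, `μ ≤ mm B`. For every `δ > 0`:
`Bd (P n) (Q n) ((1 + δ) exp (2 (μ + δ)))` eventually, so `thmD`: `LL A B ≤ log 2 + log (1 + δ) + 2 (μ + δ)`; `δ → 0`:
`LL A B ≤ log 2 + 2 μ`. With `log_two_add_le_LL`: `mm A + mm B ≤ 2 μ`. So `mm A = μ = mm B`.
Symmetry: apply `invert` to `sp A * Q n = sp B * P n` and multiply: `sp A * invert (sp A) * (Q n * invert (Q n)) =
sp B * invert (sp B) * (P n * invert (P n))`, cancel: `sp A * invert (sp A) = sp B * invert (sp B)`.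
-/

open MvPolynomial LaurentPolynomial MeasureTheory Filter Topology Pool.Agent.H27Mahler Pool.Agent.SpCl

namespace Pool.Agent.NRC

theorem log_two_add_le_LL {σ : Type} [Fintype σ] {A B : MvPolynomial σ ℤ} (hA : A ≠ 0)
    (hB : B ≠ 0) : Real.log 2 + mm A + mm B ≤ LL A B := by
  have hA1 : Integrable fun t : Tor σ => Real.log 2 + Real.log ‖ev t A‖ :=
    (integrable_const _).add (integrable_log_ev hA)
  have hA' : Integrable fun t : Tor σ => Real.log 2 + Real.log ‖ev t A‖ + Real.log ‖ev t B‖ :=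
    hA1.add (integrable_log_ev hB)
  have h1 : Real.log 2 + mm A + mm B =
      ∫ t : Tor σ, (Real.log 2 + Real.log ‖ev t A‖ + Real.log ‖ev t B‖) := by
    rw [integral_add hA1 (integrable_log_ev hB), integral_add (integrable_const _) (integrable_log_ev hA), integral_const]
    simp [mm]
  rw [h1, LL]
  refine integral_mono_ae hA' (integrable_LL hA B) ?_
  filter_upwards [ae_ev_ne_zero hA, ae_ev_ne_zero hB] with t h2 h3
  have h2' : 0 < ‖ev t A‖ := norm_pos_iff.mpr h2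
  have h3' : 0 < ‖ev t B‖ := norm_pos_iff.mpr h3
  show Real.log 2 + Real.log ‖ev t A‖ + Real.log ‖ev t B‖ ≤ Real.log (‖ev t A‖ ^ 2 + ‖ev t B‖ ^ 2)
  rw [← Real.log_mul (by norm_num) h2'.ne', ← Real.log_mul (by positivity) h3'.ne']
  exact Real.log_le_log (by positivity) (by nlinarith [sq_nonneg (‖ev t A‖ - ‖ev t B‖)])

theorem one_var (l : Ultrafilter ℕ) {P Q : ℕ → LZ} (h : ∀ n, Pr (P n) (Q n)) {μ : ℝ}
    (hμ : Tendsto (fun n => ml (P n)) (l : Filter ℕ) (𝓝 μ)) :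
    ∃ (K : ℕ) (γ : ℕ → Fin K → ℤ) (A B : MvPolynomial (Fin K) ℤ), Free (l : Filter ℕ) γ ∧ A ≠ 0 ∧
      B ≠ 0 ∧ IsRelPrime A B ∧ mm A = μ ∧
      (∀ᶠ n in (l : Filter ℕ), sp (γ n) A * Q n = sp (γ n) B * P n) ∧
      ∀ᶠ n in (l : Filter ℕ), sp (γ n) A * invert (sp (γ n) A) = sp (γ n) B * invert (sp (γ n) B) := by
  have hP : ∀ n, P n ≠ 0 := fun n => (h n).1
  have hQ : ∀ n, Q n ≠ 0 := fun n => (h n).2.1
  have hBd : ∀ δ : ℝ, 0 < δ →
      ∀ᶠ n in (l : Filter ℕ), Bd (P n) (Q n) ((1 + δ) * Real.exp (2 * (μ + δ))) := by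
    intro δ hδ
    filter_upwards [hμ.eventually_lt_const (by linarith : μ < μ + δ)] with n hn
    refine (bd_of_norm_eq (hP n) (mul_invert_eq_iff.mp (h n).2.2.1) hδ).mono ?_
    refine mul_le_mul_of_nonneg_left (Real.exp_le_exp.mpr ?_) (by linarith)
    linarith
  obtain ⟨K, γ, A, B, hγ, hA, hB, hAB, hrel⟩ := thmB l hP hQ (hBd 1 one_pos)
  have hml : ∀ᶠ n in (l : Filter ℕ),
      ml (P n) ≤ ml (sp (γ n) A) ∧ ml (P n) ≤ ml (sp (γ n) B) := by
    filter_upwards [hrel, hγ.sp_ne_zero hA] with n h1 h2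
    exact (h n).ml_le h2 h1
  have hmA : μ ≤ mm A :=
    le_of_tendsto_of_tendsto hμ (tendsto_ml hγ hA) (hml.mono fun n hn => hn.1)
  have hmB : μ ≤ mm B :=
    le_of_tendsto_of_tendsto hμ (tendsto_ml hγ hB) (hml.mono fun n hn => hn.2)
  have hLL : LL A B ≤ Real.log 2 + 2 * μ := by
    refine le_of_forall_pos_le_add fun ε hε => ?_
    have hδ : 0 < ε / 3 := by linarith
    have h1 := thmD hγ hP hQ hA hB hAB hrel (hBd (ε / 3) hδ)
    have h2 : Real.log (2 * ((1 + ε / 3) * Real.exp (2 * (μ + ε / 3)))) =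
        Real.log 2 + (Real.log (1 + ε / 3) + 2 * (μ + ε / 3)) := by
      rw [Real.log_mul (by norm_num) (by positivity), Real.log_mul (by positivity)
        (Real.exp_pos _).ne', Real.log_exp]
    have h3 : Real.log (1 + ε / 3) ≤ ε / 3 := by
      have := Real.log_le_sub_one_of_pos (by linarith : 0 < 1 + ε / 3)
      linarith
    rw [h2] at h1
    linarith
  have hlog := log_two_add_le_LL hA hB
  refine ⟨K, γ, A, B, hγ, hA, hB, hAB, by linarith, hrel, ?_⟩
  filter_upwards [hrel] with n hn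
  have hQ' : invert (Q n) ≠ 0 := by
    intro h0
    exact hQ n ((map_eq_zero_iff _ invert.injective).mp h0)
  have h1 : invert (sp (γ n) A) * invert (Q n) = invert (sp (γ n) B) * invert (P n) := by
    rw [← map_mul, ← map_mul, hn]
  refine mul_right_cancel₀ (mul_ne_zero (hQ n) hQ') ?_
  calc sp (γ n) A * invert (sp (γ n) A) * (Q n * invert (Q n))
      = (sp (γ n) A * Q n) * (invert (sp (γ n) A) * invert (Q n)) := by ring
    _ = (sp (γ n) B * P n) * (invert (sp (γ n) B) * invert (P n)) := by rw [hn, h1]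
    _ = sp (γ n) B * invert (sp (γ n) B) * (P n * invert (P n)) := by ring
    _ = sp (γ n) B * invert (sp (γ n) B) * (Q n * invert (Q n)) := by rw [(h n).2.2.1]

end Pool.Agent.NRC
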