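import Pool.Agent.NRC.C03Rev

/-!
# Module C04Nr: one half of a relatively prime symmetric pair is nonreciprocal

PROOF of `nr_of_pair`. Let `P ∣ A` be irreducible (so prime: UFD), `mm P ≠ 0`, and suppose `Recip P` with exponent `e`, sign `u`:
`rev e P = C u * P` (from the definition of `Recip`, `coeff_rev`). By `h`, `P ∣ monomial (degs A) 1 * (B * rev (degs B) B)`, so `P` divides
the monomial (then `mm P = 0` by `mm_of_dvd_monomial`: contradiction), or `B` (then `P ∣ A`, `P ∣ B` contradicts `IsRelPrime A B`), or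
`rev (degs B) B = P * G`. In the last case reverse: choose `d` with `support G ≤ d` and `degs B ≤ e + d`; then
`rev (e + d) (P * G) = rev e P * rev d G = C u * P * rev d G` and `rev (e + d) (rev (degs B) B) = monomial (e + d - degs B) 1 * B`
(`rev_add`, `rev_rev`, `support_rev_le`), so `P ∣ monomial _ 1 * B`, so `P ∣ monomial` or `P ∣ B`: contradiction as before.
PROOF of `nr_C_mul`: a prime factor of `C c * A` divides `C c` (then it is constant: `totalDegree = 0`) or `A`.
-/

open MvPolynomial MeasureTheory Pool.Agent.H27Mahler Pool.Agent.SpCl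

namespace Pool.Agent.NRC

/-- no non-constant irreducible factor of measure greater than one is reciprocal -/
def Nr {σ : Type} [Fintype σ] (F : MvPolynomial σ ℤ) : Prop :=
  ∀ P : MvPolynomial σ ℤ, Irreducible P → P ∣ F → P.totalDegree ≠ 0 → mm P ≠ 0 → ¬ Recip P

private theorem C04_rev_eq {σ : Type} {e : σ →₀ ℕ} {u : ℤ} {P : MvPolynomial σ ℤ}
    (he : ∀ s ∈ P.support, s ≤ e) (h : ∀ s s' : σ →₀ ℕ, s + s' = e → coeff s P = u * coeff s' P) :
    rev e P = C u * P := by
  ext s
  rw [coeff_C_mul]
  by_cases hs : s ≤ e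
  · rw [coeff_rev he (add_tsub_cancel_of_le hs)]
    exact h _ _ (tsub_add_cancel_of_le hs)
  · have h1 : coeff s (rev e P) = 0 := by
      rw [← notMem_support_iff]
      exact fun hc => hs (support_rev_le s hc)
    have h2 : coeff s P = 0 := by
      rw [← notMem_support_iff]
      exact fun hc => hs (he s hc)
    rw [h1, h2, mul_zero]

theorem nr_of_pair {σ : Type} [Fintype σ] {A B : MvPolynomial σ ℤ} (hA : A ≠ 0) (hB : B ≠ 0)
    (hAB : IsRelPrime A B)
    (h : monomial (degs B) 1 * (A * rev (degs A) A) = monomial (degs A) 1 * (B * rev (degs B) B)) :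
    Nr A := by
  rintro P hP hPA - hmm ⟨e, u, -, he, hrec⟩
  have hPp : Prime P := hP.prime
  have hPB : ¬ P ∣ B := fun hc => hP.not_isUnit (hAB hPA hc)
  have hPm : ∀ c : σ →₀ ℕ, ¬ P ∣ monomial c 1 := fun c hc => hmm (mm_of_dvd_monomial hP hc)
  have h1 : P ∣ monomial (degs A) 1 * (B * rev (degs B) B) := by
    rw [← h]
    exact (hPA.mul_right _).mul_left _
  rcases hPp.dvd_or_dvd h1 with h2 | h2
  · exact hPm _ h2
  rcases hPp.dvd_or_dvd h2 with h3 | h3
  · exact hPB h3
  obtain ⟨G, hG⟩ := h3
  have hGs : ∀ s ∈ G.support, s ≤ degs G + degs B := fun s hs =>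
    (le_degs s hs).trans le_self_add
  have h4 : rev (e + (degs G + degs B)) (P * G) = C u * P * rev (degs G + degs B) G := by
    rw [rev_mul he hGs, C04_rev_eq he hrec]
  have h5 : rev (e + (degs G + degs B)) (P * G) = monomial (e + degs G) 1 * B := by
    rw [← hG, show e + (degs G + degs B) = degs B + (e + degs G) by abel,
      rev_add support_rev_le, rev_rev le_degs]
  have h6 : P ∣ monomial (e + degs G) 1 * B := by
    rw [← h5, h4]
    exact (Dvd.intro_left _ rfl).mul_right _
  rcases hPp.dvd_or_dvd h6 with h7 | h7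
  · exact hPm _ h7
  · exact hPB h7

theorem nr_C_mul {σ : Type} [Fintype σ] {c : ℤ} (hc : c ≠ 0) {A : MvPolynomial σ ℤ} (hA : Nr A) :
    Nr (C c * A) := by
  intro P hP hPA hdeg hmm
  rcases hP.prime.dvd_or_dvd hPA with h1 | h1
  · obtain ⟨Q, hQ⟩ := h1
    exfalso
    have hcne : (C c : MvPolynomial σ ℤ) ≠ 0 := by
      rw [Ne, C_eq_zero]
      exact hc
    have hQ0 : Q ≠ 0 := by
      rintro rfl
      exact hcne (by rw [hQ, mul_zero])
    have h2 := totalDegree_mul_of_isDomain hP.ne_zero hQ0
    rw [← hQ, totalDegree_C] at h2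
    omega
  · exact hA P hP h1 hdeg hmm

end Pool.Agent.NRC
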