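import Pool.Agent.NRC.C04Nr

/-!
# Module C05Orient: orientation of the irreducible factors

Write `Fh = rev (degs F) F`. PROOF. Induction on the irreducible factors of `F` (`WfDvdMonoid.induction_on_irreducible`, as in
`Pool.Agent.H27Mahler.nonrecip_product`), with the conclusion strengthened by `∀ j, ¬ X j ∣ F'`.
Unit: `c = 1`, `F' = 1` (`rev (degs 1) 1 = 1`), `mm u = 0` (`mm_unit`).
Step `F = i * a`, `i` irreducible, `(c, F')` for `a` (`Nr a`). If `mm i = 0`: keep `(c, F')` (`mm_mul`). If `totalDegree i = 0`: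
`i = C p`, take `(p c, F')`, `mm (C p) = log |p|`. Otherwise `Nr` gives `¬ Recip i`, so `¬ i ∣ ih` (`not_dvd_rev`), and no `X j ∣ i`
(else `mm i = 0`, `mm_irreducible_of_X_dvd`), so `ihh = i` (`rev_rev_degs`).
 Case A, `i ∤ F'h`: `F'' = F' * i`, `F''h = F'h * ih` (`rev_degs_mul`). If an irreducible `d` divides `F''` and `F''h` (`IsRelPrime` fails iff
 there is one), then `d ∣ F'` or `d ~ i`, and `d ∣ F'h` or `d ∣ ih`. `F', F'h`: excluded. `d ~ i`: `i ∤ F'h`, `i ∤ ih`. `d ∣ F'` and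
 `d ∣ ih`: reversing, `dh ∣ F'h` and `dh ∣ ihh = i`, `dh` is not a unit (else `d` would be a monomial times a unit; no `X j` divides
 `F'`), so `i ~ dh ∣ F'h`: excluded.
 Case B, `i ∣ F'h`: `F'' = F' * ih`, `F''h = F'h * i`. `i ∤ F'` (`i` divides `F'h`, `IsRelPrime F' F'h`). `d ∣ F'` and `d ∣ i`: then `i ∣ F'`,
 excluded. `d ∣ ih` and `d ∣ F'h`: `dh ∣ i`, `dh ∣ F'hh = F'`, so `i ∣ F'`, excluded. `d ∣ ih` and `d ∣ i`: `i ∣ ih`, excluded.
 `mm ih = mm i` (`mm_rev`); no `X j` divides `ih` (`not_X_dvd_rev`), `X j` is prime.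
-/

open MvPolynomial MeasureTheory Pool.Agent.H27Mahler Pool.Agent.SpCl

namespace Pool.Agent.NRC

namespace C05Orient_aux

variable {σ : Type} [Fintype σ]

theorem rev_one : rev (degs (1 : MvPolynomial σ ℤ)) 1 = 1 := by
  have h1 := rev_degs_mul (F := (1 : MvPolynomial σ ℤ)) (G := 1) one_ne_zero one_ne_zero
  rw [mul_one] at h1
  have h2 : rev (degs (1 : MvPolynomial σ ℤ)) 1 ≠ 0 := rev_ne_zero one_ne_zero le_degs
  exact (mul_eq_left₀ h2).1 h1.symm

theorem rev_nz {F : MvPolynomial σ ℤ} (hF : F ≠ 0) : rev (degs F) F ≠ 0 :=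
  rev_ne_zero hF le_degs

theorem rev_unit {u : MvPolynomial σ ℤ} (hu : IsUnit u) : IsUnit (rev (degs u) u) := by
  obtain ⟨v, hv⟩ := hu.exists_right_inv
  have hu0 : u ≠ 0 := hu.ne_zero
  have hv0 : v ≠ 0 := by rintro rfl; simp at hv
  have h1 := rev_degs_mul hu0 hv0
  rw [hv, rev_one] at h1
  exact IsUnit.of_mul_eq_one _ h1.symm

theorem rev_dvd {d F : MvPolynomial σ ℤ} (hF : F ≠ 0) (h : d ∣ F) :
    rev (degs d) d ∣ rev (degs F) F := by
  obtain ⟨G, rfl⟩ := h
  have hd : d ≠ 0 := left_ne_zero_of_mul hF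
  have hG : G ≠ 0 := right_ne_zero_of_mul hF
  rw [rev_degs_mul hd hG]
  exact dvd_mul_right _ _

/-- the reversal of a non-unit not divisible by variables is not a unit -/
theorem rev_not_unit {d : MvPolynomial σ ℤ} (hd : d ≠ 0) (hX : ∀ j, ¬ X j ∣ d) (hu : ¬ IsUnit d) :
    ¬ IsUnit (rev (degs d) d) := by
  intro h
  apply hu
  have h1 := rev_unit h
  rwa [rev_rev_degs hd hX] at h1

/-- the main point: no common factor of `A` and the reversal of `i` -/
theorem relPrime_rev {A i : MvPolynomial σ ℤ} (hA : A ≠ 0) (hXA : ∀ j, ¬ X j ∣ A)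
    (hi : Irreducible i) (hXi : ∀ j, ¬ X j ∣ i) (h : ¬ i ∣ rev (degs A) A) :
    IsRelPrime A (rev (degs i) i) := by
  intro d hdA hdi
  by_contra hu
  have hd0 : d ≠ 0 := fun h0 => hA (by rw [h0, zero_dvd_iff] at hdA; exact hdA)
  have hXd : ∀ j, ¬ X j ∣ d := fun j hj => hXA j (hj.trans hdA)
  have h1 := rev_dvd hA hdA
  have h2 := rev_dvd (rev_nz hi.ne_zero) hdi
  rw [rev_rev_degs hi.ne_zero hXi] at h2
  have h3 := rev_not_unit hd0 hXd hu
  exact h (((hi.dvd_iff.1 h2).resolve_left h3).dvd.trans h1)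

theorem mm_const (p : ℤ) : mm (C p : MvPolynomial σ ℤ) = Real.log |(p : ℝ)| := by
  rw [mm]
  simp [ev]

end C05Orient_aux

open C05Orient_aux

theorem orient {σ : Type} [Fintype σ] {F : MvPolynomial σ ℤ} (hF : F ≠ 0) (h : Nr F) :
    ∃ (c : ℤ) (F' : MvPolynomial σ ℤ), c ≠ 0 ∧ F' ≠ 0 ∧ mm F = Real.log |(c : ℝ)| + mm F' ∧
      IsRelPrime F' (rev (degs F') F') := by
  classical
  suffices H : F ≠ 0 → Nr F → ∃ (c : ℤ) (F' : MvPolynomial σ ℤ), c ≠ 0 ∧ F' ≠ 0 ∧
      mm F = Real.log |(c : ℝ)| + mm F' ∧ IsRelPrime F' (rev (degs F') F') ∧ ∀ j, ¬ X j ∣ F' by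
    obtain ⟨c, F', h1, h2, h3, h4, -⟩ := H hF h
    exact ⟨c, F', h1, h2, h3, h4⟩
  clear hF h
  refine WfDvdMonoid.induction_on_irreducible (motive := fun F : MvPolynomial σ ℤ =>
    F ≠ 0 → Nr F → ∃ (c : ℤ) (F' : MvPolynomial σ ℤ), c ≠ 0 ∧ F' ≠ 0 ∧
      mm F = Real.log |(c : ℝ)| + mm F' ∧ IsRelPrime F' (rev (degs F') F') ∧ ∀ j, ¬ X j ∣ F')
    F ?_ ?_ ?_
  · intro h; exact absurd rfl h
  · intro u hu _ _
    refine ⟨1, 1, one_ne_zero, one_ne_zero, by rw [mm_unit hu, mm_one]; simp,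
      isRelPrime_one_left, fun j hj => ?_⟩
    exact (X_prime (R := ℤ) (i := j)).not_isUnit (isUnit_of_dvd_one hj)
  · intro a i ha hi ih _ hNr
    have hi0 : i ≠ 0 := hi.ne_zero
    have hmul := mm_mul hi0 ha
    obtain ⟨c, F', hc, hF', hmm, hrel, hX⟩ := ih ha (fun P hP hPa h1 h2 =>
      hNr P hP (hPa.mul_left i) h1 h2)
    by_cases h0 : mm i = 0
    · exact ⟨c, F', hc, hF', by rw [hmul, h0, zero_add, hmm], hrel, hX⟩
    by_cases hdeg : i.totalDegree = 0
    · rw [totalDegree_eq_zero_iff_eq_C] at hdeg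
      have hp : coeff 0 i ≠ 0 := by
        intro hp
        rw [hp, C_0] at hdeg
        exact hi0 hdeg
      refine ⟨coeff 0 i * c, F', mul_ne_zero hp hc, hF', ?_, hrel, hX⟩
      have h1 : mm i = Real.log |((coeff 0 i : ℤ) : ℝ)| := by
        rw [← mm_const (σ := σ), ← hdeg]
      have hp' : |((coeff 0 i : ℤ) : ℝ)| ≠ 0 := abs_ne_zero.2 (Int.cast_ne_zero.2 hp)
      have hc' : |(c : ℝ)| ≠ 0 := abs_ne_zero.2 (Int.cast_ne_zero.2 hc)
      rw [hmul, h1, hmm, Int.cast_mul, abs_mul, Real.log_mul hp' hc', add_assoc]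
    have hnr : ¬ Recip i := hNr i hi (Dvd.intro _ rfl) hdeg h0
    have hnd : ¬ i ∣ rev (degs i) i := not_dvd_rev hi0 hnr
    have hXi : ∀ j, ¬ X j ∣ i := by
      intro j hj
      apply h0
      obtain ⟨G, hG⟩ := hj
      have hXu := (X_prime (R := ℤ) (i := j)).not_isUnit
      have hG0 : G ≠ 0 := by rintro rfl; rw [mul_zero] at hG; exact hi0 hG
      have hGu : IsUnit G := (hi.isUnit_or_isUnit hG).resolve_left hXu
      rw [hG, mm_mul (X_ne_zero j) hG0, mm_X, mm_unit hGu, add_zero]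
    have hihh : rev (degs (rev (degs i) i)) (rev (degs i) i) = i := rev_rev_degs hi0 hXi
    have hFhh : rev (degs (rev (degs F') F')) (rev (degs F') F') = F' := rev_rev_degs hF' hX
    have hi1 : IsRelPrime i (rev (degs i) i) := hi.isRelPrime_iff_not_dvd.2 hnd
    by_cases hcase : i ∣ rev (degs F') F'
    · -- Case B
      have hih0 := rev_nz hi0
      have hm : mm (rev (degs i) i) = mm i := mm_rev le_degs
      refine ⟨c, F' * rev (degs i) i, hc, mul_ne_zero hF' hih0, ?_, ?_, ?_⟩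
      · rw [hmul, mm_mul hF' hih0, hm, hmm]
        ring
      · rw [rev_degs_mul hF' hih0, hihh]
        have hiF : ¬ i ∣ F' := fun hd => hi.not_isUnit (hrel hd hcase)
        have h1 : IsRelPrime F' i := (hi.isRelPrime_iff_not_dvd.2 hiF).symm
        have h2 : IsRelPrime (rev (degs F') F') (rev (degs i) i) := by
          refine relPrime_rev (rev_nz hF') (fun j => not_X_dvd_rev hF' j) hi hXi ?_
          rw [hFhh]
          exact hiF
        exact (hrel.mul_right h1).mul_left (h2.symm.mul_right hi1.symm)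
      · intro j hj
        rcases (X_prime (R := ℤ) (i := j)).dvd_or_dvd hj with h1 | h1
        · exact hX j h1
        · exact not_X_dvd_rev hi0 j h1
    · -- Case A
      refine ⟨c, F' * i, hc, mul_ne_zero hF' hi0, ?_, ?_, ?_⟩
      · rw [hmul, mm_mul hF' hi0, hmm]
        ring
      · rw [rev_degs_mul hF' hi0]
        have h1 : IsRelPrime i (rev (degs F') F') := hi.isRelPrime_iff_not_dvd.2 hcase
        have h2 : IsRelPrime F' (rev (degs i) i) := relPrime_rev hF' hX hi hXi hcase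
        exact (hrel.mul_right h2).mul_left (h1.mul_right hi1)
      · intro j hj
        rcases (X_prime (R := ℤ) (i := j)).dvd_or_dvd hj with h1 | h1
        · exact hX j h1
        · exact hXi j h1

end Pool.Agent.NRC
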