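import Pool.Agent.NRC.C02One
import Pool.Agent.NRC.C03Rev

/-!
# Module C06Appr: approximation of several variables by one variable

PROOF of `exists_free`: `r n i = (n : ℤ) ^ (i : ℕ)`; `dt t (r n)` is the value at `n` of a non-zero polynomial, so it is non-zero
for large `n`.
PROOF of `approx_seq`. `r` from `exists_free`. Eventually `sp (r n) F, sp (r n) (rev ..) ≠ 0` (`Free.sp_ne_zero`, `rev_ne_zero`), and
`sp (r n) F * invert (sp (r n) F) = sp (r n) Fh * invert (sp (r n) Fh)` by `sp_rev` (`T a * invert (T a) = 1`, `invert` involutive), so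
`exists_pr` gives `g n, P n, Q n`; for the other `n` take junk. `ml (P n) ≤ ml (sp (r n) F) → mm F` (`ml_mul`, `ml_nonneg`, `tendsto_ml`).
Lower bound: let `δ > 0` and suppose `ml (P n) ≤ mm F - δ` frequently. Take the filter `l = atTop ⊓ 𝓟 {n | ml (P n) ≤ mm F - δ}`
(NeBot). `bd_of_norm_eq` (with `δ'`): `Bd (P n) (Q n) ((1 + δ') exp (2 (mm F - δ)))` eventually along `l`, and
`sp (r n) F * Q n = g P Q = sp (r n) Fh * P n`. `thmD` (with `A = F`, `B = Fh`; `P n ≠ 0` for all `n` by the choice of junk):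
`LL F Fh ≤ log 2 + log (1 + δ') + 2 mm F - 2 δ`, and `LL F Fh = log 2 + 2 mm F` (`LL_rev`): contradiction for `δ'` small.
-/

open MvPolynomial LaurentPolynomial MeasureTheory Filter Topology Pool.Agent.H27Mahler Pool.Agent.SpCl

namespace Pool.Agent.NRC

theorem exists_free (k : ℕ) : ∃ r : ℕ → Fin k → ℤ, Free atTop r := by
  classical
  refine ⟨fun n i => (n : ℤ) ^ (i : ℕ), fun t ht => ?_⟩
  set p : Polynomial ℤ := ∑ i : Fin k, Polynomial.C (t i) * Polynomial.X ^ (i : ℕ) with hp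
  have hp0 : p ≠ 0 := by
    obtain ⟨i, hi⟩ := Function.ne_iff.mp ht
    intro h0
    apply hi
    have h1 : p.coeff (i : ℕ) = t i := by
      rw [hp, Polynomial.finsetSum_coeff, Finset.sum_eq_single i]
      · simp
      · intro j _ hj
        rw [Polynomial.coeff_C_mul_X_pow, if_neg]
        intro h2
        exact hj (Fin.ext h2.symm)
      · intro h2
        exact absurd (Finset.mem_univ i) h2
    rw [h0, Polynomial.coeff_zero] at h1
    exact h1.symm
  have hev : ∀ n : ℕ, dt t (fun i : Fin k => (n : ℤ) ^ (i : ℕ)) = p.eval (n : ℤ) := by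
    intro n
    rw [hp, Polynomial.eval_finsetSum, dt]
    refine Finset.sum_congr rfl fun i _ => ?_
    simp
  have hfin : {n : ℕ | p.eval (n : ℤ) = 0}.Finite := by
    have h1 : {x : ℤ | p.eval x = 0}.Finite := by
      have h2 := p.roots.toFinset.finite_toSet
      refine h2.subset fun x hx => ?_
      simp only [Finset.mem_coe, Multiset.mem_toFinset]
      exact (Polynomial.mem_roots hp0).mpr hx
    exact h1.preimage (Nat.cast_injective.injOn)
  have h3 := hfin.eventually_cofinite_notMem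
  rw [Nat.cofinite_eq_atTop] at h3
  filter_upwards [h3] with n hn h4
  apply hn
  rw [hev n] at h4
  exact h4

theorem approx_seq {k : ℕ} {F : MvPolynomial (Fin k) ℤ} (hF : F ≠ 0)
    (hrel : IsRelPrime F (rev (degs F) F)) :
    ∃ (r : ℕ → Fin k → ℤ) (g P Q : ℕ → LZ), Free atTop r ∧
      (∀ᶠ n in atTop, Pr (P n) (Q n) ∧ g n ≠ 0 ∧ sp (r n) F = g n * P n ∧
        sp (r n) (rev (degs F) F) = g n * Q n) ∧
      Tendsto (fun n => ml (P n)) atTop (𝓝 (mm F)) := by
  classical
  obtain ⟨r, hr⟩ := exists_free k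
  have hR : rev (degs F) F ≠ 0 := rev_ne_zero hF le_degs
  have hsym : ∀ n, sp (r n) F * invert (sp (r n) F) =
      sp (r n) (rev (degs F) F) * invert (sp (r n) (rev (degs F) F)) := by
    intro n
    rw [sp_rev _ le_degs, map_mul, invert_T]
    have h1 : invert (invert (sp (r n) F)) = sp (r n) F := involutive_invert _
    rw [h1]
    have h2 : (T (wt (r n) (degs F)) : LZ) * T (-(wt (r n) (degs F))) = 1 := by
      rw [← T_add, add_neg_cancel, T_zero]
    calc sp (r n) F * invert (sp (r n) F) = 1 * (sp (r n) F * invert (sp (r n) F)) := by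
          rw [one_mul]
      _ = (T (wt (r n) (degs F)) : LZ) * T (-(wt (r n) (degs F))) *
          (sp (r n) F * invert (sp (r n) F)) := by rw [h2]
      _ = _ := by ring
  have hex : ∀ n, ∃ g P Q : LZ, P ≠ 0 ∧ Q ≠ 0 ∧ (sp (r n) F ≠ 0 →
      sp (r n) (rev (degs F) F) ≠ 0 → Pr P Q ∧ g ≠ 0 ∧ sp (r n) F = g * P ∧
        sp (r n) (rev (degs F) F) = g * Q) := by
    intro n
    by_cases h : sp (r n) F ≠ 0 ∧ sp (r n) (rev (degs F) F) ≠ 0
    · obtain ⟨g, P, Q, hg, h1, h2, h3⟩ := exists_pr h.1 h.2 (hsym n)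
      exact ⟨g, P, Q, h3.1, h3.2.1, fun _ _ => ⟨h3, hg, h1, h2⟩⟩
    · exact ⟨1, 1, 1, one_ne_zero, one_ne_zero, fun h1 h2 => absurd ⟨h1, h2⟩ h⟩
  choose g P Q hP hQ hgPQ using hex
  have hev : ∀ᶠ n in atTop, Pr (P n) (Q n) ∧ g n ≠ 0 ∧ sp (r n) F = g n * P n ∧
        sp (r n) (rev (degs F) F) = g n * Q n := by
    filter_upwards [hr.sp_ne_zero hF, hr.sp_ne_zero hR] with n h1 h2
    exact hgPQ n h1 h2
  refine ⟨r, g, P, Q, hr, hev, ?_⟩
  have hlim := tendsto_ml hr hF
  rw [tendsto_order] at hlim ⊢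
  constructor
  · intro a ha
    by_contra hcon
    have hfr : ∃ᶠ n in atTop, n ∈ {n : ℕ | ml (P n) ≤ a} := by
      rw [Filter.not_eventually] at hcon
      refine hcon.mono fun n hn => ?_
      exact not_lt.mp hn
    have hne : (atTop ⊓ 𝓟 {n : ℕ | ml (P n) ≤ a}).NeBot := Filter.frequently_mem_iff_neBot.mp hfr
    have hrl : Free (atTop ⊓ 𝓟 {n : ℕ | ml (P n) ≤ a}) r := fun t ht =>
      (hr t ht).filter_mono inf_le_left
    have hrel2 : ∀ᶠ n in (atTop ⊓ 𝓟 {n : ℕ | ml (P n) ≤ a}),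
        sp (r n) F * Q n = sp (r n) (rev (degs F) F) * P n := by
      filter_upwards [hev.filter_mono inf_le_left] with n hn
      rw [hn.2.2.1, hn.2.2.2]
      ring
    have hM : ∀ᶠ n in (atTop ⊓ 𝓟 {n : ℕ | ml (P n) ≤ a}),
        Bd (P n) (Q n) (Real.exp (mm F - a) * Real.exp (2 * a)) := by
      have h1 : ∀ᶠ n in (atTop ⊓ 𝓟 {n : ℕ | ml (P n) ≤ a}), ml (P n) ≤ a :=
        Filter.eventually_inf_principal.mpr (Filter.Eventually.of_forall fun n hn => hn)
      filter_upwards [hev.filter_mono inf_le_left, h1] with n hn hle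
      have hδ : 0 < Real.exp (mm F - a) - 1 := by
        have := Real.add_one_lt_exp (sub_pos.mpr ha).ne'
        linarith
      have h2 := bd_of_norm_eq (hP n) (mul_invert_eq_iff.mp hn.1.2.2.1) hδ
      refine h2.mono ?_
      rw [add_sub_cancel]
      refine mul_le_mul_of_nonneg_left ?_ (Real.exp_pos _).le
      exact Real.exp_le_exp.mpr (by linarith)
    have h3 := thmD hrl hP hQ hF hR hrel hrel2 hM
    rw [LL_rev hF le_degs, ← Real.exp_add, Real.log_mul (by norm_num) (Real.exp_pos _).ne',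
      Real.log_exp] at h3
    linarith
  · intro a ha
    filter_upwards [hlim.2 a ha, hev] with n h1 h2
    rw [h2.2.2.1, ml_mul h2.2.1 (hP n)] at h1
    have := ml_nonneg (g n)
    linarith

end Pool.Agent.NRC
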