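import Pool.Agent.NRC.C05Orient
import Pool.Agent.NRC.C06Appr

/-!
# Module C07Closed: closedness on the level of logarithms

PROOF. For each `n`: `orient` gives `c_n, F'_n`; `log |c_n| ≤ mm (F n)` is bounded, so `|c_n| ≤ C`; take an ultrafilter
`l ≤ atTop` (`hyperfilter`); `c_n = c` for `l`-most `n` (finitely many values). `approx_seq` gives a pair `(P n, Q n)`, `Pr`, with
`|ml (P n) - mm F'_n| ≤ 1 / (n + 1)`. So `ml (P n) → x - log |c|` along `l`, `one_var` gives `A` with `mm A = x - log |c|`;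
`mul_rev_eq_of_free` and `nr_of_pair`: `Nr A`. `G = C c * A`: `nr_C_mul`, `mm_mul`, `mm (C c) = log |c|`.
-/

open MvPolynomial LaurentPolynomial MeasureTheory Filter Topology Pool.Agent.H27Mahler Pool.Agent.SpCl

namespace Pool.Agent.NRC

theorem mm_C {σ : Type} [Fintype σ] (c : ℤ) : mm (MvPolynomial.C c : MvPolynomial σ ℤ) = Real.log |(c : ℝ)| := by
  have h : ∀ t : Tor σ, Real.log ‖ev t (MvPolynomial.C c : MvPolynomial σ ℤ)‖ = Real.log |(c : ℝ)| := by
    intro t
    have h1 : (MvPolynomial.C c : MvPolynomial σ ℤ) = (c : MvPolynomial σ ℤ) := by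
      rw [← Int.cast_id (n := c), map_intCast]
      simp
    rw [h1, map_intCast, Complex.norm_intCast]
  rw [mm, integral_congr_ae (Filter.Eventually.of_forall h), integral_const]
  simp

/-- finitely many values: an ultrafilter makes the sequence constant -/
private theorem exists_eventually_eq (l : Ultrafilter ℕ) {c : ℕ → ℤ} {N : ℤ} (h : ∀ n, |c n| ≤ N) :
    ∃ a : ℤ, ∀ᶠ n in (l : Filter ℕ), c n = a := by
  have h1 : (⋃ a ∈ Set.Icc (-N) N, {n | c n = a}) ∈ l := by
    have : (⋃ a ∈ Set.Icc (-N) N, {n | c n = a}) = Set.univ := by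
      ext n
      simp only [Set.mem_iUnion, Set.mem_setOf_eq, Set.mem_univ, iff_true, exists_prop,
        exists_eq_right']
      exact abs_le.mp (h n)
    rw [this]
    exact Filter.univ_mem
  rw [Ultrafilter.finite_biUnion_mem_iff (Set.finite_Icc _ _)] at h1
  obtain ⟨a, -, ha⟩ := h1
  exact ⟨a, ha⟩

theorem closed_mm {k : ℕ → ℕ} (F : ∀ n, MvPolynomial (Fin (k n)) ℤ) (hF : ∀ n, F n ≠ 0)
    (hN : ∀ n, Nr (F n)) {x : ℝ} (hx : Tendsto (fun n => mm (F n)) atTop (𝓝 x)) :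
    ∃ (K : ℕ) (G : MvPolynomial (Fin K) ℤ), G ≠ 0 ∧ Nr G ∧ mm G = x := by
  choose c F' hc hF' hmm hrel using fun n => orient (hF n) (hN n)
  -- the contents are bounded
  obtain ⟨B, hB⟩ := hx.bddAbove_range
  have hlog : ∀ n, Real.log |(c n : ℝ)| ≤ B := by
    intro n
    have h1 : mm (F n) ≤ B := hB ⟨n, rfl⟩
    have h2 := mm_nonneg (F' n)
    have h3 := hmm n
    linarith
  have hcN : ∀ n, |c n| ≤ ⌈Real.exp B⌉ := by
    intro n
    have hpos : (0 : ℝ) < |(c n : ℝ)| := abs_pos.mpr (by exact_mod_cast hc n)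
    have h1 : |(c n : ℝ)| ≤ Real.exp B := (Real.log_le_iff_le_exp hpos).mp (hlog n)
    have h2 : ((|c n| : ℤ) : ℝ) ≤ (⌈Real.exp B⌉ : ℤ) := by
      rw [Int.cast_abs]
      exact h1.trans (Int.le_ceil _)
    exact_mod_cast h2
  set l : Ultrafilter ℕ := hyperfilter ℕ with hl
  have hle : (l : Filter ℕ) ≤ atTop := Nat.hyperfilter_le_atTop
  obtain ⟨a, ha⟩ := exists_eventually_eq l hcN
  have ha0 : a ≠ 0 := by
    obtain ⟨n, hn⟩ := ha.exists
    rw [← hn]
    exact hc n
  -- one variable approximations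
  have happ : ∀ n, ∃ P Q : LZ, Pr P Q ∧ |ml P - mm (F' n)| < 1 / ((n : ℝ) + 1) := by
    intro n
    obtain ⟨r, g, P, Q, -, h2, h3⟩ := approx_seq (hF' n) (hrel n)
    have h4 : ∀ᶠ m in atTop, |ml (P m) - mm (F' n)| < 1 / ((n : ℝ) + 1) := by
      have := (Metric.tendsto_nhds.mp h3) (1 / ((n : ℝ) + 1)) (by positivity)
      simpa only [Real.dist_eq] using this
    obtain ⟨m, hm1, hm2⟩ := (h2.and h4).exists
    exact ⟨P m, Q m, hm1.1, hm2⟩
  choose P Q hPr hPm using happ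
  have hlim : Tendsto (fun n => ml (P n)) (l : Filter ℕ) (𝓝 (x - Real.log |(a : ℝ)|)) := by
    have h1 : Tendsto (fun n => ml (P n) - mm (F' n)) (l : Filter ℕ) (𝓝 0) := by
      refine squeeze_zero_norm (fun n => ?_) (tendsto_one_div_add_atTop_nhds_zero_nat.mono_left hle)
      rw [Real.norm_eq_abs]
      exact (hPm n).le
    have h2 : Tendsto (fun n => mm (F n) - Real.log |(a : ℝ)|) (l : Filter ℕ)
        (𝓝 (x - Real.log |(a : ℝ)|)) := (hx.mono_left hle).sub_const _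
    have h3 : Tendsto (fun n => mm (F' n)) (l : Filter ℕ) (𝓝 (x - Real.log |(a : ℝ)|)) := by
      refine h2.congr' ?_
      filter_upwards [ha] with n hn
      rw [hmm n, hn]
      ring
    have h4 := h1.add h3
    rw [zero_add] at h4
    refine h4.congr fun n => ?_
    ring
  obtain ⟨K, γ, A, A', hγ, hA, hA', hrel', hmA, -, hev⟩ := one_var l hPr hlim
  have hNr : Nr A := nr_of_pair hA hA' hrel' (mul_rev_eq_of_free hγ hev)
  refine ⟨K, MvPolynomial.C a * A, mul_ne_zero ?_ hA, nr_C_mul ha0 hNr, ?_⟩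
  · rwa [Ne, MvPolynomial.C_eq_zero]
  · rw [mm_mul (by rwa [Ne, MvPolynomial.C_eq_zero]) hA, mm_C, hmA]
    ring

end Pool.Agent.NRC
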