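import Pool.Agent.NRC.U04ThmB
import Pool.Agent.NRC.O03Bd
import Pool.Agent.NRC.C01Cop

open MvPolynomial LaurentPolynomial MeasureTheory Filter Topology

namespace Pool.Agent.NRC

/-- at most `m` monomials, coefficients at most `m` in absolute value -/
def Small (m : ℕ) (a : LZ) : Prop := a.coeff.support.card ≤ m ∧ ∀ e, |a.coeff e| ≤ m

/-- specialisations of a fixed polynomial are small -/
theorem small_sp {K : ℕ} (γ : Fin K → ℤ) (A : MvPolynomial (Fin K) ℤ) {m : ℕ}
    (h1 : A.support.card ≤ m) (h2 : ∑ s ∈ A.support, |A.coeff s| ≤ m) : Small m (sp γ A) := by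
  classical
  constructor
  · have h3 : (sp γ A).coeff.support ⊆ A.support.image (wt γ) := by
      intro e he
      rw [Finsupp.mem_support_iff, coeff_sp] at he
      obtain ⟨s, hs, hne⟩ := Finset.exists_ne_zero_of_sum_ne_zero he
      rw [Finset.mem_image]
      refine ⟨s, hs, ?_⟩
      by_contra hcon
      exact hne (if_neg hcon)
    exact (Finset.card_le_card h3).trans (Finset.card_image_le.trans h1)
  · intro e
    rw [coeff_sp]
    refine le_trans (Finset.abs_sum_le_sum_abs _ _) (le_trans (Finset.sum_le_sum fun s _ => ?_) h2)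
    split_ifs
    · exact le_rfl
    · simp

theorem sp_one (T : ℝ) : ∃ m : ℕ, ∀ P Q : LZ, Pr P Q → ml P ≤ T →
    ∃ a b : LZ, a ≠ 0 ∧ Small m a ∧ Small m b ∧ a * Q = b * P := by
  by_contra hcon
  push Not at hcon
  choose P Q hPQ hT hbad using hcon
  let l : Ultrafilter ℕ := Filter.hyperfilter ℕ
  have hl : (l : Filter ℕ) ≤ atTop := by
    rw [← Nat.cofinite_eq_atTop]
    exact Filter.hyperfilter_le_cofinite
  obtain ⟨K, γ, A, B, hγ, hA, hB, hAB, hrel⟩ := thmB l (fun n => (hPQ n).1) (fun n => (hPQ n).2.1)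
    (M := (1 + 1) * Real.exp (2 * T)) (Filter.Eventually.of_forall fun n => by
      refine (bd_of_norm_eq (hPQ n).1 (mul_invert_eq_iff.mp (hPQ n).2.2.1) one_pos).mono ?_
      have := hT n
      gcongr)
  have hA' := hγ.sp_ne_zero hA
  obtain ⟨m, hm1, hm2, hm3, hm4⟩ : ∃ m : ℕ, A.support.card ≤ m ∧ B.support.card ≤ m ∧
      ∑ s ∈ A.support, |A.coeff s| ≤ m ∧ ∑ s ∈ B.support, |B.coeff s| ≤ m := by
    refine ⟨A.support.card + B.support.card + (∑ s ∈ A.support, |A.coeff s|).toNat +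
      (∑ s ∈ B.support, |B.coeff s|).toNat, by omega, by omega, ?_, ?_⟩ <;> push_cast <;> omega
  obtain ⟨n, ⟨hn1, hn2⟩, hn3⟩ := ((hrel.and hA').and (hl (eventually_ge_atTop m))).exists
  exact hbad n (sp (γ n) A) (sp (γ n) B) hn2
    (small_sp _ _ (hm1.trans hn3) (hm3.trans (by exact_mod_cast hn3)))
    (small_sp _ _ (hm2.trans hn3) (hm4.trans (by exact_mod_cast hn3))) hn1

end Pool.Agent.NRC
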