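import Pool.Agent.NRC.C08SpOne

/-!
# Module C09Sort: lifting sparse relations from one to several variables

PROOF. Parametrise: for `l`-most `n`, `a n = ∑_{i < m} c_i T^(e_i n)`, `b n = ∑_{i < m} d_i T^(f_i n)` with coefficient vectors
`c, d : Fin m → ℤ` in `[-m, m]` (zero for unused indices; the exponents with `c_i ≠ 0` distinct, the same for `d`); there are finitely
many possible `(c, d)`, so they are constant for `l`-most `n`. Index set `J = {i | c_i ≠ 0} ⊕ {i | d_i ≠ 0}` with exponents `h_j n`. Let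
`j ~ j'` iff there is `v : Fin k → ℤ` with `h_j n - h_j' n = dt v (r n)` for `l`-most `n`: an equivalence relation. Take `j₀` in the first
half (`a n ≠ 0`), its class `Cl`, and `v_j` with `h_j n = h_{j₀} n + dt v_j (r n)` for `j ∈ Cl`. Adding a constant vector to all `v_j` we
write `v_j + V ≥ 0`, `α = ∑_{j ∈ Cl, first} c_j x^(v_j + V)`, `β = ∑_{j ∈ Cl, second} d_j x^(v_j + V)`.
CLAIM `α * G = β * F`. For `l`-most `n`, compare coefficients at the exponents `E = h_{j₀} n + dt w (r n)`, `w` in the finite set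
`W = {v_j + s : j ∈ Cl, s ∈ F.support ∪ G.support}`: a monomial `h_j n + wt (r n) s` of `a n * sp G` or `b n * sp F` with `j ∉ Cl` is not of
this form for `l`-most `n` (finitely many conditions `h_j n - h_{j₀} n = dt (w - s) (r n)`, each of which fails for `l`-most `n` since
`l` is an ultrafilter and `j ≁ j₀`). So the parts of both sides of `a n * sp G = b n * sp F` coming from `Cl` are equal:
`(∑_{j ∈ Cl} c_j T^(h_j n)) * sp G = (∑_{j ∈ Cl} d_j T^(h_j n)) * sp F`. Multiply by `T^(dt V (r n) - h_{j₀} n)`: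
`sp (r n) (α * G) = sp (r n) (β * F)` for `l`-most `n`, so `α * G = β * F` (`Free.eq_zero`). `α ≠ 0`: the `h_j n` (`j` in the first half)
are distinct for `l`-most `n`, so the `v_j` are distinct. `α` has at most `m` monomials, with coefficients `c_j`.
-/

open MvPolynomial LaurentPolynomial MeasureTheory Filter Topology

namespace Pool.Agent.NRC

/-- parametrisation of a sequence of small Laurent polynomials along an ultrafilter -/
theorem C09_param (l : Ultrafilter ℕ) (m : ℕ) {a : ℕ → LZ}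
    (h : ∀ᶠ n in (l : Filter ℕ), Small m (a n)) :
    ∃ (p : ℕ) (c : Fin p → ℤ) (e : Fin p → ℕ → ℤ), p ≤ m ∧ (∀ i, c i ≠ 0 ∧ |c i| ≤ m) ∧
      ∀ᶠ n in (l : Filter ℕ), Function.Injective (fun i => e i n) ∧
        a n = ∑ i, LaurentPolynomial.C (c i) * T (e i n) := by
  classical
  -- the number of monomials
  have h1 : ∀ᶠ n in (l : Filter ℕ), ∃ p ∈ Set.Iic m, (a n).coeff.support.card = p := by
    filter_upwards [h] with n hn
    exact ⟨_, hn.1, rfl⟩
  obtain ⟨p, hp, hcard⟩ := (Ultrafilter.eventually_exists_mem_iff (Set.finite_Iic m)).mp h1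
  -- the exponents
  let e : Fin p → ℕ → ℤ := fun i n =>
    if hn : (a n).coeff.support.card = p then (a n).coeff.support.orderEmbOfFin hn i else 0
  have he : ∀ n, ∀ hn : (a n).coeff.support.card = p, ∀ i,
      e i n = (a n).coeff.support.orderEmbOfFin hn i := by
    intro n hn i
    simp only [e, hn, dif_pos]
  -- the coefficients
  have h2 : ∀ i : Fin p, ∃ c ∈ (Set.Icc (-(m : ℤ)) m), ∀ᶠ n in (l : Filter ℕ),
      (a n).coeff (e i n) = c := by
    intro i
    refine (Ultrafilter.eventually_exists_mem_iff (Set.finite_Icc _ _)).mp ?_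
    filter_upwards [h] with n hn
    exact ⟨_, Set.mem_Icc.mpr (abs_le.mp (hn.2 _)), rfl⟩
  choose c hc hc' using h2
  have h3 : ∀ᶠ n in (l : Filter ℕ), ∀ i, (a n).coeff (e i n) = c i := by
    rw [Filter.eventually_all]
    exact hc'
  refine ⟨p, c, e, hp, ?_, ?_⟩
  · intro i
    constructor
    · obtain ⟨n, hn1, hn2⟩ := (hcard.and h3).exists
      rw [← hn2 i, he n hn1 i]
      exact Finsupp.mem_support_iff.mp (Finset.orderEmbOfFin_mem _ _ _)
    · exact abs_le.mpr (Set.mem_Icc.mp (hc i))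
  · filter_upwards [hcard, h3] with n hn1 hn2
    constructor
    · intro i j hij
      simp only [he n hn1] at hij
      exact ((a n).coeff.support.orderEmbOfFin hn1).injective hij
    · have h4 : a n = ∑ x ∈ (a n).coeff.support,
          LaurentPolynomial.C ((a n).coeff x) * T x := by
        conv_lhs => rw [← AddMonoidAlgebra.sum_coeff_single (a n)]
        rw [Finsupp.sum]
        exact Finset.sum_congr rfl fun x _ => LaurentPolynomial.single_eq_C_mul_T _ _
      conv_lhs => rw [h4]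
      rw [← Finset.map_orderEmbOfFin_univ (a n).coeff.support hn1, Finset.sum_map]
      refine Finset.sum_congr rfl fun i _ => ?_
      have h5 : ((a n).coeff.support.orderEmbOfFin hn1).toEmbedding i = e i n := (he n hn1 i).symm
      rw [h5, hn2 i]

theorem C09_coeff_T_mul (P : LZ) (n e : ℤ) : (T n * P).coeff e = P.coeff (e - n) := by
  rw [mul_comm, coeff_mul_T]

/-- the part of a relation coming from one coset -/
theorem C09_proj {k : ℕ} (l : Ultrafilter ℕ) {r : ℕ → Fin k → ℤ} {ι : Type} [Fintype ι]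
    [DecidableEq ι] (h : ι → ℕ → ℤ) (R : ι → MvPolynomial (Fin k) ℤ)
    (hrel : ∀ᶠ n in (l : Filter ℕ), ∑ j, T (h j n) * sp (r n) (R j) = 0) (I : Finset ι)
    (v : ι → Fin k → ℤ) (g : ℕ → ℤ)
    (hI : ∀ j ∈ I, ∀ᶠ n in (l : Filter ℕ), h j n = g n + dt (v j) (r n))
    (hI' : ∀ j, j ∉ I → ∀ w : Fin k → ℤ, ∀ᶠ n in (l : Filter ℕ), h j n ≠ g n + dt w (r n)) :
    ∀ᶠ n in (l : Filter ℕ), ∑ j ∈ I, T (h j n) * sp (r n) (R j) = 0 := by
  have h1 : ∀ᶠ n in (l : Filter ℕ), ∀ j ∈ I, h j n = g n + dt (v j) (r n) := by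
    rw [Filter.eventually_all_finset]
    exact hI
  have h2 : ∀ᶠ n in (l : Filter ℕ), ∀ j ∈ Iᶜ, ∀ i ∈ I, ∀ s ∈ (R i).support,
      ∀ t ∈ (R j).support,
        h j n ≠ g n + dt (v i + (fun x => (s x : ℤ)) - (fun x => (t x : ℤ))) (r n) := by
    rw [Filter.eventually_all_finset]
    intro j hj
    rw [Filter.eventually_all_finset]
    intro i _
    rw [Filter.eventually_all_finset]
    intro s _
    rw [Filter.eventually_all_finset]
    intro t _
    exact hI' j (Finset.mem_compl.mp hj) _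
  filter_upwards [hrel, h1, h2] with n hn hn1 hn2
  rw [← AddMonoidAlgebra.coeff_eq_zero]
  ext e
  rw [Finsupp.zero_apply]
  by_contra hne
  have key : ∀ J : Finset ι, (∑ j ∈ J, T (h j n) * sp (r n) (R j)).coeff e ≠ 0 →
      ∃ j ∈ J, ∃ s ∈ (R j).support, wt (r n) s = e - h j n := by
    intro J hJ
    rw [AddMonoidAlgebra.coeff_sum, Finsupp.finsetSum_apply] at hJ
    obtain ⟨j, hj, hj'⟩ := Finset.exists_ne_zero_of_sum_ne_zero hJ
    rw [C09_coeff_T_mul, coeff_sp] at hj'
    obtain ⟨s, hs, hs'⟩ := Finset.exists_ne_zero_of_sum_ne_zero hj'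
    refine ⟨j, hj, s, hs, ?_⟩
    by_contra hcon
    rw [if_neg hcon] at hs'
    exact hs' rfl
  have hsplit := Finset.sum_add_sum_compl I (fun j => T (h j n) * sp (r n) (R j))
  rw [hn] at hsplit
  have hne2 : (∑ j ∈ Iᶜ, T (h j n) * sp (r n) (R j)).coeff e ≠ 0 := by
    have h3 : (∑ j ∈ Iᶜ, T (h j n) * sp (r n) (R j))
        = -(∑ j ∈ I, T (h j n) * sp (r n) (R j)) := by
      rw [eq_neg_iff_add_eq_zero, add_comm]
      exact hsplit
    intro h4
    apply hne
    have h5 : (∑ j ∈ I, T (h j n) * sp (r n) (R j)).coeff e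
        + (∑ j ∈ Iᶜ, T (h j n) * sp (r n) (R j)).coeff e = 0 := by
      rw [← Finsupp.add_apply, ← AddMonoidAlgebra.coeff_add, hsplit]
      simp
    rw [h4, add_zero] at h5
    exact h5
  obtain ⟨i, hi, s, hs, hs'⟩ := key I hne
  obtain ⟨j, hj, t, ht, ht'⟩ := key Iᶜ hne2
  refine hn2 j hj i hi s hs t ht ?_
  rw [dt_sub, dt_add, ← wt_eq_dt, ← wt_eq_dt, hs', ht', hn1 i hi]
  ring

theorem C09_sum_split {p q : ℕ} (I : Finset (Fin p ⊕ Fin q)) {M : Type} [AddCommMonoid M]
    (φ : Fin p ⊕ Fin q → M) :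
    ∑ j ∈ I, φ j = ∑ i ∈ Finset.univ.filter (fun i : Fin p => Sum.inl i ∈ I), φ (Sum.inl i)
      + ∑ j ∈ Finset.univ.filter (fun j : Fin q => Sum.inr j ∈ I), φ (Sum.inr j) := by
  classical
  rw [Finset.sum_filter, Finset.sum_filter]
  have h1 : ∑ j ∈ I, φ j = ∑ j, if j ∈ I then φ j else 0 := by
    rw [← Finset.sum_filter]
    congr 1
    ext j
    simp
  rw [h1, Fintype.sum_sum_type]

/-- a shift making finitely many integer vectors nonnegative -/
theorem C09_shift {k : ℕ} {ι : Type} [Fintype ι] (v : ι → Fin k → ℤ) :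
    ∃ (V : Fin k → ℤ) (w : ι → Fin k →₀ ℕ), ∀ j x, ((w j x : ℕ) : ℤ) = v j x + V x := by
  refine ⟨fun x => ∑ j, |v j x|, fun j => Finsupp.equivFunOnFinite.symm
    (fun x => (v j x + ∑ i, |v i x|).toNat), ?_⟩
  intro j x
  have h1 : |v j x| ≤ ∑ i, |v i x| :=
    Finset.single_le_sum (f := fun i => |v i x|) (fun i _ => abs_nonneg _) (Finset.mem_univ j)
  have h2 := neg_abs_le (v j x)
  simp only [Finsupp.coe_equivFunOnFinite_symm]
  rw [Int.toNat_of_nonneg (by linarith)]

theorem lift_relation {k : ℕ} (l : Ultrafilter ℕ) {r : ℕ → Fin k → ℤ} (hr : Free (l : Filter ℕ) r)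
    (F G : MvPolynomial (Fin k) ℤ) (m : ℕ) {a b : ℕ → LZ}
    (h : ∀ᶠ n in (l : Filter ℕ), a n ≠ 0 ∧ Small m (a n) ∧ Small m (b n) ∧
      a n * sp (r n) G = b n * sp (r n) F) :
    ∃ α β : MvPolynomial (Fin k) ℤ, α ≠ 0 ∧ α.support.card ≤ m ∧ (∀ s, |α.coeff s| ≤ m) ∧
      α * G = β * F := by
  classical
  obtain ⟨p, c, e, hp, hc, he⟩ := C09_param l m (h.mono fun n hn => hn.2.1)
  obtain ⟨q, d, f, hq, hd, hf⟩ := C09_param l m (h.mono fun n hn => hn.2.2.1)
  -- there is a first index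
  have hp0 : 0 < p := by
    rcases Nat.eq_zero_or_pos p with h0 | h0
    · exfalso
      obtain ⟨n, hn1, hn2⟩ := (h.and he).exists
      apply hn1.1
      rw [hn2.2]
      subst h0
      simp
    · exact h0
  let i0 : Fin p := ⟨0, hp0⟩
  let g : ℕ → ℤ := e i0
  let hh : Fin p ⊕ Fin q → ℕ → ℤ := Sum.elim e f
  let R : Fin p ⊕ Fin q → MvPolynomial (Fin k) ℤ :=
    Sum.elim (fun i => MvPolynomial.C (c i) * G) (fun j => -(MvPolynomial.C (d j) * F))
  let I : Finset (Fin p ⊕ Fin q) := Finset.univ.filter fun j =>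
    ∃ v : Fin k → ℤ, ∀ᶠ n in (l : Filter ℕ), hh j n = g n + dt v (r n)
  have hI : ∀ j ∈ I, ∃ v : Fin k → ℤ, ∀ᶠ n in (l : Filter ℕ), hh j n = g n + dt v (r n) := by
    intro j hj
    exact (Finset.mem_filter.mp hj).2
  have hI' : ∀ j, j ∉ I → ∀ w : Fin k → ℤ, ∀ᶠ n in (l : Filter ℕ),
      hh j n ≠ g n + dt w (r n) := by
    intro j hj w
    rw [Ultrafilter.eventually_not]
    intro hcon
    exact hj (Finset.mem_filter.mpr ⟨Finset.mem_univ _, w, hcon⟩)
  have hi0 : (Sum.inl i0 : Fin p ⊕ Fin q) ∈ I := by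
    refine Finset.mem_filter.mpr ⟨Finset.mem_univ _, 0, Filter.Eventually.of_forall fun n => ?_⟩
    rw [dt_zero, add_zero]
    rfl
  have hv : ∃ v : Fin p ⊕ Fin q → Fin k → ℤ, ∀ j ∈ I, ∀ᶠ n in (l : Filter ℕ),
      hh j n = g n + dt (v j) (r n) := by
    choose! v hv using hI
    exact ⟨v, hv⟩
  obtain ⟨v, hv⟩ := hv
  obtain ⟨V, w, hw⟩ := C09_shift v
  have hspC : ∀ (x : ℤ) (n : ℕ), sp (r n) (MvPolynomial.C x) = LaurentPolynomial.C x := by
    intro x n
    have := sp_monomial (r n) 0 x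
    rw [wt_zero, T_zero, mul_one] at this
    exact this
  -- the relation in terms of `hh` and `R`
  have hrel : ∀ᶠ n in (l : Filter ℕ), ∑ j, T (hh j n) * sp (r n) (R j) = 0 := by
    filter_upwards [h, he, hf] with n hn hn1 hn2
    rw [Fintype.sum_sum_type]
    simp only [hh, R, Sum.elim_inl, Sum.elim_inr, map_neg, map_mul, hspC]
    have h1 : ∑ i, T (e i n) * (LaurentPolynomial.C (c i) * sp (r n) G) = a n * sp (r n) G := by
      rw [hn1.2, Finset.sum_mul]
      exact Finset.sum_congr rfl fun i _ => by ring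
    have h2 : ∑ j, T (f j n) * -(LaurentPolynomial.C (d j) * sp (r n) F)
        = -(b n * sp (r n) F) := by
      rw [hn2.2, Finset.sum_mul, ← Finset.sum_neg_distrib]
      exact Finset.sum_congr rfl fun i _ => by ring
    rw [h1, h2, hn.2.2.2]
    ring
  have hproj := C09_proj l hh R hrel I v g hv hI'
  -- weights of the shifted vectors
  have hwt : ∀ n j, wt (r n) (w j) = dt (v j) (r n) + dt V (r n) := by
    intro n j
    rw [wt_eq_dt, ← dt_add]
    congr 1
    ext x
    exact hw j x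
  let I1 : Finset (Fin p) := Finset.univ.filter (fun i : Fin p => Sum.inl i ∈ I)
  let I2 : Finset (Fin q) := Finset.univ.filter (fun j : Fin q => Sum.inr j ∈ I)
  have hI1 : ∀ i ∈ I1, (Sum.inl i : Fin p ⊕ Fin q) ∈ I := fun i hi => (Finset.mem_filter.mp hi).2
  have hI2 : ∀ i ∈ I2, (Sum.inr i : Fin p ⊕ Fin q) ∈ I := fun i hi => (Finset.mem_filter.mp hi).2
  -- the shifted vectors of the first half are distinct
  have hinj : ∀ i ∈ I1, ∀ i' ∈ I1, w (Sum.inl i) = w (Sum.inl i') → i = i' := by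
    intro i hi i' hi' hii
    have h1 : v (Sum.inl i) = v (Sum.inl i') := by
      ext x
      have h2 := hw (Sum.inl i) x
      have h3 := hw (Sum.inl i') x
      rw [hii] at h2
      linarith
    obtain ⟨n, hn⟩ := (he.and ((hv _ (hI1 i hi)).and (hv _ (hI1 i' hi')))).exists
    apply hn.1.1
    have h2 : e i n = g n + dt (v (Sum.inl i)) (r n) := hn.2.1
    have h3 : e i' n = g n + dt (v (Sum.inl i')) (r n) := hn.2.2
    show e i n = e i' n
    rw [h2, h3, h1]
  let α : MvPolynomial (Fin k) ℤ := ∑ i ∈ I1, monomial (w (Sum.inl i)) (c i)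
  let β : MvPolynomial (Fin k) ℤ := ∑ j ∈ I2, monomial (w (Sum.inr j)) (d j)
  have hcoeff : ∀ i ∈ I1, α.coeff (w (Sum.inl i)) = c i := by
    intro i hi
    show (∑ i ∈ I1, monomial (w (Sum.inl i)) (c i)).coeff (w (Sum.inl i)) = c i
    rw [MvPolynomial.coeff_sum, Finset.sum_eq_single i]
    · rw [MvPolynomial.coeff_monomial, if_pos rfl]
    · intro i' hi' hne
      rw [MvPolynomial.coeff_monomial, if_neg]
      intro hcon
      exact hne (hinj i' hi' i hi hcon)
    · intro hcon
      exact absurd hi hcon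
  have hcoeff0 : ∀ s, s ∉ I1.image (fun i => w (Sum.inl i)) → α.coeff s = 0 := by
    intro s hs
    show (∑ i ∈ I1, monomial (w (Sum.inl i)) (c i)).coeff s = 0
    rw [MvPolynomial.coeff_sum]
    refine Finset.sum_eq_zero fun i hi => ?_
    rw [MvPolynomial.coeff_monomial, if_neg]
    intro hcon
    exact hs (Finset.mem_image.mpr ⟨i, hi, hcon⟩)
  have hi0' : i0 ∈ I1 := Finset.mem_filter.mpr ⟨Finset.mem_univ _, hi0⟩
  refine ⟨α, β, ?_, ?_, ?_, ?_⟩
  · intro h0
    have h1 := hcoeff i0 hi0'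
    rw [h0, MvPolynomial.coeff_zero] at h1
    exact (hc i0).1 h1.symm
  · have hsub : α.support ⊆ I1.image (fun i => w (Sum.inl i)) := by
      intro s hs
      by_contra hcon
      exact (MvPolynomial.mem_support_iff.mp hs) (hcoeff0 s hcon)
    calc α.support.card ≤ (I1.image (fun i => w (Sum.inl i))).card := Finset.card_le_card hsub
      _ ≤ I1.card := Finset.card_image_le
      _ ≤ (Finset.univ : Finset (Fin p)).card := Finset.card_filter_le _ _
      _ = p := by simp
      _ ≤ m := hp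
  · intro s
    by_cases hs : s ∈ I1.image (fun i => w (Sum.inl i))
    · obtain ⟨i, hi, rfl⟩ := Finset.mem_image.mp hs
      rw [hcoeff i hi]
      exact (hc i).2
    · rw [hcoeff0 s hs]
      simp
  · rw [← sub_eq_zero]
    refine hr.eq_zero (Filter.Eventually.frequently ?_)
    have hv' : ∀ᶠ n in (l : Filter ℕ), ∀ j ∈ I, hh j n = g n + dt (v j) (r n) := by
      rw [Filter.eventually_all_finset]
      exact hv
    filter_upwards [hproj, hv'] with n hn hn1
    rw [C09_sum_split I] at hn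
    simp only [hh, R, Sum.elim_inl, Sum.elim_inr, map_neg, map_mul, hspC] at hn hn1
    rw [map_sub, map_mul, map_mul]
    have hα : sp (r n) α = T (dt V (r n) - g n) *
        ∑ i ∈ I1, LaurentPolynomial.C (c i) * T (e i n) := by
      show sp (r n) (∑ i ∈ I1, monomial (w (Sum.inl i)) (c i)) = _
      rw [map_sum, Finset.mul_sum]
      refine Finset.sum_congr rfl fun i hi => ?_
      have h1 : e i n = g n + dt (v (Sum.inl i)) (r n) := hn1 _ (hI1 i hi)
      rw [sp_monomial, hwt, h1, mul_left_comm, ← T_add]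
      congr 2
      ring
    have hβ : sp (r n) β = T (dt V (r n) - g n) *
        ∑ j ∈ I2, LaurentPolynomial.C (d j) * T (f j n) := by
      show sp (r n) (∑ j ∈ I2, monomial (w (Sum.inr j)) (d j)) = _
      rw [map_sum, Finset.mul_sum]
      refine Finset.sum_congr rfl fun i hi => ?_
      have h1 : f i n = g n + dt (v (Sum.inr i)) (r n) := hn1 _ (hI2 i hi)
      rw [sp_monomial, hwt, h1, mul_left_comm, ← T_add]
      congr 2
      ring
    have h1 : ∑ i ∈ I1, T (e i n) * (LaurentPolynomial.C (c i) * sp (r n) G)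
        = (∑ i ∈ I1, LaurentPolynomial.C (c i) * T (e i n)) * sp (r n) G := by
      rw [Finset.sum_mul]
      exact Finset.sum_congr rfl fun i _ => by ring
    have h2 : ∑ j ∈ I2, T (f j n) * -(LaurentPolynomial.C (d j) * sp (r n) F)
        = -((∑ j ∈ I2, LaurentPolynomial.C (d j) * T (f j n)) * sp (r n) F) := by
      rw [Finset.sum_mul, ← Finset.sum_neg_distrib]
      exact Finset.sum_congr rfl fun i _ => by ring
    have hn' : (∑ i ∈ I1, LaurentPolynomial.C (c i) * T (e i n)) * sp (r n) G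
        + -((∑ j ∈ I2, LaurentPolynomial.C (d j) * T (f j n)) * sp (r n) F) = 0 := by
      rw [← h1, ← h2]
      exact hn
    rw [hα, hβ]
    linear_combination (T (dt V (r n) - g n) : LZ) * hn'

end Pool.Agent.NRC
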