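import Pool.Agent.NRC.C06Appr
import Pool.Agent.NRC.C09Sort

/-!
# Module C10Sp: Theorem SP

PROOF. `m` from `sp_one (T + 1)`. `approx_seq` for `F`: eventually `ml (P n) ≤ T + 1`, so there are small `a n, b n` with
`a n * Q n = b n * P n`, so `a n * sp (r n) Fh = b n * sp (r n) F` (multiply by `g n`). `lift_relation` along an ultrafilter
`l ≤ atTop`: `α * Fh = β * F`, `α ≠ 0`. `IsRelPrime F Fh` gives `F ∣ α`.
-/

open MvPolynomial LaurentPolynomial MeasureTheory Filter Topology Pool.Agent.H27Mahler Pool.Agent.SpCl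

namespace Pool.Agent.NRC

theorem sp_several (T : ℝ) : ∃ m : ℕ, ∀ (k : ℕ) (F : MvPolynomial (Fin k) ℤ), F ≠ 0 →
    IsRelPrime F (rev (degs F) F) → mm F ≤ T →
    ∃ α : MvPolynomial (Fin k) ℤ, α ≠ 0 ∧ F ∣ α ∧ α.support.card ≤ m ∧ ∀ s, |α.coeff s| ≤ m := by
  classical
  obtain ⟨m, hm⟩ := sp_one (T + 1)
  refine ⟨m, fun k F hF hrel hT => ?_⟩
  obtain ⟨r, g, P, Q, hfree, hev, hlim⟩ := approx_seq hF hrel
  have h1 : ∀ᶠ n in atTop, ml (P n) ≤ T + 1 := by
    filter_upwards [hlim.eventually_lt_const (show mm F < T + 1 by linarith)] with n hn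
    exact hn.le
  have hl : ((hyperfilter ℕ : Ultrafilter ℕ) : Filter ℕ) ≤ atTop := by
    rw [← Nat.cofinite_eq_atTop]
    exact hyperfilter_le_cofinite
  have hex : ∀ n, ∃ a b : LZ, (Pr (P n) (Q n) ∧ ml (P n) ≤ T + 1) →
      a ≠ 0 ∧ Small m a ∧ Small m b ∧ a * Q n = b * P n := by
    intro n
    by_cases h : Pr (P n) (Q n) ∧ ml (P n) ≤ T + 1
    · obtain ⟨a, b, hab⟩ := hm (P n) (Q n) h.1 h.2
      exact ⟨a, b, fun _ => hab⟩
    · exact ⟨0, 0, fun h' => absurd h' h⟩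
  choose a b hab using hex
  have hfree' : Free ((hyperfilter ℕ : Ultrafilter ℕ) : Filter ℕ) r := fun t ht => hl (hfree t ht)
  obtain ⟨α, β, hα0, hα1, hα2, hαβ⟩ := lift_relation (hyperfilter ℕ) hfree' F
    (rev (degs F) F) m (a := a) (b := b) (by
      have h2 : ∀ᶠ n in atTop, a n ≠ 0 ∧ Small m (a n) ∧ Small m (b n) ∧
          a n * sp (r n) (rev (degs F) F) = b n * sp (r n) F := by
        filter_upwards [hev, h1] with n hn hn1
        obtain ⟨hPr, -, hF1, hF2⟩ := hn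
        obtain ⟨ha, hs, hs', he⟩ := hab n ⟨hPr, hn1⟩
        refine ⟨ha, hs, hs', ?_⟩
        rw [hF1, hF2]
        calc a n * (g n * Q n) = g n * (a n * Q n) := by ring
          _ = g n * (b n * P n) := by rw [he]
          _ = b n * (g n * P n) := by ring
      exact hl h2)
  refine ⟨α, hα0, ?_, hα1, hα2⟩
  exact hrel.dvd_of_dvd_mul_right ⟨β, by rw [hαβ, mul_comm]⟩

end Pool.Agent.NRC
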