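import Pool.Agent.NRC.C04Nr
import Pool.Agent.NRC.C07Closed

/-!
# Module C11Red: reduction of the closedness conjecture to reciprocal polynomials
-/

open MvPolynomial MeasureTheory Filter Topology Pool.Agent.H27Mahler Pool.Agent.SpCl

namespace Pool.Agent.NRC

theorem recip_iff {σ : Type} {F : MvPolynomial σ ℤ} : Recip F ↔
    ∃ (e : σ →₀ ℕ) (u : ℤ), (u = 1 ∨ u = -1) ∧ (∀ s ∈ F.support, s ≤ e) ∧
      F = MvPolynomial.C u * rev e F := by
  constructor
  · rintro ⟨e, u, hu, he, h⟩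
    refine ⟨e, u, hu, he, ?_⟩
    ext s
    rw [coeff_C_mul]
    by_cases hs : s ≤ e
    · obtain ⟨s', hs'⟩ := exists_add_of_le hs
      rw [coeff_rev he hs'.symm]
      exact h s s' hs'.symm
    · have h1 : coeff s F = 0 := by
        by_contra hne
        exact hs (he s (mem_support_iff.mpr hne))
      have h2 : coeff s (rev e F) = 0 := by
        by_contra hne
        exact hs (support_rev_le s (mem_support_iff.mpr hne))
      rw [h1, h2, mul_zero]
  · rintro ⟨e, u, hu, he, h⟩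
    refine ⟨e, u, hu, he, fun s s' hss => ?_⟩
    conv_lhs => rw [h]
    rw [coeff_C_mul, coeff_rev he hss]

theorem recip_mul {σ : Type} {F G : MvPolynomial σ ℤ} (hF : Recip F) (hG : Recip G) :
    Recip (F * G) := by
  obtain ⟨e, u, hu, he, h⟩ := recip_iff.mp hF
  obtain ⟨e', u', hu', he', h'⟩ := recip_iff.mp hG
  refine recip_iff.mpr ⟨e + e', u * u', ?_, le_add_of_mem_support_mul he he', ?_⟩
  · rcases hu with rfl | rfl <;> rcases hu' with rfl | rfl <;> simp
  · rw [rev_mul he he']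
    conv_lhs => rw [h, h']
    rw [map_mul]
    ring

theorem recip_one {σ : Type} [Fintype σ] : Recip (1 : MvPolynomial σ ℤ) := by
  have := monomial_recip (0 : σ →₀ ℕ) 1
  rwa [show (monomial (0 : σ →₀ ℕ) (1 : ℤ)) = 1 from rfl] at this

theorem recip_of_associated {σ : Type} [Fintype σ] {F G : MvPolynomial σ ℤ} (h : Associated F G)
    (hF : Recip F) : Recip G := by
  obtain ⟨u, rfl⟩ := h
  refine recip_mul hF ?_
  obtain ⟨c, hc, hcu⟩ := MvPolynomial.isUnit_iff_eq_C_of_isReduced.mp u.isUnit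
  have := monomial_recip (0 : σ →₀ ℕ) c
  rw [hcu]
  exact this

theorem totalDegree_of_associated {σ : Type} {F G : MvPolynomial σ ℤ} (h : Associated F G)
    (hF : F ≠ 0) : F.totalDegree = G.totalDegree := by
  obtain ⟨u, rfl⟩ := h
  obtain ⟨c, hc, hcu⟩ := MvPolynomial.isUnit_iff_eq_C_of_isReduced.mp u.isUnit
  have hc0 : (MvPolynomial.C c : MvPolynomial σ ℤ) ≠ 0 := by
    intro h0
    rw [h0] at hcu
    exact u.ne_zero hcu
  rw [hcu, totalDegree_mul_of_isDomain hF hc0, totalDegree_C, add_zero]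

theorem mm_of_associated {σ : Type} [Fintype σ] {F G : MvPolynomial σ ℤ} (h : Associated F G)
    (hF : F ≠ 0) : mm F = mm G := by
  obtain ⟨u, rfl⟩ := h
  rw [mm_mul hF u.ne_zero, mm_unit u.isUnit, add_zero]

/-- every polynomial is the product of a reciprocal one and one without reciprocal factors -/
theorem exists_split {σ : Type} [Fintype σ] {F : MvPolynomial σ ℤ} (hF : F ≠ 0) :
    ∃ G H : MvPolynomial σ ℤ, G ≠ 0 ∧ H ≠ 0 ∧ F = G * H ∧ Nr G ∧ Recip H := by
  classical
  refine WfDvdMonoid.induction_on_irreducible (motive := fun F : MvPolynomial σ ℤ =>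
    F ≠ 0 → ∃ G H : MvPolynomial σ ℤ, G ≠ 0 ∧ H ≠ 0 ∧ F = G * H ∧ Nr G ∧ Recip H) F ?_ ?_ ?_ hF
  · intro h; exact absurd rfl h
  · intro u hu hu0
    refine ⟨u, 1, hu0, one_ne_zero, by rw [mul_one], fun P hP hPu => ?_, recip_one⟩
    exact absurd (isUnit_of_dvd_unit hPu hu) hP.not_isUnit
  · intro a i ha hi ih _
    obtain ⟨G, H, hG, hH, hGH, hN, hR⟩ := ih ha
    by_cases hc : i.totalDegree ≠ 0 ∧ mm i ≠ 0 ∧ Recip i
    · refine ⟨G, i * H, hG, mul_ne_zero hi.ne_zero hH, by rw [hGH]; ring, hN,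
        recip_mul hc.2.2 hR⟩
    · refine ⟨i * G, H, mul_ne_zero hi.ne_zero hG, hH, by rw [hGH]; ring, ?_, hR⟩
      intro P hP hPd hdeg hm hrec
      rcases hP.prime.dvd_or_dvd hPd with h1 | h1
      · have h2 : Associated P i := hP.associated_of_dvd hi h1
        apply hc
        refine ⟨?_, ?_, recip_of_associated h2 hrec⟩
        · rwa [← totalDegree_of_associated h2 hP.ne_zero]
        · rwa [← mm_of_associated h2 hP.ne_zero]
      · exact hN P hP h1 hdeg hm hrec

/-- measures multiply -/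
theorem exists_prod {k k' : ℕ} {F : MvPolynomial (Fin k) ℤ} {G : MvPolynomial (Fin k') ℤ}
    (hF : F ≠ 0) (hG : G ≠ 0) :
    ∃ H : MvPolynomial (Fin (k + k')) ℤ, H ≠ 0 ∧ mm H = mm F + mm G := by
  have hi : Function.Injective (Fin.castAdd k' : Fin k → Fin (k + k')) := Fin.castAdd_injective _ _
  have hi' : Function.Injective (Fin.natAdd k : Fin k' → Fin (k + k')) := Fin.natAdd_injective _ _
  have h1 : rename (Fin.castAdd k' : Fin k → Fin (k + k')) F ≠ 0 := by
    intro h
    exact hF ((map_eq_zero_iff _ (rename_injective _ hi)).mp h)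
  have h2 : rename (Fin.natAdd k : Fin k' → Fin (k + k')) G ≠ 0 := by
    intro h
    exact hG ((map_eq_zero_iff _ (rename_injective _ hi')).mp h)
  exact ⟨_, mul_ne_zero h1 h2, by rw [mm_mul h1 h2, mm_rename _ hi, mm_rename _ hi']⟩

/-- limits of logarithmic measures: a limit is a sum of the measure of a polynomial without
reciprocal factors and a limit of measures of reciprocal polynomials -/
theorem limit_split {k : ℕ → ℕ} (F : ∀ n, MvPolynomial (Fin (k n)) ℤ) (hF : ∀ n, F n ≠ 0) {x : ℝ}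
    (hx : Tendsto (fun n => mm (F n)) atTop (𝓝 x)) :
    ∃ (K : ℕ) (G : MvPolynomial (Fin K) ℤ) (y : ℝ), G ≠ 0 ∧ Nr G ∧ x = mm G + y ∧
      ∃ (k' : ℕ → ℕ) (H : ∀ n, MvPolynomial (Fin (k' n)) ℤ), (∀ n, H n ≠ 0) ∧
        (∀ n, Recip (H n)) ∧ Tendsto (fun n => mm (H n)) atTop (𝓝 y) := by
  choose G H hG hH hGH hN hR using fun n => exists_split (hF n)
  have hsum : ∀ n, mm (F n) = mm (G n) + mm (H n) := fun n => by
    conv_lhs => rw [hGH n]
    exact mm_mul (hG n) (hH n)
  obtain ⟨C, hC⟩ : ∃ C, ∀ n, mm (F n) ≤ C := by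
    obtain ⟨C, hC⟩ := hx.bddAbove_range
    exact ⟨C, fun n => hC ⟨n, rfl⟩⟩
  have hGC : ∀ n, mm (G n) ∈ Set.Icc 0 C := fun n =>
    ⟨mm_nonneg _, by have := hsum n; have := hC n; have := mm_nonneg (H n); linarith⟩
  obtain ⟨z, -, φ, hφ, hz⟩ := (isCompact_Icc (a := (0 : ℝ)) (b := C)).tendsto_subseq hGC
  obtain ⟨K, G', hG', hN', hm⟩ := closed_mm (fun n => G (φ n)) (fun n => hG _) (fun n => hN _) hz
  refine ⟨K, G', x - z, hG', hN', by rw [hm]; ring, fun n => k (φ n), fun n => H (φ n),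
    fun n => hH _, fun n => hR _, ?_⟩
  have h1 := (hx.comp hφ.tendsto_atTop).sub hz
  refine h1.congr fun n => ?_
  simp only [Function.comp]
  rw [hsum]
  ring

end Pool.Agent.NRC
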