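import Pool.Agent.NRC.C10Sp
import Pool.Agent.NRC.C11Red

/-!
# Module C12SpAll: the nonreciprocal part of any polynomial divides a small sparse polynomial
-/

open MvPolynomial MeasureTheory Filter Topology Pool.Agent.H27Mahler Pool.Agent.SpCl

namespace Pool.Agent.NRC

theorem card_support_mul_le {σ : Type} (F G : MvPolynomial σ ℤ) :
    (F * G).support.card ≤ F.support.card * G.support.card := by
  classical
  exact (Finset.card_le_card (support_mul F G)).trans Finset.card_add_le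

theorem abs_coeff_mul_le {σ : Type} {F G : MvPolynomial σ ℤ} {m a b : ℕ}
    (hF : F.support.card ≤ m) (hFa : ∀ s, |F.coeff s| ≤ a) (hGb : ∀ s, |G.coeff s| ≤ b)
    (s : σ →₀ ℕ) : |(F * G).coeff s| ≤ ((m * a * b : ℕ) : ℤ) := by
  classical
  have h1 : (F * G).coeff s = ∑ t ∈ F.support, (monomial t (F.coeff t) * G).coeff s := by
    conv_lhs => rw [F.as_sum, Finset.sum_mul, coeff_sum]
  rw [h1]
  refine (Finset.abs_sum_le_sum_abs _ _).trans ?_
  have h2 : ∀ t ∈ F.support, |(monomial t (F.coeff t) * G).coeff s| ≤ (a : ℤ) * b := by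
    intro t _
    rw [coeff_monomial_mul']
    split_ifs
    · rw [abs_mul]
      exact mul_le_mul (hFa t) (hGb _) (abs_nonneg _) (by positivity)
    · rw [abs_zero]; positivity
  refine (Finset.sum_le_sum h2).trans ?_
  rw [Finset.sum_const, nsmul_eq_mul]
  push_cast
  rw [mul_assoc]
  exact mul_le_mul_of_nonneg_right (by exact_mod_cast hF) (by positivity)

theorem sp_all_step {k : ℕ} {T : ℝ} {m : ℕ}
    (hm : ∀ F : MvPolynomial (Fin k) ℤ, F ≠ 0 → IsRelPrime F (rev (degs F) F) → mm F ≤ T →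
      ∃ α : MvPolynomial (Fin k) ℤ, α ≠ 0 ∧ F ∣ α ∧ α.support.card ≤ m ∧ ∀ s, |α.coeff s| ≤ m)
    (F : MvPolynomial (Fin k) ℤ) (hF : F ≠ 0) (hT : mm F ≤ T) :
    ∃ (H R G : MvPolynomial (Fin k) ℤ) (r : ℕ), F = H * R ∧
      (∀ P, Irreducible P → P ∣ R → Recip P) ∧ G ≠ 0 ∧ H ∣ G ∧ r * c0 ≤ mm F ∧
      G.support.card ≤ m ^ r ∧ ∀ s, |G.coeff s| ≤ ((m * m) ^ r : ℕ) := by
  classical
  refine WfDvdMonoid.induction_on_irreducible (motive := fun F : MvPolynomial (Fin k) ℤ =>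
    F ≠ 0 → mm F ≤ T → ∃ (H R G : MvPolynomial (Fin k) ℤ) (r : ℕ), F = H * R ∧
      (∀ P, Irreducible P → P ∣ R → Recip P) ∧ G ≠ 0 ∧ H ∣ G ∧ r * c0 ≤ mm F ∧
      G.support.card ≤ m ^ r ∧ ∀ s, |G.coeff s| ≤ ((m * m) ^ r : ℕ)) F ?_ ?_ ?_ hF hT
  · intro h; exact absurd rfl h
  · intro u hu _ _
    refine ⟨1, u, 1, 0, by rw [one_mul], fun P hP hPu => ?_, one_ne_zero, dvd_rfl, ?_, ?_, ?_⟩
    · exact absurd (isUnit_of_dvd_unit hPu hu) hP.not_isUnit
    · have := mm_nonneg u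
      simpa using this
    · rw [pow_zero, ← C_1]
      have := support_monomial_subset (R := ℤ) (a := 1) (s := (0 : Fin k →₀ ℕ))
      exact (Finset.card_le_card this).trans (by simp)
    · intro s
      rw [pow_zero, coeff_one]
      split_ifs <;> simp
  · intro a i ha hi ih _ hT'
    have hmul := mm_mul hi.ne_zero ha
    have hni := mm_nonneg i
    have hna := mm_nonneg a
    obtain ⟨H, R, G, r, hHR, hR, hG, hHG, hr, hc, hs⟩ := ih ha (by linarith)
    by_cases hrec : Recip i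
    · refine ⟨H, i * R, G, r, by rw [hHR]; ring, fun P hP hPd => ?_, hG, hHG, by linarith, hc, hs⟩
      rcases hP.prime.dvd_or_dvd hPd with h1 | h1
      · exact recip_of_associated (hP.associated_of_dvd hi h1).symm hrec
      · exact hR P hP h1
    · have h1 : IsRelPrime i (rev (degs i) i) :=
        hi.isRelPrime_iff_not_dvd.mpr (not_dvd_rev hi.ne_zero hrec)
      obtain ⟨α, hα, hiα, hcα, hsα⟩ := hm i hi.ne_zero h1 (by linarith)
      have h2 := mm_nonrecip_ge hi hrec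
      refine ⟨i * H, R, α * G, r + 1, by rw [hHR]; ring, hR, mul_ne_zero hα hG,
        mul_dvd_mul hiα hHG, ?_, ?_, ?_⟩
      · push_cast
        rw [hmul]
        linarith
      · refine (card_support_mul_le α G).trans ?_
        rw [pow_succ, mul_comm]
        exact Nat.mul_le_mul hc hcα
      · intro s
        have h3 := abs_coeff_mul_le hcα hsα hs s
        rwa [show m * m * (m * m) ^ r = (m * m) ^ (r + 1) by ring] at h3

theorem sp_all (T : ℝ) : ∃ m : ℕ, ∀ (k : ℕ) (F : MvPolynomial (Fin k) ℤ), F ≠ 0 → mm F ≤ T →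
    ∃ H R G : MvPolynomial (Fin k) ℤ, F = H * R ∧ (∀ P, Irreducible P → P ∣ R → Recip P) ∧
      G ≠ 0 ∧ H ∣ G ∧ G.support.card ≤ m ∧ ∀ s, |G.coeff s| ≤ m := by
  obtain ⟨m0, hm0⟩ := sp_several T
  set m := m0 + 1 with hmdef
  have hm1 : 1 ≤ m := by omega
  refine ⟨(m * m) ^ ⌈T / c0⌉₊, fun k F hF hT => ?_⟩
  obtain ⟨H, R, G, r, h1, h2, h3, h4, h5, h6, h7⟩ := sp_all_step (T := T) (m := m)
    (fun F' hF' hrel' hT' => by
      obtain ⟨α, g1, g2, g3, g4⟩ := hm0 k F' hF' hrel' hT'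
      exact ⟨α, g1, g2, g3.trans (by omega), fun s => (g4 s).trans (by push_cast [hmdef]; omega)⟩)
    F hF hT
  have hr : r ≤ ⌈T / c0⌉₊ := by
    have h8 : (r : ℝ) ≤ T / c0 := by
      rw [le_div_iff₀ c0_pos]; linarith
    exact_mod_cast h8.trans (Nat.le_ceil _)
  have hle : (m * m) ^ r ≤ (m * m) ^ ⌈T / c0⌉₊ := Nat.pow_le_pow_right (by positivity) hr
  refine ⟨H, R, G, h1, h2, h3, h4, h6.trans ?_, fun s => (h7 s).trans (by exact_mod_cast hle)⟩
  refine le_trans ?_ hle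
  exact Nat.pow_le_pow_left (Nat.le_mul_self m) r

end Pool.Agent.NRC
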