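import Mathlib
import Pool.Agent.SpCl.A07Limit

/-!
# Nonreciprocal polynomials: basic definitions

Laurent polynomials `LZ = ℤ[T;T⁻¹]`, the specialisations `sp γ : x_i ↦ T ^ γ_i`, the coefficients
`cf q P e` of the product `q P` with a real polynomial `q`, and the relation `Bd P Q M`.
-/

open MvPolynomial LaurentPolynomial

namespace Pool.Agent.NRC

/-- integer Laurent polynomials in one variable -/
abbrev LZ : Type := LaurentPolynomial ℤ

/-- weight of an exponent -/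
def wt {K : ℕ} (γ : Fin K → ℤ) (s : Fin K →₀ ℕ) : ℤ := ∑ i, (s i : ℤ) * γ i

/-- pairing of integer vectors -/
def dt {K : ℕ} (t γ : Fin K → ℤ) : ℤ := ∑ i, t i * γ i

theorem wt_zero {K : ℕ} (γ : Fin K → ℤ) : wt γ 0 = 0 := by simp [wt]

theorem wt_add {K : ℕ} (γ : Fin K → ℤ) (s t : Fin K →₀ ℕ) : wt γ (s + t) = wt γ s + wt γ t := by
  simp [wt, add_mul, Finset.sum_add_distrib]

theorem dt_add {K : ℕ} (γ s t : Fin K → ℤ) : dt (s + t) γ = dt s γ + dt t γ := by
  simp [dt, add_mul, Finset.sum_add_distrib]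

theorem dt_sub {K : ℕ} (γ s t : Fin K → ℤ) : dt (s - t) γ = dt s γ - dt t γ := by
  simp [dt, sub_mul, Finset.sum_sub_distrib]

theorem dt_zero {K : ℕ} (γ : Fin K → ℤ) : dt 0 γ = 0 := by simp [dt]

theorem wt_eq_dt {K : ℕ} (γ : Fin K → ℤ) (s : Fin K →₀ ℕ) : wt γ s = dt (fun i => (s i : ℤ)) γ :=
  rfl

/-- the specialisation `x_i ↦ T ^ γ_i` -/
noncomputable def sp {K : ℕ} (γ : Fin K → ℤ) : MvPolynomial (Fin K) ℤ →ₐ[ℤ] LZ :=
  MvPolynomial.aeval fun i => (T (γ i) : LZ)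

theorem T_sum {K : ℕ} (u : Finset (Fin K)) (f : Fin K → ℤ) :
    (T (∑ i ∈ u, f i) : LZ) = ∏ i ∈ u, T (f i) := by
  induction u using Finset.cons_induction with
  | empty => simp
  | cons a u ha ih => rw [Finset.sum_cons, Finset.prod_cons, T_add, ih]

theorem sp_monomial {K : ℕ} (γ : Fin K → ℤ) (s : Fin K →₀ ℕ) (c : ℤ) :
    sp γ (monomial s c) = LaurentPolynomial.C c * T (wt γ s) := by
  rw [sp, aeval_monomial, wt, T_sum, Finsupp.prod_fintype _ _ (by simp)]
  simp [LaurentPolynomial.algebraMap_apply]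

theorem coeff_monomial_mul (c e n : ℤ) (P : LZ) :
    (LaurentPolynomial.C c * T n * P).coeff e = c * P.coeff (e - n) := by
  rw [← single_eq_C_mul_T, AddMonoidAlgebra.coeff_single_mul_apply]
  congr 2
  ring

theorem coeff_mul_T (P : LZ) (n e : ℤ) : (P * T n).coeff e = P.coeff (e - n) := by
  have := coeff_monomial_mul 1 e n P
  rw [map_one, one_mul, one_mul] at this
  rw [mul_comm, this]

theorem sp_eq_sum {K : ℕ} (γ : Fin K → ℤ) (A : MvPolynomial (Fin K) ℤ) :
    sp γ A = ∑ s ∈ A.support, LaurentPolynomial.C (A.coeff s) * T (wt γ s) := by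
  conv_lhs => rw [A.as_sum]
  rw [map_sum]
  exact Finset.sum_congr rfl fun s _ => sp_monomial γ s _

theorem coeff_sp_mul {K : ℕ} (γ : Fin K → ℤ) (A : MvPolynomial (Fin K) ℤ) (P : LZ) (e : ℤ) :
    (sp γ A * P).coeff e = ∑ s ∈ A.support, A.coeff s * P.coeff (e - wt γ s) := by
  rw [sp_eq_sum, Finset.sum_mul, AddMonoidAlgebra.coeff_sum, Finsupp.finsetSum_apply]
  exact Finset.sum_congr rfl fun s _ => coeff_monomial_mul _ _ _ _

theorem coeff_sp {K : ℕ} (γ : Fin K → ℤ) (A : MvPolynomial (Fin K) ℤ) (e : ℤ) :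
    (sp γ A).coeff e = ∑ s ∈ A.support, if wt γ s = e then A.coeff s else 0 := by
  rw [sp_eq_sum, AddMonoidAlgebra.coeff_sum, Finsupp.finsetSum_apply]
  refine Finset.sum_congr rfl fun s _ => ?_
  rw [← single_eq_C_mul_T, AddMonoidAlgebra.coeff_single, Finsupp.single_apply]

/-- injectivity of the weight on the support makes the specialisation non-zero -/
theorem sp_ne_zero {K : ℕ} {γ : Fin K → ℤ} {A : MvPolynomial (Fin K) ℤ} (hA : A ≠ 0)
    (hinj : Set.InjOn (wt γ) (A.support : Set (Fin K →₀ ℕ))) : sp γ A ≠ 0 := by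
  obtain ⟨s, hs⟩ := support_nonempty.mpr hA
  intro h
  have h1 := coeff_sp γ A (wt γ s)
  rw [h, Finset.sum_eq_single s] at h1
  · rw [if_pos rfl] at h1
    exact (mem_support_iff.mp hs) h1.symm
  · intro t ht hts
    rw [if_neg]
    intro hcon
    exact hts (hinj ht hs hcon)
  · intro hcon; exact absurd hs hcon

/-- coefficient at `e` of the product of the real polynomial `q` and the Laurent polynomial `P` -/
noncomputable def cf (q : Polynomial ℝ) (P : LZ) (e : ℤ) : ℝ :=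
  ∑ j ∈ q.support, q.coeff j * ((P.coeff (e - (j : ℤ)) : ℤ) : ℝ)

/-- there is a real polynomial `q` with constant term `1` such that the squared `ℓ²`-norms of `q P`
and `q Q` are at most `M` -/
def Bd (P Q : LZ) (M : ℝ) : Prop :=
  ∃ q : Polynomial ℝ, q.coeff 0 = 1 ∧ (∀ A : Finset ℤ, ∑ e ∈ A, (cf q P e) ^ 2 ≤ M) ∧
    ∀ A : Finset ℤ, ∑ e ∈ A, (cf q Q e) ^ 2 ≤ M

theorem Bd.mono {P Q : LZ} {M M' : ℝ} (h : Bd P Q M) (hM : M ≤ M') : Bd P Q M' := by
  obtain ⟨q, h0, h1, h2⟩ := h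
  exact ⟨q, h0, fun A => (h1 A).trans hM, fun A => (h2 A).trans hM⟩

/-- a family of integer vectors `γ_n` which is eventually free of every given linear relation -/
def Free {K : ℕ} (l : Filter ℕ) (γ : ℕ → Fin K → ℤ) : Prop :=
  ∀ t : Fin K → ℤ, t ≠ 0 → ∀ᶠ n in l, dt t (γ n) ≠ 0

theorem Free.injOn {K : ℕ} {l : Filter ℕ} {γ : ℕ → Fin K → ℤ} (h : Free l γ)
    (S : Finset (Fin K →₀ ℕ)) : ∀ᶠ n in l, Set.InjOn (wt (γ n)) (S : Set (Fin K →₀ ℕ)) := by
  have h1 : ∀ᶠ n in l, ∀ x ∈ S ×ˢ S, x.1 ≠ x.2 → wt (γ n) x.1 ≠ wt (γ n) x.2 := by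
    rw [Filter.eventually_all_finset]
    rintro ⟨s, t⟩ _
    by_cases hst : s = t
    · exact Filter.Eventually.of_forall fun n hne => absurd hst hne
    · have h2 : (fun i => (s i : ℤ) - (t i : ℤ)) ≠ (0 : Fin K → ℤ) := by
        intro h3
        apply hst
        ext i
        have := congrFun h3 i
        simp only [Pi.zero_apply] at this
        omega
      filter_upwards [h _ h2] with n hn _ heq
      apply hn
      have h4 := dt_sub (γ n) (fun i => (s i : ℤ)) (fun i => (t i : ℤ))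
      have h5 : dt (fun i => (s i : ℤ) - (t i : ℤ)) (γ n) = wt (γ n) s - wt (γ n) t := h4
      rw [h5, sub_eq_zero]
      exact heq
  filter_upwards [h1] with n hn s hs t ht heq
  by_contra hst
  exact hn (s, t) (Finset.mem_product.mpr ⟨hs, ht⟩) hst heq

theorem Free.sp_ne_zero {K : ℕ} {l : Filter ℕ} {γ : ℕ → Fin K → ℤ} (h : Free l γ)
    {A : MvPolynomial (Fin K) ℤ} (hA : A ≠ 0) : ∀ᶠ n in l, sp (γ n) A ≠ 0 := by
  filter_upwards [h.injOn A.support] with n hn
  exact NRC.sp_ne_zero hA hn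

/-- a polynomial whose specialisations vanish frequently is zero -/
theorem Free.eq_zero {K : ℕ} {l : Filter ℕ} {γ : ℕ → Fin K → ℤ} (h : Free l γ)
    {A : MvPolynomial (Fin K) ℤ} (hA : ∃ᶠ n in l, sp (γ n) A = 0) : A = 0 := by
  by_contra hne
  exact hA (h.sp_ne_zero hne)

end Pool.Agent.NRC
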