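import Mathlib

/-!
# Module N01Had: Hadamard's inequality for real matrices

PROOF of `det_gram_le`. `G = A Aᵀ` is positive semidefinite, `G_ii = ∑ j, A i j ^ 2`. If some `G_ii = 0` the row
`i` of `A` is zero and both sides are `0`. Otherwise let `D = diagonal (G_ii^(-1/2))`, `H = D G D = (D A) (D A)ᵀ`:
positive semidefinite with unit diagonal. `det H` = product, `trace H = card m` = sum of the (nonnegative)
eigenvalues, so `det H ≤ 1` by AM-GM (`Real.inner_le_nnorm_mul_nnorm` not needed; use
`Real.geom_mean_le_arith_mean` or `inner_prod_le..`, or `∏ λ ≤ exp (∑ (λ - 1)) = 1` from `x ≤ exp (x - 1)`,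
which is the quickest). `det H = det G * ∏ G_ii⁻¹`. (Matrix.IsHermitian.det_eq_prod_eigenvalues,
Matrix.IsHermitian.trace_eq_sum_eigenvalues.)
-/

open Matrix

namespace Pool.Agent.NRC

/-- the Gram matrix of unit rows has determinant at most one -/
private theorem det_gram_le_one {m n : Type} [Fintype m] [DecidableEq m] [Fintype n]
    (B : Matrix m n ℝ) (hB : ∀ i, ∑ j, B i j ^ 2 = 1) : (B * Bᵀ).det ≤ 1 := by
  have hps : (B * Bᵀ).PosSemidef := by
    have := Matrix.posSemidef_self_mul_conjTranspose B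
    rwa [Matrix.conjTranspose_eq_transpose_of_trivial] at this
  have h1 := hps.isHermitian.det_eq_prod_eigenvalues
  have h2 := hps.isHermitian.trace_eq_sum_eigenvalues
  have h3 : (B * Bᵀ).trace = Fintype.card m := by
    rw [Matrix.trace]
    have : ∀ i, (B * Bᵀ).diag i = 1 := by
      intro i
      rw [Matrix.diag_apply, Matrix.mul_apply, ← hB i]
      exact Finset.sum_congr rfl fun j _ => by rw [Matrix.transpose_apply, sq]
    rw [Finset.sum_congr rfl fun i _ => this i]
    simp
  rw [h1]
  calc ∏ i, ((hps.isHermitian.eigenvalues i : ℝ) : ℝ)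
      ≤ ∏ i, Real.exp (hps.isHermitian.eigenvalues i - 1) := by
        refine Finset.prod_le_prod (fun i _ => hps.eigenvalues_nonneg i) fun i _ => ?_
        have := Real.add_one_le_exp (hps.isHermitian.eigenvalues i - 1)
        simpa using this
    _ = Real.exp (∑ i, (hps.isHermitian.eigenvalues i - 1)) := (Real.exp_sum _ _).symm
    _ = 1 := by
        rw [Finset.sum_sub_distrib, Finset.sum_const, Finset.card_univ, nsmul_eq_mul, mul_one]
        have h4 : ∑ i, hps.isHermitian.eigenvalues i = (Fintype.card m : ℝ) := by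
          rw [← h3, h2]
          rfl
        rw [h4, sub_self, Real.exp_zero]

theorem det_gram_le {m n : Type} [Fintype m] [DecidableEq m] [Fintype n] (A : Matrix m n ℝ) :
    (A * Aᵀ).det ≤ ∏ i, ∑ j, A i j ^ 2 := by
  by_cases h0 : ∃ i, ∑ j, A i j ^ 2 = 0
  · obtain ⟨i, hi⟩ := h0
    have hz : ∀ j, A i j = 0 := by
      intro j
      have := (Finset.sum_eq_zero_iff_of_nonneg (fun j _ => sq_nonneg (A i j))).mp hi j
        (Finset.mem_univ j)
      exact pow_eq_zero_iff (two_ne_zero) |>.mp this
    rw [Matrix.det_eq_zero_of_row_eq_zero i (fun k => by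
      rw [Matrix.mul_apply]
      exact Finset.sum_eq_zero fun j _ => by rw [hz j, zero_mul])]
    exact Finset.prod_nonneg fun i _ => Finset.sum_nonneg fun j _ => sq_nonneg _
  · push Not at h0
    have hpos : ∀ i, 0 < ∑ j, A i j ^ 2 := fun i =>
      lt_of_le_of_ne (Finset.sum_nonneg fun j _ => sq_nonneg _) (h0 i).symm
    set r : m → ℝ := fun i => √(∑ j, A i j ^ 2) with hr
    have hrpos : ∀ i, 0 < r i := fun i => Real.sqrt_pos.mpr (hpos i)
    have hrsq : ∀ i, r i ^ 2 = ∑ j, A i j ^ 2 := fun i => Real.sq_sqrt (hpos i).le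
    set B : Matrix m n ℝ := Matrix.of fun i j => A i j / r i with hB
    have hB1 : ∀ i, ∑ j, B i j ^ 2 = 1 := by
      intro i
      have : ∀ j, B i j ^ 2 = A i j ^ 2 / r i ^ 2 := fun j => by
        rw [hB, Matrix.of_apply, div_pow]
      rw [Finset.sum_congr rfl fun j _ => this j, ← Finset.sum_div, hrsq i,
        div_self (h0 i)]
    have hAB : A = Matrix.diagonal r * B := by
      ext i j
      rw [Matrix.diagonal_mul, hB, Matrix.of_apply, mul_div_cancel₀ _ (hrpos i).ne']
    have hdet : (A * Aᵀ).det = (∏ i, r i ^ 2) * (B * Bᵀ).det := by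
      rw [hAB, Matrix.transpose_mul, Matrix.diagonal_transpose, Matrix.mul_assoc,
        ← Matrix.mul_assoc B, Matrix.det_mul, Matrix.det_mul, Matrix.det_diagonal,
        Finset.prod_pow]
      ring
    rw [hdet, ← Finset.prod_congr rfl fun i _ => hrsq i]
    exact mul_le_of_le_one_right (Finset.prod_nonneg fun i _ => sq_nonneg _)
      (det_gram_le_one B hB1)

theorem det_sq_le {m : Type} [Fintype m] [DecidableEq m] (A : Matrix m m ℝ) :
    A.det ^ 2 ≤ ∏ i, ∑ j, A i j ^ 2 := by
  have h := det_gram_le A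
  rwa [det_mul, det_transpose, ← sq] at h

end Pool.Agent.NRC
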