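import Pool.Agent.NRC.N03Row

/-!
# Module N04Ker: a small integer vector in the kernel

PROOF of `card_le_of_gram`: the rows `RE R E` are linearly independent over ℚ (if `y ᵥ* RE = 0` then `y ᵥ* (RE REᵀ) = 0`, so `y = 0`
by `h2`), so there are at most `card ι` of them.
PROOF of `exists_kernel` (Cramer). The rows are independent over ℚ (`h2`), rank `|E|`, so some `|E|` columns are
independent: there is `φ : E → ι` with non-zero minor `m = det (R e (φ e'))`; `φ` is injective (equal columns otherwise).
(E.g. from `Matrix.rank` = column rank: `exists_linearIndependent` / `Matrix.exists_submatrix..`, or Cauchy-Binet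
`Matrix.det_mul'`: `det (A Aᵀ)` is a sum over maps `φ : E → ι` of products with the minors, so some minor is non-zero.)
As `|E| < card ι` there is `i₀` outside the range of `φ`. Put `x i₀ = m`, `x (φ e') = - det` of the minor in
which the column `e'` is replaced by the column `i₀`, `x = 0` elsewhere: `∑ i, R e i x i = 0` for `e ∈ E` by Cramer's rule
(`Matrix.mulVec_cramer`: `A *ᵥ cramer A b = det A • b`, `cramer A b e' = det (A.updateCol e' b)`). The replaced minor is
the minor of the injective map `Function.update φ e' i₀`, so `h3` bounds it. `h1` gives all `e`. `x ≠ 0` as `m ≠ 0`.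
-/

open Matrix

namespace Pool.Agent.NRC

theorem card_le_of_gram {ι : Type} [Fintype ι] [DecidableEq ι] (R : ℤ → ι → ℤ) (E : Finset ℤ)
    (h2 : (RE R E * (RE R E)ᵀ).det ≠ 0) : E.card ≤ Fintype.card ι := by
  set A : Matrix E ι ℚ := (RE R E).map (Int.castRingHom ℚ) with hA
  have h3 : (A * Aᵀ).det ≠ 0 := by
    have h4 : A * Aᵀ = (RE R E * (RE R E)ᵀ).map (Int.castRingHom ℚ) := by
      rw [Matrix.map_mul, hA, Matrix.transpose_map]
    rw [h4]
    have h5 := (Int.castRingHom ℚ).map_det (RE R E * (RE R E)ᵀ)
    rw [RingHom.mapMatrix_apply] at h5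
    rw [← h5]
    simpa using h2
  have h4 : (A * Aᵀ).rank = Fintype.card E :=
    Matrix.rank_of_isUnit _ ((Matrix.isUnit_iff_isUnit_det _).mpr (isUnit_iff_ne_zero.mpr h3))
  have h5 : (A * Aᵀ).rank ≤ A.rank := Matrix.rank_mul_le_left A Aᵀ
  have h6 : A.rank ≤ Fintype.card ι := Matrix.rank_le_card_width A
  rw [h4, Fintype.card_coe] at h5
  exact h5.trans h6

/-- if the Gram determinant is non-zero then some minor is non-zero -/
theorem n04_exists_minor_ne_zero {ι : Type} [Fintype ι] [DecidableEq ι] (R : ℤ → ι → ℤ) (E : Finset ℤ)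
    (h2 : (RE R E * (RE R E)ᵀ).det ≠ 0) :
    ∃ φ : E → ι, (Matrix.of fun (e e' : E) => R e (φ e')).det ≠ 0 := by
  by_contra hcon
  push Not at hcon
  apply h2
  have h3 : (RE R E * (RE R E)ᵀ) = fun e : E => ∑ i, R e i • (fun e' : E => R e' i) := by
    funext e e'
    rw [Matrix.mul_apply, Finset.sum_apply]
    refine Finset.sum_congr rfl fun i _ => ?_
    simp [RE]
  rw [h3]
  have h4 := (Matrix.detRowAlternating (n := E) (R := ℤ)).toMultilinearMap.map_sum
    (fun (e : E) (i : ι) => R e i • (fun e' : E => R e' i))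
  have h5 : (Matrix.detRowAlternating (n := E) (R := ℤ)).toMultilinearMap
      (fun e : E => ∑ i, R e i • (fun e' : E => R e' i)) = 0 := by
    rw [h4]
    refine Finset.sum_eq_zero fun φ _ => ?_
    have h6 := (Matrix.detRowAlternating (n := E) (R := ℤ)).toMultilinearMap.map_smul_univ
      (fun e : E => R e (φ e)) (fun e e' : E => R e' (φ e))
    rw [h6]
    have h7 : (Matrix.detRowAlternating (n := E) (R := ℤ)).toMultilinearMap
        (fun e e' : E => R e' (φ e)) = (Matrix.of fun (e e' : E) => R e (φ e')).det := by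
      rw [← Matrix.det_transpose]
      rfl
    rw [h7, hcon φ, smul_zero]
  exact h5

theorem exists_kernel {ι : Type} [Fintype ι] [DecidableEq ι] (R : ℤ → ι → ℤ) (E : Finset ℤ) (B : ℝ)
    (h1 : ∀ x : ι → ℤ, (∀ e ∈ E, ∑ i, R e i * x i = 0) → ∀ e, ∑ i, R e i * x i = 0)
    (h2 : (RE R E * (RE R E)ᵀ).det ≠ 0)
    (h3 : ∀ φ : E → ι, Function.Injective φ →
      (((Matrix.of fun (e e' : E) => R e (φ e')).det : ℤ) : ℝ) ^ 2 ≤ B)
    (hcard : E.card < Fintype.card ι) :
    ∃ x : ι → ℤ, x ≠ 0 ∧ (∀ e, ∑ i, R e i * x i = 0) ∧ ∀ i, ((x i : ℤ) : ℝ) ^ 2 ≤ B := by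
  obtain ⟨φ, hφ⟩ := n04_exists_minor_ne_zero R E h2
  set M : Matrix E E ℤ := Matrix.of fun (e e' : E) => R e (φ e') with hM
  have hinj : Function.Injective φ := by
    intro a b hab
    by_contra hne
    apply hφ
    refine Matrix.det_zero_of_column_eq hne fun k => ?_
    simp [hM, hab]
  obtain ⟨i₀, hi₀⟩ : ∃ i₀ : ι, ∀ e, φ e ≠ i₀ := by
    by_contra hcon
    push Not at hcon
    have := Fintype.card_le_of_surjective φ hcon
    rw [Fintype.card_coe] at this
    omega
  set b : E → ℤ := fun e => R e i₀ with hb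
  have hB : 0 ≤ B := (sq_nonneg _).trans (h3 φ hinj)
  set x : ι → ℤ := fun i => (if i = i₀ then M.det else 0)
    - ∑ e' : E, if φ e' = i then M.cramer b e' else 0 with hx
  have hx0 : x i₀ = M.det := by
    rw [hx]
    simp only [if_true]
    rw [Finset.sum_eq_zero (fun e _ => if_neg (hi₀ e)), sub_zero]
  have hx1 : ∀ e, x (φ e) = - M.cramer b e := by
    intro e
    rw [hx]
    simp only [if_neg (hi₀ e), zero_sub]
    rw [Finset.sum_eq_single e]
    · rw [if_pos rfl]
    · intro e' _ hne
      exact if_neg fun h => hne (hinj h)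
    · intro h
      exact absurd (Finset.mem_univ e) h
  have hx2 : ∀ i, i ≠ i₀ → (∀ e, φ e ≠ i) → x i = 0 := by
    intro i hi hi'
    rw [hx]
    simp only [if_neg hi, zero_sub, neg_eq_zero]
    exact Finset.sum_eq_zero (fun e _ => if_neg (hi' e))
  refine ⟨x, ?_, ?_, ?_⟩
  · intro h
    rw [h] at hx0
    exact hφ hx0.symm
  · apply h1
    intro e he
    have h4 := congrFun (Matrix.mulVec_cramer M b) ⟨e, he⟩
    rw [Matrix.mulVec, dotProduct, Pi.smul_apply, smul_eq_mul] at h4
    have h5 : ∑ i, R e i * x i = R e i₀ * M.det - ∑ e' : E, R e (φ e') * M.cramer b e' := by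
      simp only [hx, mul_sub, Finset.sum_sub_distrib]
      congr 1
      · simp
      · simp only [Finset.mul_sum]
        rw [Finset.sum_comm]
        refine Finset.sum_congr rfl fun e' _ => ?_
        simp
    rw [h5]
    have h6 : ∑ e' : E, R e (φ e') * M.cramer b e' = M.det * R e i₀ := by
      exact h4
    rw [h6]
    ring
  · intro i
    by_cases hi : i = i₀
    · rw [hi, hx0]
      exact h3 φ hinj
    · by_cases hi' : ∃ e, φ e = i
      · obtain ⟨e, rfl⟩ := hi'
        rw [hx1 e, Int.cast_neg, neg_sq, Matrix.cramer_apply]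
        have h4 : M.updateCol e b
            = Matrix.of fun (a a' : E) => R a (Function.update φ e i₀ a') := by
          ext a a'
          rw [Matrix.updateCol_apply, Matrix.of_apply, Function.update_apply]
          split_ifs with h5
          · rfl
          · rfl
        rw [h4]
        apply h3
        intro a a' haa
        rw [Function.update_apply, Function.update_apply] at haa
        split_ifs at haa with h5 h6 h6
        · rw [h5, h6]
        · exact absurd haa.symm (hi₀ a')
        · exact absurd haa (hi₀ a)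
        · exact hinj haa
      · push Not at hi'
        rw [hx2 i hi hi']
        simpa using hB

end Pool.Agent.NRC
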