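import Mathlib

/-!
# Module N05Dual: duality inequality for Gram determinants

PROOF. Reindex rows `E ⊕ w ≃ ι` (`hcard`, `Fintype.equivOfCardEq`). `N = fromRows R v` (rows `E ⊕ w`, columns `ι`; square after
reindexing), `N Nᵀ = [[R Rᵀ, 0], [0, v vᵀ]]` (`hRv`, `Matrix.fromBlocks`, `det_fromBlocks_zero₂₁`), so
`det N ^ 2 = D * V`, `D = det (R Rᵀ)`, `V = det (v vᵀ)`. `N * fromCols Rᵀ X = [[R Rᵀ, R X], [v Rᵀ = 0, v X = 1]]` has
determinant `D`; so `det N ∣ D` (ints: `D = det N * det (…)`). `D ≠ 0` so `1 ≤ |det N| ≤ |D|`, `det N ^ 2 ≤ D ^ 2`;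
`D * V = det N ^ 2 ≤ D ^ 2`, and `D ≥ 0`: `D = det (R Rᵀ)` is a Gram determinant (positive semidefinite over ℝ), so
`D > 0` and `V ≤ D`.
-/

open Matrix

namespace Pool.Agent.NRC

private theorem N05_nonneg {E ι : Type} [Fintype E] [DecidableEq E] [Fintype ι] [DecidableEq ι]
    (R : Matrix E ι ℤ) : 0 ≤ (R * Rᵀ).det := by
  have h1 : ((R * Rᵀ).map (Int.castRingHom ℝ)) =
      (R.map (Int.castRingHom ℝ)) * (R.map (Int.castRingHom ℝ))ᴴ := by
    rw [Matrix.map_mul, Matrix.conjTranspose_eq_transpose_of_trivial, Matrix.transpose_map]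
  have h2 : (0 : ℝ) ≤ ((R * Rᵀ).map (Int.castRingHom ℝ)).det := by
    rw [h1]
    exact (Matrix.posSemidef_self_mul_conjTranspose _).det_nonneg
  have h3 : ((R * Rᵀ).map (Int.castRingHom ℝ)).det = ((R * Rᵀ).det : ℝ) := by
    have := (Int.castRingHom ℝ).map_det (R * Rᵀ)
    rw [RingHom.mapMatrix_apply] at this
    rw [← this]
    simp
  rw [h3] at h2
  exact_mod_cast h2

theorem gram_le_gram {E w ι : Type} [Fintype E] [DecidableEq E] [Fintype w] [DecidableEq w]
    [Fintype ι] [DecidableEq ι] (R : Matrix E ι ℤ) (v : Matrix w ι ℤ) (X : Matrix ι w ℤ)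
    (hX : v * X = 1) (hRv : R * vᵀ = 0)
    (hcard : Fintype.card E + Fintype.card w = Fintype.card ι) (hR : (R * Rᵀ).det ≠ 0) :
    (v * vᵀ).det ≤ (R * Rᵀ).det := by
  classical
  have hc : Fintype.card (E ⊕ w) = Fintype.card ι := by
    rw [Fintype.card_sum]
    exact hcard
  set e : (E ⊕ w) ≃ ι := Fintype.equivOfCardEq hc with he
  have hvR : v * Rᵀ = 0 := by
    have := congrArg Matrix.transpose hRv
    rw [Matrix.transpose_mul, Matrix.transpose_transpose, Matrix.transpose_zero] at this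
    exact this
  set N : Matrix (E ⊕ w) (E ⊕ w) ℤ := (fromRows R v).submatrix id e with hN
  set C : Matrix (E ⊕ w) (E ⊕ w) ℤ := (fromCols Rᵀ X).submatrix e id with hC
  have h1 : N * Nᵀ = fromBlocks (R * Rᵀ) 0 0 (v * vᵀ) := by
    rw [hN, Matrix.transpose_submatrix, Matrix.submatrix_mul_equiv, Matrix.submatrix_id_id,
      Matrix.transpose_fromRows, Matrix.fromRows_mul_fromCols, hRv, hvR]
  have h2 : N * C = fromBlocks (R * Rᵀ) (R * X) 0 1 := by
    rw [hN, hC, Matrix.submatrix_mul_equiv, Matrix.submatrix_id_id,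
      Matrix.fromRows_mul_fromCols, hvR, hX]
  have h3 : N.det ^ 2 = (R * Rᵀ).det * (v * vᵀ).det := by
    have := congrArg Matrix.det h1
    rw [Matrix.det_mul, Matrix.det_transpose, Matrix.det_fromBlocks_zero₂₁] at this
    rw [sq]
    exact this
  have h4 : N.det * C.det = (R * Rᵀ).det := by
    have := congrArg Matrix.det h2
    rw [Matrix.det_mul, Matrix.det_fromBlocks_zero₂₁, Matrix.det_one, mul_one] at this
    exact this
  have hD0 : 0 < (R * Rᵀ).det := lt_of_le_of_ne (N05_nonneg R) (Ne.symm hR)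
  have hdvd : N.det ∣ (R * Rᵀ).det := ⟨C.det, h4.symm⟩
  have habs : |N.det| ≤ (R * Rᵀ).det := by
    have := Int.le_of_dvd hD0 ((abs_dvd _ _).2 hdvd)
    exact this
  have hsq : N.det ^ 2 ≤ (R * Rᵀ).det ^ 2 := by
    rw [← sq_abs]
    exact pow_le_pow_left₀ (abs_nonneg _) habs 2
  rw [h3, sq] at hsq
  exact le_of_mul_le_mul_left hsq hD0

end Pool.Agent.NRC
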