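import Mathlib
import Pool.Agent.SpCl.A07Limit

/-!
# Module N07Toep: lower bound for Toeplitz determinants (Berezin-Lieb, Jensen)

PROOF. `φ x = ‖ev x A‖² + ‖ev x B‖²` on the torus `Tor σ` (probability measure). Let `c^j` be an orthonormal real eigenbasis of
`G` (`hGs.eigenvectorBasis`, `hGs.eigenvalues`), `f_j x = ‖∑_t c^j_t mon x (τ t)‖²`. Then
(1) `∫ f_j = ∑_t (c^j_t)² = 1` (orthonormality of the monomials: `Pool.Agent.SpCl.integral_mon`, `τ` injective);
(2) `lam_j = c^jᵀ G c^j = ∫ f_j φ` (`hG`);
(3) `∑_j f_j x = ∑_t ‖mon x (τ t)‖² = card w` for every `x` (the matrix of the `c^j` is orthogonal);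
(4) Jensen: `f_j dx` is a probability measure (`withDensity`), `φ > 0` a.e. (`ae_ev_ne_zero`), `log φ` is integrable (`integrable_LL`)
so `log lam_j = log ∫ f_j φ ≥ ∫ f_j log φ` and `lam_j > 0`. WITHOUT measure theory of `withDensity`: for `lam > 0`,
`log φ ≤ log lam + φ / lam - 1` pointwise (`Real.log_le_sub_one_of_pos`), multiply with `f_j ≥ 0` and integrate:
`∫ f_j log φ ≤ log lam + lam / lam - 1 = log lam` for `lam = lam_j`. Positivity `lam_j > 0`: `f_j φ ≥ 0`, not a.e. zero since
`∫ f_j = 1` and `φ > 0` a.e.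
(5) sum over `j`: `log det G = ∑ log lam_j ≥ ∫ (∑_j f_j) log φ = card w * LL A B`. (`Matrix.IsHermitian.det_eq_prod_eigenvalues`.)
`f_j`, `φ` are continuous and bounded, see `continuous_mon`, `ev_pl`, `measurable_log_ev`, `exists_bound_ev` in H27Mahler/SpCl.
If `w` is empty: `det = 1`, trivial.
-/

open MvPolynomial MeasureTheory Pool.Agent.H27Mahler Pool.Agent.SpCl

namespace Pool.Agent.NRC

namespace N07Aux

/-- the square of the norm of a real combination of monomials -/
noncomputable def fq {σ w : Type} [Fintype σ] [Fintype w] (τ : w → (σ →₀ ℕ)) (c : w → ℝ)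
    (x : Tor σ) : ℝ := ‖∑ t, (c t : ℂ) * mon x (τ t)‖ ^ 2

theorem fq_ofReal {σ w : Type} [Fintype σ] [Fintype w] (τ : w → (σ →₀ ℕ)) (c : w → ℝ)
    (x : Tor σ) : ((fq τ c x : ℝ) : ℂ) =
      ∑ t, ∑ t', ((c t * c t' : ℝ) : ℂ) * (mon x (τ t) * (starRingEnd ℂ) (mon x (τ t'))) := by
  rw [fq]
  push_cast
  rw [← Complex.mul_conj', map_sum, Finset.sum_mul_sum]
  refine Finset.sum_congr rfl fun t _ => Finset.sum_congr rfl fun t' _ => ?_
  rw [map_mul, Complex.conj_ofReal]
  ring

theorem continuous_fq {σ w : Type} [Fintype σ] [Fintype w] (τ : w → (σ →₀ ℕ)) (c : w → ℝ) :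
    Continuous (fq τ c) := by
  unfold fq
  refine Continuous.pow (Continuous.norm (continuous_finsetSum _ fun t _ =>
    continuous_const.mul (continuous_mon _))) 2

theorem fq_nonneg {σ w : Type} [Fintype σ] [Fintype w] (τ : w → (σ →₀ ℕ)) (c : w → ℝ)
    (x : Tor σ) : 0 ≤ fq τ c x := by
  unfold fq; positivity

theorem integral_fq {σ w : Type} [Fintype σ] [Fintype w] (τ : w → (σ →₀ ℕ))
    (hτ : Function.Injective τ) (c : w → ℝ) :
    ∫ x : Tor σ, fq τ c x = ∑ t, c t ^ 2 := by
  classical
  apply Complex.ofReal_injective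
  rw [← integral_complex_ofReal]
  simp_rw [fq_ofReal]
  rw [integral_finsetSum]
  · push_cast
    refine Finset.sum_congr rfl fun t _ => ?_
    rw [integral_finsetSum]
    · rw [Finset.sum_eq_single t]
      · rw [integral_const_mul, integral_mon, if_pos rfl]
        push_cast; ring
      · intro t' _ ht'
        rw [integral_const_mul, integral_mon, if_neg (fun h => ht' (hτ h).symm), mul_zero]
      · intro h; exact absurd (Finset.mem_univ _) h
    · intro t' _
      exact A05MomentAux.int_of_cont (continuous_const.mul (A05MomentAux.cont_mm _ _))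
  · intro t _
    exact A05MomentAux.int_of_cont (continuous_finsetSum _ fun t' _ =>
      continuous_const.mul (A05MomentAux.cont_mm _ _))

end N07Aux

open N07Aux

theorem log_det_ge {σ w : Type} [Fintype σ] [Fintype w] [DecidableEq w] {A B : MvPolynomial σ ℤ}
    (hA : A ≠ 0) (τ : w → (σ →₀ ℕ)) (hτ : Function.Injective τ) (G : Matrix w w ℝ)
    (hGs : G.IsHermitian)
    (hG : ∀ c : w → ℝ, ∑ t, ∑ t', c t * G t t' * c t' =
      ∫ x : Tor σ, ‖∑ t, (c t : ℂ) * mon x (τ t)‖ ^ 2 * (‖ev x A‖ ^ 2 + ‖ev x B‖ ^ 2)) :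
    0 < G.det ∧ (Fintype.card w : ℝ) * LL A B ≤ Real.log G.det := by
  classical
  set φ : Tor σ → ℝ := fun x => ‖ev x A‖ ^ 2 + ‖ev x B‖ ^ 2 with hφ
  have hφc : Continuous φ :=
    ((continuous_ev A).norm.pow 2).add ((continuous_ev B).norm.pow 2)
  have hφ0 : ∀ x, 0 ≤ φ x := fun x => by simp only [hφ]; positivity
  have hφpos : ∀ᵐ x : Tor σ, 0 < φ x := by
    filter_upwards [ae_ev_ne_zero hA] with x hx
    have h0 : 0 < ‖ev x A‖ := norm_pos_iff.mpr hx
    simp only [hφ]; positivity
  set c : w → w → ℝ := fun j t => (hGs.eigenvectorBasis j).ofLp t with hc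
  set lam : w → ℝ := hGs.eigenvalues with hlam
  -- norm of the eigenvectors
  have hnorm : ∀ j, ∑ t, c j t ^ 2 = 1 := by
    intro j
    have h1 := hGs.eigenvectorBasis.orthonormal.1 j
    have h2 := EuclideanSpace.norm_sq_eq (hGs.eigenvectorBasis j)
    rw [h1] at h2
    simp only [Real.norm_eq_abs, sq_abs, one_pow] at h2
    exact h2.symm
  -- rows
  have hrow : ∀ t t', ∑ j, c j t * c j t' = if t = t' then 1 else 0 := by
    intro t t'
    have h1 : (hGs.eigenvectorUnitary : Matrix w w ℝ) * star (hGs.eigenvectorUnitary : Matrix w w ℝ)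
        = 1 := Unitary.coe_mul_star_self _
    have h2 := congrFun (congrFun h1 t) t'
    rw [Matrix.mul_apply, Matrix.one_apply] at h2
    rw [← h2]
    refine Finset.sum_congr rfl fun j _ => ?_
    rw [Matrix.star_apply, Matrix.IsHermitian.eigenvectorUnitary_apply,
      Matrix.IsHermitian.eigenvectorUnitary_apply]
    simp [hc]
  have hsumf : ∀ x, ∑ j, fq τ (c j) x = (Fintype.card w : ℝ) := by
    intro x
    apply Complex.ofReal_injective
    push_cast
    simp_rw [fq_ofReal]
    rw [Finset.sum_comm]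
    have h1 : ∀ t : w, ∑ j, ∑ t', ((c j t * c j t' : ℝ) : ℂ) *
        (mon x (τ t) * (starRingEnd ℂ) (mon x (τ t'))) = 1 := by
      intro t
      rw [Finset.sum_comm]
      simp_rw [← Finset.sum_mul, ← Complex.ofReal_sum, hrow]
      rw [Finset.sum_eq_single t]
      · rw [if_pos rfl, A05MomentAux.mon_conj_self]; simp
      · intro t' _ ht'
        rw [if_neg (fun h => ht' h.symm)]; simp
      · intro h; exact absurd (Finset.mem_univ _) h
    rw [Finset.sum_congr rfl fun t _ => h1 t]
    simp
  -- eigenvalues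
  have hlamint : ∀ j, ∫ x : Tor σ, fq τ (c j) x * φ x = lam j := by
    intro j
    have h1 := hG (c j)
    have h2 : ∑ t, ∑ t', c j t * G t t' * c j t' = lam j := by
      have h3 := hGs.mulVec_eigenvectorBasis j
      have h4 : ∀ t, ∑ t', G t t' * c j t' = lam j * c j t := by
        intro t
        have := congrFun h3 t
        simpa [Matrix.mulVec, dotProduct, hc, hlam] using this
      have h5 : ∀ t, ∑ t', c j t * G t t' * c j t' = lam j * c j t ^ 2 := by
        intro t
        simp_rw [mul_assoc]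
        rw [← Finset.mul_sum, h4]
        ring
      simp_rw [h5]
      rw [← Finset.mul_sum, hnorm, mul_one]
    rw [← h2, h1]
    rfl
  have hint1 : ∀ j, Integrable (fun x : Tor σ => fq τ (c j) x) := fun j =>
    (continuous_fq τ (c j)).integrable_of_hasCompactSupport (HasCompactSupport.of_compactSpace _)
  have hint2 : ∀ j, Integrable (fun x : Tor σ => fq τ (c j) x * φ x) := fun j =>
    ((continuous_fq τ (c j)).mul hφc).integrable_of_hasCompactSupport
      (HasCompactSupport.of_compactSpace _)
  have hlampos : ∀ j, 0 < lam j := by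
    intro j
    have h0 : 0 ≤ lam j := by
      rw [← hlamint j]
      exact integral_nonneg fun x => mul_nonneg (fq_nonneg _ _ _) (hφ0 x)
    refine lt_of_le_of_ne h0 fun h => ?_
    have h1 := hlamint j
    rw [← h, integral_eq_zero_iff_of_nonneg (fun x => mul_nonneg (fq_nonneg _ _ _) (hφ0 x))
      (hint2 j)] at h1
    have h2 : (fun x : Tor σ => fq τ (c j) x) =ᵐ[volume] 0 := by
      filter_upwards [h1, hφpos] with x hx hx2
      have hx' : fq τ (c j) x * φ x = 0 := hx
      rcases mul_eq_zero.mp hx' with h3 | h3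
      · exact h3
      · exact absurd h3 hx2.ne'
    have h3 : ∫ x : Tor σ, fq τ (c j) x = 0 := by
      rw [integral_congr_ae h2]; simp
    rw [integral_fq τ hτ, hnorm] at h3
    exact one_ne_zero h3
  have hdet : G.det = ∏ j, lam j := by
    rw [hGs.det_eq_prod_eigenvalues]
    simp [hlam]
  have hlogint : Integrable fun x : Tor σ => Real.log (φ x) := integrable_LL hA B
  have hint3 : ∀ j, Integrable (fun x : Tor σ => fq τ (c j) x * Real.log (φ x)) := by
    intro j
    obtain ⟨C, hC⟩ := (isCompact_range (continuous_fq τ (c j)).norm).bddAbove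
    exact hlogint.bdd_mul (c := C) (continuous_fq τ (c j)).aestronglyMeasurable
      (Filter.Eventually.of_forall fun x => hC ⟨x, rfl⟩)
  have hJ : ∀ j, ∫ x : Tor σ, fq τ (c j) x * Real.log (φ x) ≤ Real.log (lam j) := by
    intro j
    have hl := hlampos j
    have h1 : ∫ x : Tor σ, fq τ (c j) x * Real.log (φ x) ≤
        ∫ x : Tor σ, ((Real.log (lam j) - 1) * fq τ (c j) x + (lam j)⁻¹ * (fq τ (c j) x * φ x)) := by
      refine integral_mono_ae (hint3 j) (((hint1 j).const_mul _).add ((hint2 j).const_mul _)) ?_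
      filter_upwards [hφpos] with x hx
      have h2 : Real.log (φ x) ≤ Real.log (lam j) + (φ x / lam j - 1) := by
        have h3 := Real.log_le_sub_one_of_pos (div_pos hx hl)
        rw [Real.log_div hx.ne' hl.ne'] at h3
        linarith
      calc fq τ (c j) x * Real.log (φ x)
          ≤ fq τ (c j) x * (Real.log (lam j) + (φ x / lam j - 1)) :=
            mul_le_mul_of_nonneg_left h2 (fq_nonneg _ _ _)
        _ = _ := by field_simp; ring
    refine h1.trans (le_of_eq ?_)
    rw [integral_add ((hint1 j).const_mul _) ((hint2 j).const_mul _), integral_const_mul,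
      integral_const_mul, hlamint j, integral_fq τ hτ, hnorm, inv_mul_cancel₀ hl.ne']
    ring
  refine ⟨by rw [hdet]; exact Finset.prod_pos fun j _ => hlampos j, ?_⟩
  rw [hdet, Real.log_prod (fun j _ => (hlampos j).ne')]
  calc (Fintype.card w : ℝ) * LL A B
      = ∫ x : Tor σ, ∑ j, fq τ (c j) x * Real.log (φ x) := by
        rw [LL, ← integral_const_mul]
        refine integral_congr_ae (Filter.Eventually.of_forall fun x => ?_)
        simp only
        rw [← Finset.sum_mul, hsumf]
    _ = ∑ j, ∫ x : Tor σ, fq τ (c j) x * Real.log (φ x) := by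
        rw [integral_finsetSum]
        exact fun j _ => hint3 j
    _ ≤ ∑ j, Real.log (lam j) := Finset.sum_le_sum fun j _ => hJ j

end Pool.Agent.NRC
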