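import Mathlib
import Pool.Agent.SpCl.A07Limit

/-!
# Module N08Gram: Parseval for the multiples of a polynomial

PROOF. The function `x ↦ (∑ t, c t * mon x (τ t)) * ev x A` equals `∑_{s ∈ S} b_s mon x s` with the real coefficients
`b_s = ∑_t c_t (coefficient at s of monomial (τ t) 1 * A)` (`ev_eq_sum`, `mon_add`), `∫ mon x s * conj (mon x s') = [s = s']`
(`Pool.Agent.SpCl.integral_mon`), and `‖f‖² = f * conj f`. Put the integral into ℂ with `integral_ofReal` or use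
`Complex.mul_conj`.
-/

open MvPolynomial MeasureTheory Pool.Agent.H27Mahler Pool.Agent.SpCl

namespace Pool.Agent.NRC

namespace N08Gram_aux

theorem ev_mono_mul {σ : Type} [Fintype σ] (A : MvPolynomial σ ℤ) (u : σ →₀ ℕ)
    (x : Tor σ) : ev x (monomial u (1 : ℤ) * A) = mon x u * ev x A := by
  rw [map_mul]
  congr 1
  simp only [ev, coe_eval₂Hom, eval₂_monomial, eq_intCast, mon]
  rw [Int.cast_one, one_mul]
  exact Finsupp.prod_fintype _ _ (by simp)

theorem ev_sum_of_subset {σ : Type} [Fintype σ] (B : MvPolynomial σ ℤ) (S : Finset (σ →₀ ℕ))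
    (h : B.support ⊆ S) (x : Tor σ) :
    ev x B = ∑ s ∈ S, ((B.coeff s : ℤ) : ℂ) * mon x s := by
  rw [ev_eq_sum]
  refine Finset.sum_subset h fun s _ hs => ?_
  rw [notMem_support_iff.1 hs, Int.cast_zero, zero_mul]

/-- orthogonality for a finite sum with real coefficients -/
theorem parseval_sum {σ : Type} [Fintype σ] (S : Finset (σ →₀ ℕ)) (b : (σ →₀ ℕ) → ℝ) :
    ∫ x : Tor σ, ‖∑ s ∈ S, (b s : ℂ) * mon x s‖ ^ 2 = ∑ s ∈ S, b s ^ 2 := by
  classical
  apply Complex.ofReal_injective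
  refine (integral_ofReal (𝕜 := ℂ)
    (f := fun x : Tor σ => ‖∑ s ∈ S, (b s : ℂ) * mon x s‖ ^ 2)).symm.trans ?_
  have h1 : ∀ x : Tor σ, ((‖∑ s ∈ S, (b s : ℂ) * mon x s‖ ^ 2 : ℝ) : ℂ) =
      ∑ s ∈ S, ∑ s' ∈ S, ((b s : ℂ) * (b s' : ℂ)) * (mon x s * (starRingEnd ℂ) (mon x s')) := by
    intro x
    rw [← Complex.normSq_eq_norm_sq, ← Complex.mul_conj, map_sum, Finset.sum_mul_sum]
    refine Finset.sum_congr rfl fun s _ => Finset.sum_congr rfl fun s' _ => ?_
    rw [map_mul, Complex.conj_ofReal]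
    ring
  have h2 : ∀ x : Tor σ, (RCLike.ofReal (‖∑ s ∈ S, (b s : ℂ) * mon x s‖ ^ 2) : ℂ) =
      ∑ s ∈ S, ∑ s' ∈ S, ((b s : ℂ) * (b s' : ℂ)) * (mon x s * (starRingEnd ℂ) (mon x s')) := h1
  simp only [h2]
  rw [integral_finsetSum]
  · rw [Complex.ofReal_sum]
    refine Finset.sum_congr rfl fun s hs => ?_
    rw [integral_finsetSum]
    · have h3 : ∀ s' ∈ S, ∫ x : Tor σ, ((b s : ℂ) * (b s' : ℂ)) *
          (mon x s * (starRingEnd ℂ) (mon x s')) = if s = s' then ((b s ^ 2 : ℝ) : ℂ) else 0 := by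
        intro s' _
        rw [integral_const_mul, integral_mon]
        split_ifs with h
        · subst h
          rw [mul_one, pow_two, Complex.ofReal_mul]
        · rw [mul_zero]
      rw [Finset.sum_congr rfl h3, Finset.sum_ite_eq, if_pos hs]
    · intro s' _
      exact A05MomentAux.int_of_cont (continuous_const.mul (A05MomentAux.cont_mm _ _))
  · intro s _
    exact A05MomentAux.int_of_cont
      (continuous_finsetSum _ fun s' _ => continuous_const.mul (A05MomentAux.cont_mm _ _))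

end N08Gram_aux

open N08Gram_aux

/-- Parseval: `∑_s (coefficient at s of c(x) A(x))² = ∫ |c(x)|² |A(x)|²`. -/
theorem parseval {σ w : Type} [Fintype σ] [Fintype w] [DecidableEq w] (A : MvPolynomial σ ℤ)
    (τ : w → (σ →₀ ℕ)) (S : Finset (σ →₀ ℕ))
    (hS : ∀ t, ∀ s ∈ A.support, τ t + s ∈ S) (c : w → ℝ) :
    ∑ s ∈ S, (∑ t, c t * (((monomial (τ t) (1 : ℤ) * A).coeff s : ℤ) : ℝ)) ^ 2 =
      ∫ x : Tor σ, ‖∑ t, (c t : ℂ) * mon x (τ t)‖ ^ 2 * ‖ev x A‖ ^ 2 := by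
  classical
  rw [← parseval_sum]
  refine integral_congr_ae (Filter.Eventually.of_forall fun x => ?_)
  change ‖∑ s ∈ S, ((∑ t, c t * (((monomial (τ t) (1 : ℤ) * A).coeff s : ℤ) : ℝ) : ℝ) : ℂ) *
    mon x s‖ ^ 2 = ‖∑ t, (c t : ℂ) * mon x (τ t)‖ ^ 2 * ‖ev x A‖ ^ 2
  have hsub : ∀ t, (monomial (τ t) (1 : ℤ) * A).support ⊆ S := by
    intro t s hs
    have h1 := support_mul (monomial (τ t) (1 : ℤ)) A hs
    obtain ⟨u, hu, v, hv, rfl⟩ := Finset.mem_add.1 h1
    have h2 : u = τ t := Finset.mem_singleton.1 (support_monomial_subset hu)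
    rw [h2]
    exact hS t v hv
  have h1 : (∑ t, (c t : ℂ) * mon x (τ t)) * ev x A =
      ∑ s ∈ S, ((∑ t, c t * (((monomial (τ t) (1 : ℤ) * A).coeff s : ℤ) : ℝ) : ℝ) : ℂ) *
        mon x s := by
    rw [Finset.sum_mul]
    have h2 : ∀ t ∈ Finset.univ, (c t : ℂ) * mon x (τ t) * ev x A =
        ∑ s ∈ S, (c t : ℂ) * (((monomial (τ t) (1 : ℤ) * A).coeff s : ℤ) : ℂ) * mon x s := by
      intro t _
      rw [mul_assoc, ← ev_mono_mul, ev_sum_of_subset _ S (hsub t), Finset.mul_sum]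
      exact Finset.sum_congr rfl fun s _ => (mul_assoc _ _ _).symm
    rw [Finset.sum_congr rfl h2, Finset.sum_comm]
    refine Finset.sum_congr rfl fun s _ => ?_
    rw [← Finset.sum_mul]
    congr 1
    push_cast
    rfl
  rw [← h1, norm_mul, mul_pow]

end Pool.Agent.NRC
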