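import Mathlib
import Pool.Agent.SpCl.A08Lat

/-!
# Module N09Prim: an integer matrix which is injective modulo every prime has an integer inverse

PROOF of `exists_right_inverse`. `Γ` = range of `y ↦ y ᵥ* v` in `ι → ℤ`. `Γ` is saturated: if `k • z = y ᵥ* v`, `k ≠ 0`, then `k ∣ y`:
induction on the prime factors of `k` (`hp`: for a prime `p ∣ k`, `p ∣ y`, `y = p y'`, cancel `p`), so `z = y' ᵥ* v`. So
`(ι → ℤ) / Γ` is torsion free and finitely generated, hence free, so the injective map `y ↦ y ᵥ* v` (`h0`) has a linear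
retraction (`Module.projective_lifting_property`, or `Submodule.exists_isCompl`, or `Pool.Agent.SpCl.exists_quot` and a
section); the matrix `X` of the retraction satisfies `v * X = 1`.
PROOF of `card_add_card`. Over ℚ: the rows of `R` are independent (`hR`), so `ker R` has dimension `card ι - card E`; the rows of `v`
are independent (`hX`), lie in `ker R` (`hRv`) and span it: a rational kernel vector has an integer multiple, to which `hker`
applies. So `card w = card ι - card E` (and `card E ≤ card ι`). (Rank-nullity: `LinearMap.finrank_range_add_finrank_ker`.)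
-/

open Matrix

namespace Pool.Agent.NRC

theorem exists_right_inverse {w ι : Type} [Fintype w] [DecidableEq w] [Fintype ι] [DecidableEq ι]
    (v : Matrix w ι ℤ) (h0 : ∀ y : w → ℤ, y ᵥ* v = 0 → y = 0)
    (hp : ∀ p : ℕ, p.Prime → ∀ y : w → ℤ, (∀ i, (p : ℤ) ∣ (y ᵥ* v) i) → ∀ t, (p : ℤ) ∣ y t) :
    ∃ X : Matrix ι w ℤ, v * X = 1 := by
  classical
  let L : (w → ℤ) →ₗ[ℤ] (ι → ℤ) := Matrix.vecMulLinear v
  have hL : ∀ y, L y = y ᵥ* v := fun y => rfl
  have hinj : Function.Injective L := by
    rw [← LinearMap.ker_eq_bot, LinearMap.ker_eq_bot']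
    intro y hy
    exact h0 y hy
  -- saturation
  have hsat' : ∀ (k : ℕ) (m : ℤ) (n : ι → ℤ), m.natAbs = k → m ≠ 0 → m • n ∈ LinearMap.range L →
      n ∈ LinearMap.range L := by
    intro k
    induction k using Nat.strong_induction_on with
    | _ k ih =>
      intro m n hmk hm0 hmn
      by_cases h1 : m.natAbs = 1
      · have h2 : m * m = 1 := by
          rcases Int.natAbs_eq_iff.1 h1 with h | h <;> rw [h] <;> norm_num
        have h3 : n = m • (m • n) := by rw [smul_smul, h2, one_smul]
        rw [h3]
        exact Submodule.smul_mem _ _ hmn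
      · obtain ⟨p, hpp, hpd⟩ := Nat.exists_prime_and_dvd h1
        have hpd' : (p : ℤ) ∣ m := Int.natCast_dvd.2 hpd
        obtain ⟨m', rfl⟩ := hpd'
        obtain ⟨y, hy⟩ := hmn
        have hp0 : (p : ℤ) ≠ 0 := by exact_mod_cast hpp.ne_zero
        have h2 : ∀ i, (p : ℤ) ∣ (y ᵥ* v) i := by
          intro i
          have h3 : (y ᵥ* v) i = ((p : ℤ) * m') • n i := congrFun hy i
          rw [h3, smul_eq_mul, mul_assoc]
          exact Dvd.intro _ rfl
        choose y' hy' using hp p hpp y h2
        have h3 : y = (p : ℤ) • y' := by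
          funext t
          rw [hy' t]
          rfl
        have h4 : (p : ℤ) • L y' = (p : ℤ) • (m' • n) := by
          rw [← map_smul, ← h3, hy, smul_smul]
        have h5 : L y' = m' • n := by
          funext i
          have h6 := congrFun h4 i
          exact mul_left_cancel₀ hp0 h6
        have hm'0 : m' ≠ 0 := by
          rintro rfl
          exact hm0 (mul_zero _)
        have hlt : m'.natAbs < k := by
          rw [← hmk, Int.natAbs_mul, Int.natAbs_natCast]
          have h7 : 0 < m'.natAbs := Int.natAbs_pos.2 hm'0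
          nlinarith [hpp.two_le]
        exact ih _ hlt m' n rfl hm'0 ⟨y', h5⟩
  obtain ⟨k, φ, hφs, hφk⟩ := Pool.Agent.SpCl.exists_quot (LinearMap.range L)
    (fun m n hm hmn => hsat' _ m n rfl hm hmn)
  obtain ⟨σ, hσ⟩ := Module.projective_lifting_property φ LinearMap.id hφs
  have hσ' : ∀ x, φ (σ x) = x := fun x => by
    have := LinearMap.congr_fun hσ x
    exact this
  let π : (ι → ℤ) →ₗ[ℤ] (ι → ℤ) := LinearMap.id - σ ∘ₗ φ
  have hπ : ∀ x, π x ∈ LinearMap.range L := by
    intro x
    rw [← hφk, LinearMap.mem_ker]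
    change φ (x - σ (φ x)) = 0
    rw [map_sub, hσ', sub_self]
  let e : (w → ℤ) ≃ₗ[ℤ] LinearMap.range L := LinearEquiv.ofInjective L hinj
  let r : (ι → ℤ) →ₗ[ℤ] (w → ℤ) := e.symm.toLinearMap ∘ₗ (π.codRestrict (LinearMap.range L) hπ)
  have hr : ∀ y, r (L y) = y := by
    intro y
    have h1 : π.codRestrict (LinearMap.range L) hπ (L y) = e y := by
      apply Subtype.ext
      change L y - σ (φ (L y)) = L y
      have h2 : φ (L y) = 0 := by
        rw [← LinearMap.mem_ker, hφk]
        exact ⟨y, rfl⟩
      rw [h2, map_zero, sub_zero]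
    change e.symm (π.codRestrict (LinearMap.range L) hπ (L y)) = y
    rw [h1, LinearEquiv.symm_apply_apply]
  refine ⟨fun i t => r (Pi.single i 1) t, ?_⟩
  ext s t
  have h1 : v s = ∑ i, v s i • (Pi.single i (1 : ℤ) : ι → ℤ) := by
    funext j
    rw [Finset.sum_apply]
    simp [Pi.single_apply]
  have h2 : L (Pi.single s 1) = v s := by
    rw [hL]
    exact Matrix.single_one_vecMul s v
  have h3 := hr (Pi.single s 1)
  rw [h2, h1, map_sum] at h3
  have h4 := congrFun h3 t
  rw [Finset.sum_apply] at h4
  rw [Matrix.mul_apply, Matrix.one_apply]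
  have h5 : ∀ i, v s i * r (Pi.single i 1) t = (r (v s i • Pi.single i 1)) t := by
    intro i
    rw [map_smul]
    rfl
  calc ∑ i, v s i * r (Pi.single i 1) t = ∑ i, (r (v s i • Pi.single i 1)) t :=
        Finset.sum_congr rfl fun i _ => h5 i
    _ = (Pi.single s (1 : ℤ) : w → ℤ) t := h4
    _ = if s = t then 1 else 0 := by
        rw [Pi.single_apply]
        simp only [eq_comm]

/-- dimension count: `R` has independent rows, `v` has a right inverse, and the integer kernel of `R` is
the row lattice of `v` -/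
theorem card_add_card {E w ι : Type} [Fintype E] [DecidableEq E] [Fintype w] [DecidableEq w]
    [Fintype ι] [DecidableEq ι] (R : Matrix E ι ℤ) (v : Matrix w ι ℤ) (X : Matrix ι w ℤ)
    (hX : v * X = 1) (hRv : R * vᵀ = 0) (hR : (R * Rᵀ).det ≠ 0)
    (hker : ∀ x : ι → ℤ, R *ᵥ x = 0 → ∃ y : w → ℤ, x = y ᵥ* v) :
    Fintype.card E + Fintype.card w = Fintype.card ι := by
  classical
  let c : ℤ →+* ℚ := Int.castRingHom ℚ
  have hcinj : Function.Injective c := Int.cast_injective
  set Rq : Matrix E ι ℚ := R.map c with hRq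
  set vq : Matrix w ι ℚ := v.map c with hvq
  have hR1 : Rq.rank = Fintype.card E := by
    refine le_antisymm (Matrix.rank_le_card_height _) ?_
    have h1 : Rq * Rqᵀ = (R * Rᵀ).map c := by
      rw [hRq, Matrix.map_mul, Matrix.transpose_map]
    have h2 : IsUnit (Rq * Rqᵀ) := by
      rw [Matrix.isUnit_iff_isUnit_det, h1]
      have h3 : ((R * Rᵀ).map c).det = c (R * Rᵀ).det := (RingHom.map_det c (R * Rᵀ)).symm
      rw [h3, isUnit_iff_ne_zero]
      intro h4
      exact hR (hcinj (by rw [h4, map_zero]))
    rw [← Matrix.rank_of_isUnit _ h2]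
    exact Matrix.rank_mul_le_left _ _
  have hv1 : vq.rank = Fintype.card w := by
    refine le_antisymm (Matrix.rank_le_card_height _) ?_
    have h1 : vq * X.map c = 1 := by
      rw [hvq, ← Matrix.map_mul, hX, Matrix.map_one c (map_zero c) (map_one c)]
    have h2 : (vq * X.map c).rank = Fintype.card w := by rw [h1, Matrix.rank_one]
    rw [← h2]
    exact Matrix.rank_mul_le_left _ _
  have hvt : (vqᵀ).rank = Fintype.card w := by rw [Matrix.rank_transpose, hv1]
  have hker' : LinearMap.ker Rq.mulVecLin = LinearMap.range (vqᵀ).mulVecLin := by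
    apply le_antisymm
    · intro x hx
      rw [LinearMap.mem_ker, Matrix.mulVecLin_apply] at hx
      -- common denominator
      let N : ℕ := ∏ i, (x i).den
      have hN : 0 < N := Finset.prod_pos fun i _ => Rat.den_pos _
      have hint : ∀ i, ∃ m : ℤ, (N : ℚ) * x i = m := by
        intro i
        obtain ⟨t, ht⟩ : (x i).den ∣ N := Finset.dvd_prod_of_mem (fun i => (x i).den) (Finset.mem_univ i)
        refine ⟨(x i).num * t, ?_⟩
        rw [ht]
        push_cast
        have h1 : (x i) * ((x i).den : ℚ) = ((x i).num : ℚ) := Rat.mul_den_eq_num _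
        rw [← h1]
        ring
      choose x' hx' using hint
      have hNq : (N : ℚ) ≠ 0 := by exact_mod_cast hN.ne'
      have hR0 : R *ᵥ x' = 0 := by
        funext e
        apply hcinj
        have h1 : c ((R *ᵥ x') e) = (N : ℚ) * (Rq *ᵥ x) e := by
          simp only [Matrix.mulVec, dotProduct]
          rw [map_sum, Finset.mul_sum]
          refine Finset.sum_congr rfl fun i _ => ?_
          rw [map_mul]
          have h2 : c (x' i) = (N : ℚ) * x i := (hx' i).symm
          rw [h2]
          change c (R e i) * ((N : ℚ) * x i) = (N : ℚ) * (c (R e i) * x i)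
          ring
        rw [h1, hx]
        simp
      obtain ⟨y, hy⟩ := hker x' hR0
      refine ⟨fun t => (N : ℚ)⁻¹ * c (y t), ?_⟩
      rw [Matrix.mulVecLin_apply]
      funext i
      have h1 : (N : ℚ) * x i = ∑ t, c (y t) * c (v t i) := by
        rw [hx' i, hy]
        have h2 : c ((y ᵥ* v) i) = ∑ t, c (y t) * c (v t i) := by
          simp only [Matrix.vecMul, dotProduct]
          rw [map_sum]
          exact Finset.sum_congr rfl fun t _ => map_mul c _ _
        exact h2
      simp only [Matrix.mulVec, dotProduct]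
      have h3 : x i = (N : ℚ)⁻¹ * ((N : ℚ) * x i) := by
        rw [← mul_assoc, inv_mul_cancel₀ hNq, one_mul]
      rw [h3, h1, Finset.mul_sum]
      refine Finset.sum_congr rfl fun t _ => ?_
      change c (v t i) * ((N : ℚ)⁻¹ * c (y t)) = (N : ℚ)⁻¹ * (c (y t) * c (v t i))
      ring
    · rintro _ ⟨y, rfl⟩
      rw [LinearMap.mem_ker, Matrix.mulVecLin_apply, Matrix.mulVecLin_apply, Matrix.mulVec_mulVec]
      have h1 : Rq * vqᵀ = 0 := by
        rw [hRq, hvq, ← Matrix.transpose_map, ← Matrix.map_mul, hRv, Matrix.map_zero c (map_zero c)]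
      rw [h1, Matrix.zero_mulVec]
  have h1 := LinearMap.finrank_range_add_finrank_ker Rq.mulVecLin
  rw [hker', Module.finrank_fintype_fun_eq_card] at h1
  have h2 : Module.finrank ℚ (LinearMap.range Rq.mulVecLin) = Fintype.card E := hR1
  have h3 : Module.finrank ℚ (LinearMap.range (vqᵀ).mulVecLin) = Fintype.card w := hvt
  rw [h2, h3] at h1
  exact h1

end Pool.Agent.NRC
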