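import Pool.Agent.NRC.N06Rows
import Pool.Agent.NRC.N08Gram
import Pool.Agent.NRC.N09Prim

/-!
# Module N10Mult: the lattice of the multiples of a relatively prime pair

HINTS. `Wx A B N` = exponents `t` with `t i < N - cd A B i`. For `t : Wx` and `s ∈ A.support`: `tx t + s` is in the box `[0,N)^K`
(`t i + s i < N - cd + cd`; if some `N - cd = 0` the type is empty). `vecMul_vm_inl`: both sides are polynomials supported in
the box; coefficientwise: `(cof y * B).coeff (bx s) = ∑_t y t * (monomial (tx t) 1 * B).coeff (bx s)`; then `exists_pol`.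
`cof_eq_zero`: `tx` is injective.
`exists_cof`: `b = pol (x ∘ inl)`, `a = pol (x ∘ inr)`, `b A = a B`. `A ∣ a B`, `IsRelPrime A B`, so `A ∣ a`: `a = e A`
(`IsRelPrime.dvd_of_dvd_mul_right`, `MvPolynomial` over ℤ is a UFD), hence `b = e B` (cancel `A`). If `e ≠ 0`:
`degreeOf i e + degreeOf i A = degreeOf i a < N` and the same for `B` (`degreeOf_mul_eq`), so all exponents of `e` are `< N - cd`
(note: if `a = 0` then `b = 0` and `x = 0`, `y = 0`); `y t = e.coeff (tx t)`, `cof y = e`, and `x = y ᵥ* vm` from `vecMul_vm_inl/inr`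
and `coeff_pol`.
`vm_prime`: from `h`, `C p` divides all coefficients of `cof y * B` and of `cof y * A`, i.e. `C p ∣ e B` and `C p ∣ e A`, `e = cof y`.
`C p` is prime in ℤ[x] (`MvPolynomial.prime_C_iff`). If `C p ∤ e` then `C p ∣ A` and `C p ∣ B`: contradiction with `hAB` (`C p` not a
unit). So `C p ∣ e` (`C_dvd_iff_dvd_coeff`).
`vm_form`: the left side is `∑_i (∑_t c t * vm t i)²` over `i : Ix K N`; split into the two halves and apply `parseval` with
`τ = tx`, `S = image bx univ`.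
-/

open MvPolynomial MeasureTheory Matrix Pool.Agent.H27Mahler Pool.Agent.SpCl

namespace Pool.Agent.NRC

/-- maximum of the degrees in the variable `i` -/
noncomputable def cd {K : ℕ} (A B : MvPolynomial (Fin K) ℤ) (i : Fin K) : ℕ :=
  max (A.degreeOf i) (B.degreeOf i)

/-- exponents of the cofactors -/
abbrev Wx {K : ℕ} (A B : MvPolynomial (Fin K) ℤ) (N : ℕ) : Type := ∀ i : Fin K, Fin (N - cd A B i)

/-- the exponent -/
noncomputable def tx {K : ℕ} {A B : MvPolynomial (Fin K) ℤ} {N : ℕ} (t : Wx A B N) : Fin K →₀ ℕ :=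
  Finsupp.equivFunOnFinite.symm fun i => (t i : ℕ)

@[simp] theorem tx_apply {K : ℕ} {A B : MvPolynomial (Fin K) ℤ} {N : ℕ} (t : Wx A B N) (i : Fin K) :
    tx t i = (t i : ℕ) := rfl

theorem tx_injective {K : ℕ} {A B : MvPolynomial (Fin K) ℤ} {N : ℕ} :
    Function.Injective (tx : Wx A B N → (Fin K →₀ ℕ)) := by
  intro s t h
  funext i
  have := DFunLike.congr_fun h i
  simp only [tx_apply] at this
  exact Fin.ext this

/-- the matrix of the coefficients of `(x^t B, x^t A)` -/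
noncomputable def vm {K : ℕ} (A B : MvPolynomial (Fin K) ℤ) (N : ℕ) : Matrix (Wx A B N) (Ix K N) ℤ :=
  Matrix.of fun t => Sum.elim (fun s => (monomial (tx t) (1 : ℤ) * B).coeff (bx s))
    (fun s => (monomial (tx t) (1 : ℤ) * A).coeff (bx s))

/-- the cofactor with given coefficients -/
noncomputable def cof {K : ℕ} {A B : MvPolynomial (Fin K) ℤ} {N : ℕ} (y : Wx A B N → ℤ) :
    MvPolynomial (Fin K) ℤ := ∑ t, monomial (tx t) (y t)

private theorem N10_deg_le {K : ℕ} {A B D : MvPolynomial (Fin K) ℤ} {N : ℕ}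
    (hD : ∀ i, D.degreeOf i ≤ cd A B i) (t : Wx A B N) (s : Fin K →₀ ℕ) (hs : s ∈ D.support)
    (i : Fin K) : (tx t + s) i < N := by
  have h1 := monomial_le_degreeOf i hs
  have h2 := hD i
  have h3 := (t i).isLt
  rw [Finsupp.add_apply, tx_apply]
  omega

private theorem N10_coeff_cof {K : ℕ} {A B : MvPolynomial (Fin K) ℤ} {N : ℕ} (y : Wx A B N → ℤ)
    (t : Wx A B N) : (cof y).coeff (tx t) = y t := by
  classical
  unfold cof
  rw [coeff_sum, Finset.sum_eq_single t]
  · rw [coeff_monomial, if_pos rfl]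
  · intro t' _ ht
    rw [coeff_monomial, if_neg (fun h => ht (tx_injective h))]
  · intro h; exact absurd (Finset.mem_univ t) h

private theorem N10_mul {K : ℕ} {A B : MvPolynomial (Fin K) ℤ} {N : ℕ} (y : Wx A B N → ℤ)
    (D : MvPolynomial (Fin K) ℤ) :
    cof y * D = ∑ t, C (y t) * (monomial (tx t) (1 : ℤ) * D) := by
  unfold cof
  rw [Finset.sum_mul]
  refine Finset.sum_congr rfl fun t _ => ?_
  rw [← mul_assoc, C_mul_monomial, mul_one]

private theorem N10_vecMul {K : ℕ} {A B : MvPolynomial (Fin K) ℤ} {N : ℕ} (y : Wx A B N → ℤ)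
    (D : MvPolynomial (Fin K) ℤ) (hD : ∀ i, D.degreeOf i ≤ cd A B i) :
    pol (fun s : Fin K → Fin N => ∑ t, y t * (monomial (tx t) (1 : ℤ) * D).coeff (bx s)) =
      cof y * D := by
  classical
  have h1 : ∀ s ∈ (cof y * D).support, ∀ i, s i < N := by
    intro s hs i
    rw [mem_support_iff, N10_mul, coeff_sum] at hs
    obtain ⟨t, -, ht⟩ := Finset.exists_ne_zero_of_sum_ne_zero hs
    rw [coeff_C_mul, coeff_monomial_mul'] at ht
    by_cases hle : tx t ≤ s
    · rw [if_pos hle, one_mul] at ht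
      have h2 : s - tx t ∈ D.support := by
        rw [mem_support_iff]
        exact right_ne_zero_of_mul ht
      have h3 := N10_deg_le hD t _ h2 i
      rw [add_tsub_cancel_of_le hle] at h3
      exact h3
    · rw [if_neg hle, mul_zero] at ht
      exact absurd rfl ht
  rw [← exists_pol (cof y * D) h1]
  congr 1
  funext s
  rw [N10_mul, coeff_sum]
  refine Finset.sum_congr rfl fun t _ => ?_
  rw [coeff_C_mul]

theorem vecMul_vm_inl {K : ℕ} (A B : MvPolynomial (Fin K) ℤ) (N : ℕ) (y : Wx A B N → ℤ) :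
    pol (fun s => (y ᵥ* vm A B N) (Sum.inl s)) = cof y * B := by
  rw [← N10_vecMul y B (fun i => le_max_right _ _)]
  rfl

theorem vecMul_vm_inr {K : ℕ} (A B : MvPolynomial (Fin K) ℤ) (N : ℕ) (y : Wx A B N → ℤ) :
    pol (fun s => (y ᵥ* vm A B N) (Sum.inr s)) = cof y * A := by
  rw [← N10_vecMul y A (fun i => le_max_left _ _)]
  rfl

theorem cof_eq_zero {K : ℕ} {A B : MvPolynomial (Fin K) ℤ} {N : ℕ} (y : Wx A B N → ℤ) :
    cof y = 0 ↔ y = 0 := by
  constructor
  · intro h
    funext t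
    rw [← N10_coeff_cof y t, h, coeff_zero]
    rfl
  · rintro rfl
    unfold cof
    simp

/-- every pair `(b, a)` with `b A = a B` on the box is a multiple of `(B, A)` -/
theorem exists_cof {K : ℕ} {A B : MvPolynomial (Fin K) ℤ} (hA : A ≠ 0) (hB : B ≠ 0)
    (hAB : IsRelPrime A B) (N : ℕ) (hN : ∀ i, cd A B i ≤ N) (x : Ix K N → ℤ)
    (hx : pol (fun s => x (Sum.inl s)) * A = pol (fun s => x (Sum.inr s)) * B) :
    ∃ y : Wx A B N → ℤ, x = y ᵥ* vm A B N := by
  classical
  have h1 : A ∣ pol (fun s => x (Sum.inr s)) * B := ⟨pol (fun s => x (Sum.inl s)), by rw [← hx]; ring⟩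
  obtain ⟨e, he⟩ := IsRelPrime.dvd_of_dvd_mul_right hAB h1
  have hb : pol (fun s => x (Sum.inl s)) = e * B := by
    apply mul_left_cancel₀ hA
    calc A * pol (fun s => x (Sum.inl s)) = pol (fun s => x (Sum.inl s)) * A := by ring
      _ = pol (fun s => x (Sum.inr s)) * B := hx
      _ = A * (e * B) := by rw [he]; ring
  have ha : pol (fun s => x (Sum.inr s)) = e * A := by rw [he]; ring
  -- the support of `e`
  have hlt : ∀ (z : (Fin K → Fin N) → ℤ) (D : MvPolynomial (Fin K) ℤ), D ≠ 0 → pol z = e * D →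
      e ≠ 0 → ∀ i, e.degreeOf i + D.degreeOf i < N := by
    intro z D hD hz he0 i
    rw [← degreeOf_mul_eq he0 hD, ← hz]
    have hne : (pol z).support.Nonempty := by
      rw [Finset.nonempty_iff_ne_empty, Ne, support_eq_empty, hz]
      exact mul_ne_zero he0 hD
    obtain ⟨s, hs⟩ := hne
    have hN0 : 0 < N := lt_of_le_of_lt (Nat.zero_le _) (pol_support_lt z s hs i)
    rw [degreeOf_lt_iff hN0]
    exact fun m hm => pol_support_lt z m hm i
  have hsup : ∀ s ∈ e.support, ∀ i, s i < N - cd A B i := by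
    intro s hs i
    have he0 : e ≠ 0 := by
      rintro rfl
      simp at hs
    have h2 := hlt _ A hA ha he0 i
    have h3 := hlt _ B hB hb he0 i
    have h4 := monomial_le_degreeOf i hs
    unfold cd
    omega
  have hcof : cof (fun t : Wx A B N => e.coeff (tx t)) = e := by
    ext s
    by_cases hs : s ∈ e.support
    · have h5 : s = tx (fun i => (⟨s i, hsup s hs i⟩ : Fin (N - cd A B i)) : Wx A B N) := by
        ext i
        rfl
      rw [h5, N10_coeff_cof]
    · rw [notMem_support_iff.mp hs]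
      unfold cof
      rw [coeff_sum]
      refine Finset.sum_eq_zero fun t _ => ?_
      rw [coeff_monomial]
      split_ifs with h6
      · show coeff (tx t) e = 0
        rw [h6]; exact notMem_support_iff.mp hs
      · rfl
  refine ⟨fun t => e.coeff (tx t), ?_⟩
  funext i
  rcases i with s | s
  · have h7 := vecMul_vm_inl A B N (fun t : Wx A B N => e.coeff (tx t))
    rw [hcof, ← hb] at h7
    have h8 := congrArg (fun p => p.coeff (bx s)) h7
    simp only [coeff_pol] at h8
    exact h8.symm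
  · have h7 := vecMul_vm_inr A B N (fun t : Wx A B N => e.coeff (tx t))
    rw [hcof, ← ha] at h7
    have h8 := congrArg (fun p => p.coeff (bx s)) h7
    simp only [coeff_pol] at h8
    exact h8.symm

private theorem N10_C_dvd_pol {K N : ℕ} (p : ℤ) (z : (Fin K → Fin N) → ℤ) (h : ∀ s, p ∣ z s) :
    (C p : MvPolynomial (Fin K) ℤ) ∣ pol z := by
  unfold pol
  refine Finset.dvd_sum fun s _ => ?_
  obtain ⟨k, hk⟩ := h s
  exact ⟨monomial (bx s) k, by rw [C_mul_monomial, hk]⟩

/-- the coefficients of `(e B, e A)` are all divisible by the prime `p` only if those of `e` are -/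
theorem vm_prime {K : ℕ} {A B : MvPolynomial (Fin K) ℤ} (hAB : IsRelPrime A B) (N : ℕ) (p : ℕ)
    (hp : p.Prime) (y : Wx A B N → ℤ) (h : ∀ i, (p : ℤ) ∣ (y ᵥ* vm A B N) i) (t : Wx A B N) :
    (p : ℤ) ∣ y t := by
  have hpp : Prime (C (p : ℤ) : MvPolynomial (Fin K) ℤ) :=
    (MvPolynomial.prime_C_iff _).mpr (Nat.prime_iff_prime_int.mp hp)
  have h1 : (C (p : ℤ) : MvPolynomial (Fin K) ℤ) ∣ cof y * B := by
    rw [← vecMul_vm_inl]
    exact N10_C_dvd_pol _ _ fun s => h (Sum.inl s)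
  have h2 : (C (p : ℤ) : MvPolynomial (Fin K) ℤ) ∣ cof y * A := by
    rw [← vecMul_vm_inr]
    exact N10_C_dvd_pol _ _ fun s => h (Sum.inr s)
  have h3 : (C (p : ℤ) : MvPolynomial (Fin K) ℤ) ∣ cof y := by
    rcases hpp.dvd_or_dvd h1 with h4 | h4
    · exact h4
    · rcases hpp.dvd_or_dvd h2 with h5 | h5
      · exact h5
      · exact absurd (hAB h5 h4) hpp.not_isUnit
  have h6 := (C_dvd_iff_dvd_coeff _ _).mp h3 (tx t)
  rwa [N10_coeff_cof] at h6

theorem exists_vm_inverse {K : ℕ} {A B : MvPolynomial (Fin K) ℤ} (hA : A ≠ 0)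
    (hAB : IsRelPrime A B) (N : ℕ) : ∃ X : Matrix (Ix K N) (Wx A B N) ℤ, vm A B N * X = 1 := by
  classical
  refine exists_right_inverse _ (fun y hy => ?_) fun p hp y hy => vm_prime hAB N p hp y hy
  have h1 := vecMul_vm_inr A B N y
  rw [hy] at h1
  have h2 : pol (fun _ : Fin K → Fin N => (0 : ℤ)) = 0 := (pol_eq_zero _).mpr rfl
  have h3 : cof y * A = 0 := by rw [← h1]; exact h2
  exact (cof_eq_zero y).mp ((mul_eq_zero.mp h3).resolve_right hA)

private theorem N10_half {K : ℕ} {A B : MvPolynomial (Fin K) ℤ} (N : ℕ) (c : Wx A B N → ℝ)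
    (D : MvPolynomial (Fin K) ℤ) (hD : ∀ i, D.degreeOf i ≤ cd A B i) :
    ∑ s : Fin K → Fin N,
      (∑ t, c t * (((monomial (tx t) (1 : ℤ) * D).coeff (bx s) : ℤ) : ℝ)) ^ 2 =
      ∫ x : Tor (Fin K), ‖∑ t, (c t : ℂ) * mon x (tx t)‖ ^ 2 * ‖ev x D‖ ^ 2 := by
  classical
  have hS : ∀ t : Wx A B N, ∀ s ∈ D.support,
      tx t + s ∈ (Finset.univ : Finset (Fin K → Fin N)).image bx := by
    intro t s hs
    rw [Finset.mem_image]
    refine ⟨fun i => ⟨(tx t + s) i, N10_deg_le hD t s hs i⟩, Finset.mem_univ _, ?_⟩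
    ext i
    rfl
  rw [← parseval D tx _ hS c, Finset.sum_image (fun a _ b _ hab => bx_injective hab)]

private theorem N10_quad {ι w : Type} [Fintype ι] [Fintype w] (v : w → ι → ℝ) (c : w → ℝ) :
    ∑ t, ∑ t', c t * (∑ i, v t i * v t' i) * c t' = ∑ i, (∑ t, c t * v t i) ^ 2 := by
  calc ∑ t, ∑ t', c t * (∑ i, v t i * v t' i) * c t'
      = ∑ t, ∑ t', ∑ i, (c t * v t i) * (c t' * v t' i) := by
        refine Finset.sum_congr rfl fun t _ => Finset.sum_congr rfl fun t' _ => ?_
        rw [Finset.mul_sum, Finset.sum_mul]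
        refine Finset.sum_congr rfl fun i _ => ?_
        ring
    _ = ∑ i, ∑ t, ∑ t', (c t * v t i) * (c t' * v t' i) := by
        rw [Finset.sum_comm' (s := Finset.univ) (t := fun _ => Finset.univ)
          (t' := Finset.univ) (s' := fun _ => Finset.univ) (by simp)]
        rw [Finset.sum_comm]
        calc _ = ∑ t, ∑ i, ∑ t', (c t * v t i) * (c t' * v t' i) := by
              refine Finset.sum_congr rfl fun t _ => ?_
              rw [Finset.sum_comm]
          _ = _ := Finset.sum_comm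
    _ = ∑ i, (∑ t, c t * v t i) ^ 2 := by
        refine Finset.sum_congr rfl fun i _ => ?_
        rw [sq, Finset.sum_mul_sum]

/-- the quadratic form of the Gram matrix -/
theorem vm_form {K : ℕ} (A B : MvPolynomial (Fin K) ℤ) (N : ℕ) (c : Wx A B N → ℝ) :
    ∑ t, ∑ t', c t * ((((vm A B N) * (vm A B N)ᵀ) t t' : ℤ) : ℝ) * c t' =
      ∫ x : Tor (Fin K), ‖∑ t, (c t : ℂ) * mon x (tx t)‖ ^ 2 * (‖ev x A‖ ^ 2 + ‖ev x B‖ ^ 2) := by
  have h1 : ∀ t t' : Wx A B N, ((((vm A B N) * (vm A B N)ᵀ) t t' : ℤ) : ℝ) =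
      ∑ i, ((vm A B N t i : ℤ) : ℝ) * ((vm A B N t' i : ℤ) : ℝ) := by
    intro t t'
    rw [Matrix.mul_apply]
    push_cast
    rfl
  simp only [h1]
  rw [N10_quad (fun t i => ((vm A B N t i : ℤ) : ℝ)) c, Fintype.sum_sum_type]
  have hA := N10_half N c A (fun i => le_max_left _ _)
  have hB := N10_half N c B (fun i => le_max_right _ _)
  have hint : ∀ D : MvPolynomial (Fin K) ℤ, Integrable
      (fun x : Tor (Fin K) => ‖∑ t, (c t : ℂ) * mon x (tx t)‖ ^ 2 * ‖ev x D‖ ^ 2) := by
    intro D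
    have hc : Continuous
        (fun x : Tor (Fin K) => ‖∑ t, (c t : ℂ) * mon x (tx t)‖ ^ 2 * ‖ev x D‖ ^ 2) := by
      refine Continuous.mul (Continuous.pow (Continuous.norm ?_) 2)
        (Continuous.pow (continuous_ev D).norm 2)
      exact continuous_finsetSum _ fun t _ => continuous_const.mul (continuous_mon _)
    exact hc.integrable_of_hasCompactSupport (HasCompactSupport.of_compactSpace _)
  have h2 : ∫ x : Tor (Fin K), ‖∑ t, (c t : ℂ) * mon x (tx t)‖ ^ 2 * (‖ev x A‖ ^ 2 + ‖ev x B‖ ^ 2) =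
      (∫ x : Tor (Fin K), ‖∑ t, (c t : ℂ) * mon x (tx t)‖ ^ 2 * ‖ev x A‖ ^ 2) +
      ∫ x : Tor (Fin K), ‖∑ t, (c t : ℂ) * mon x (tx t)‖ ^ 2 * ‖ev x B‖ ^ 2 := by
    rw [← integral_add (hint A) (hint B)]
    refine integral_congr_ae (Filter.Eventually.of_forall fun x => ?_)
    simp only []
    ring
  rw [h2, ← hA, ← hB, add_comm]
  rfl

end Pool.Agent.NRC
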