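import Pool.Agent.NRC.N04Ker
import Pool.Agent.NRC.N05Dual
import Pool.Agent.NRC.N07Toep
import Pool.Agent.NRC.N10Mult

/-!
# Module N11LemD: Lemma D

PROOF of `lemD`. `q` from `hM`; `R = row γ P Q N : ℤ → Ix K N → ℤ`; `exists_rows R (row_finite ..) q` gives `E` with
(i) kernel of `RE R E` = kernel of all rows; (ii) `det (RE REᵀ) ≠ 0`; (iii) `det (RE REᵀ) ≤ ∏_E rho ≤ (2M)^|E|` (`rho_row_le`;
`s ↦ wt γ (bx s)` is injective by `hinj` and `bx_injective`). `v = vm A B N`, `X` from `exists_vm_inverse`.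
`RE R E * vᵀ = 0`: the row `t` of `v` is `y ᵥ* v` with `y = Pi.single t 1`, i.e. the pair `(b, a) = (x^t B, x^t A)`, and
`sp γ (x^t B) * P = sp γ (x^t A) * Q` by `hrel` (use `row_kernel`, `vecMul_vm_inl/inr`).
Kernel: if `RE R E *ᵥ x = 0` then all rows kill `x`, `row_kernel`: `sp γ b * P = sp γ a * Q`, so `b * A = a * B` (`mul_pair_eq`, proved
below; supports: exponents of `b` are `< N`, of `A` are `≤ cd < N`, so sums are `< 2N`), so `x = y ᵥ* v` (`exists_cof`).
So `card E + card (Wx A B N) = card (Ix K N) = 2 N^K` (`card_add_card`), `card Wx = ∏ (N - cd)`, and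
`det (v vᵀ) ≤ det (RE REᵀ)` (`gram_le_gram`). `log_det_ge` with `G = (v vᵀ)` cast to ℝ (`vm_form`, with the roles: `A`, `B`), `hGs` symmetric:
`card Wx * LL A B ≤ log det (v vᵀ) ≤ log ((2M)^|E|) = |E| log (2M)`. (`det (RE REᵀ) ≥ 1` by `gram_det_nonneg` and (ii), so
`(2M)^|E| ≥ 1 > 0`.)
-/

open MvPolynomial MeasureTheory Matrix Pool.Agent.H27Mahler Pool.Agent.SpCl

namespace Pool.Agent.NRC

theorem mul_pair_eq {K : ℕ} {γ : Fin K → ℤ} {P Q : LZ} (hQ : Q ≠ 0)
    {A B a b : MvPolynomial (Fin K) ℤ} (N : ℕ)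
    (hrel : sp γ A * Q = sp γ B * P) (hab : sp γ b * P = sp γ a * Q)
    (hA : ∀ s ∈ (b * A - a * B).support, ∀ i, s i < 2 * N)
    (hinj : Set.InjOn (wt γ) {s : Fin K →₀ ℕ | ∀ i, s i < 2 * N}) : b * A = a * B := by
  rw [← sub_eq_zero]
  by_contra hne
  refine sp_ne_zero hne (hinj.mono fun s hs => hA s hs) ?_
  have h1 : sp γ (b * A - a * B) * Q = 0 := by
    rw [map_sub, map_mul, map_mul, sub_mul, mul_assoc, hrel]
    calc sp γ b * (sp γ B * P) - sp γ a * sp γ B * Q
        = sp γ B * (sp γ b * P) - sp γ a * sp γ B * Q := by ring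
      _ = 0 := by rw [hab]; ring
  exact (mul_eq_zero.mp h1).resolve_right hQ

private theorem LemD_support {K : ℕ} {A b : MvPolynomial (Fin K) ℤ} {N : ℕ}
    (hb : ∀ s ∈ b.support, ∀ i, s i < N) (hA : ∀ i, A.degreeOf i < N) :
    ∀ s ∈ (b * A).support, ∀ i, s i < 2 * N := by
  classical
  intro s hs i
  have h1 := MvPolynomial.support_mul _ _ hs
  rw [Finset.mem_add] at h1
  obtain ⟨s1, h2, s2, h3, rfl⟩ := h1
  have h4 := hb s1 h2 i
  have h5 : s2 i ≤ A.degreeOf i := by
    rw [MvPolynomial.degreeOf_eq_sup]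
    exact Finset.le_sup (f := fun m : Fin K →₀ ℕ => m i) h3
  have h6 := hA i
  rw [Finsupp.add_apply]
  omega

private theorem LemD_row {K : ℕ} {A B : MvPolynomial (Fin K) ℤ} {N : ℕ} (t : Wx A B N) :
    Pi.single t (1 : ℤ) ᵥ* vm A B N = vm A B N t := by
  classical
  rw [Matrix.single_one_vecMul]
  rfl

private theorem LemD_kills {K : ℕ} {γ : Fin K → ℤ} {P Q : LZ} {A B : MvPolynomial (Fin K) ℤ}
    (hrel : sp γ A * Q = sp γ B * P) (N : ℕ) (t : Wx A B N) (e : ℤ) :
    ∑ i, row γ P Q N e i * vm A B N t i = 0 := by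
  classical
  refine (row_kernel γ P Q N (vm A B N t)).mpr ?_ e
  have h1 := vecMul_vm_inl A B N (Pi.single t 1)
  have h2 := vecMul_vm_inr A B N (Pi.single t 1)
  rw [LemD_row] at h1 h2
  rw [h1, h2, map_mul, map_mul, mul_assoc, ← hrel, mul_assoc]

theorem lemD {K : ℕ} {γ : Fin K → ℤ} {P Q : LZ} (hP : P ≠ 0) (hQ : Q ≠ 0)
    {A B : MvPolynomial (Fin K) ℤ} (hA : A ≠ 0) (hB : B ≠ 0) (hAB : IsRelPrime A B)
    (hrel : sp γ A * Q = sp γ B * P) (N : ℕ) (hN : ∀ i, cd A B i < N)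
    (hinj : Set.InjOn (wt γ) {s : Fin K →₀ ℕ | ∀ i, s i < 2 * N}) {M : ℝ} (hM : Bd P Q M) :
    ((∏ i, (N - cd A B i) : ℕ) : ℝ) * LL A B ≤
      ((2 * N ^ K - ∏ i, (N - cd A B i) : ℕ) : ℝ) * Real.log (2 * M) := by
  classical
  obtain ⟨q, hq0, h1, h2⟩ := hM
  set R := row γ P Q N with hR
  obtain ⟨E, hE1, hE2, hE3, -⟩ := exists_rows R (row_finite γ P Q N) q hq0
  obtain ⟨X, hX⟩ := exists_vm_inverse hA hAB N
  have hRv : RE R E * (vm A B N)ᵀ = 0 := by
    ext e t
    rw [Matrix.mul_apply]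
    exact LemD_kills hrel N t e
  have hker : ∀ x : Ix K N → ℤ, RE R E *ᵥ x = 0 → ∃ y : Wx A B N → ℤ, x = y ᵥ* vm A B N := by
    intro x hx
    have h3 : ∀ e ∈ E, ∑ i, R e i * x i = 0 := fun e he => congrFun hx ⟨e, he⟩
    have h4 := (row_kernel γ P Q N x).mp (hE1 x h3)
    have h5 := mul_pair_eq (a := pol fun s => x (Sum.inr s)) (b := pol fun s => x (Sum.inl s)) hQ N
      hrel h4 ?_ hinj
    · exact exists_cof hA hB hAB N (fun i => (hN i).le) x h5
    · intro s hs i
      have h6 := MvPolynomial.support_sub _ _ _ hs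
      rcases Finset.mem_union.mp h6 with h7 | h7
      · exact LemD_support (pol_support_lt _) (fun i => (le_max_left _ _).trans_lt (hN i)) s h7 i
      · exact LemD_support (pol_support_lt _) (fun i => (le_max_right _ _).trans_lt (hN i)) s h7 i
  have hcard := card_add_card (RE R E) (vm A B N) X hX hRv hE2 hker
  have hdet := gram_le_gram (RE R E) (vm A B N) X hX hRv hcard hE2
  set G : Matrix (Wx A B N) (Wx A B N) ℝ := ((vm A B N) * (vm A B N)ᵀ).map (Int.castRingHom ℝ)
    with hG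
  have hGs : G.IsHermitian := by
    ext t t'
    rw [Matrix.conjTranspose_apply, star_trivial, hG, Matrix.map_apply, Matrix.map_apply]
    congr 1
    rw [Matrix.mul_apply, Matrix.mul_apply]
    exact Finset.sum_congr rfl fun i _ => by
      rw [Matrix.transpose_apply, Matrix.transpose_apply, mul_comm]
  have hlog := log_det_ge (A := A) (B := B) hA (tx : Wx A B N → (Fin K →₀ ℕ)) tx_injective G hGs ?_
  swap
  · intro c
    exact vm_form A B N c
  have hGdet : G.det = (((vm A B N) * (vm A B N)ᵀ).det : ℝ) := by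
    rw [hG, ← RingHom.mapMatrix_apply, ← RingHom.map_det]
    rfl
  have hinj' : Function.Injective fun s : Fin K → Fin N => wt γ (bx s) := by
    intro s t hst
    apply bx_injective
    refine hinj ?_ ?_ hst
    · intro i
      have := (s i).2
      rw [bx_apply]
      omega
    · intro i
      have := (t i).2
      rw [bx_apply]
      omega
  have hprod : ∏ e ∈ E, rho q R e ≤ (2 * M) ^ E.card := by
    rw [← Finset.prod_const]
    exact Finset.prod_le_prod (fun e _ => rho_nonneg q R e)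
      fun e _ => rho_row_le γ P Q N q M hinj' h1 h2 e
  have h8 : G.det ≤ (2 * M) ^ E.card := by
    rw [hGdet]
    refine le_trans ?_ (hE3.trans hprod)
    exact_mod_cast hdet
  have h9 : Real.log G.det ≤ (E.card : ℝ) * Real.log (2 * M) := by
    rw [← Real.log_pow]
    exact Real.log_le_log hlog.1 h8
  have h10 : Fintype.card (Wx A B N) = ∏ i, (N - cd A B i) := by
    rw [Fintype.card_pi]
    simp
  have h11 : Fintype.card (Ix K N) = 2 * N ^ K := by
    simp [Fintype.card_sum]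
    ring
  rw [h10, h11, Fintype.card_coe] at hcard
  have h12 : E.card = 2 * N ^ K - ∏ i, (N - cd A B i) := by omega
  rw [← h12, ← h10]
  exact hlog.2.trans h9

end Pool.Agent.NRC
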