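import Pool.Agent.NRC.N11LemD

/-!
# Module N12ThmD: Theorem D

PROOF. For every large `N` (all `cd A B i < N`): eventually in `l` the weight is injective on the finite set of exponents `< 2N`
(`Free.injOn`), `hrel` and `hM` hold; take one such `n` (`l.NeBot`) and apply `lemD`:
`w_N * LL A B ≤ D_N * log (2M)`, `w_N = ∏ (N - cd i)`, `D_N = 2 N^K - w_N`. Divide by `N^K` and let `N → ∞`: `w_N / N^K → 1`,
`D_N / N^K → 1` (natural subtraction is fine: `w_N ≤ N^K`).
-/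

open MvPolynomial MeasureTheory Filter Topology Pool.Agent.H27Mahler Pool.Agent.SpCl

namespace Pool.Agent.NRC

private theorem thmD_tendsto {K : ℕ} (c : Fin K → ℕ) :
    Tendsto (fun N : ℕ => ((∏ i, (N - c i) : ℕ) : ℝ) / (N : ℝ) ^ K) atTop (𝓝 1) := by
  have h1 : Tendsto (fun N : ℕ => ∏ i : Fin K, (1 - (c i : ℝ) / (N : ℝ))) atTop
      (𝓝 (∏ _i : Fin K, (1 : ℝ))) := by
    apply tendsto_finsetProd
    intro i _
    have := (tendsto_const_div_atTop_nhds_zero_nat (c i : ℝ)).const_sub 1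
    simpa using this
  rw [Finset.prod_const_one] at h1
  refine h1.congr' ?_
  have hbig : ∀ᶠ N : ℕ in atTop, ∀ i : Fin K, c i < N :=
    eventually_all.2 fun i => eventually_gt_atTop (c i)
  filter_upwards [hbig, eventually_gt_atTop 0] with N hN hN0
  have hNr : (N : ℝ) ≠ 0 := by exact_mod_cast hN0.ne'
  have hcast : ((∏ i, (N - c i) : ℕ) : ℝ) = ∏ i : Fin K, ((N : ℝ) - c i) := by
    rw [Nat.cast_prod]
    refine Finset.prod_congr rfl fun i _ => ?_
    rw [Nat.cast_sub (hN i).le]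
  have hpow : (N : ℝ) ^ K = ∏ _i : Fin K, (N : ℝ) := by simp
  rw [hcast, hpow, ← Finset.prod_div_distrib]
  refine Finset.prod_congr rfl fun i _ => ?_
  field_simp

theorem thmD {K : ℕ} {l : Filter ℕ} [l.NeBot] {γ : ℕ → Fin K → ℤ} (hγ : Free l γ) {P Q : ℕ → LZ}
    (hP : ∀ n, P n ≠ 0) (hQ : ∀ n, Q n ≠ 0) {A B : MvPolynomial (Fin K) ℤ} (hA : A ≠ 0)
    (hB : B ≠ 0) (hAB : IsRelPrime A B) (hrel : ∀ᶠ n in l, sp (γ n) A * Q n = sp (γ n) B * P n)
    {M : ℝ} (hM : ∀ᶠ n in l, Bd (P n) (Q n) M) : LL A B ≤ Real.log (2 * M) := by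
  have hbig : ∀ᶠ N : ℕ in atTop, ∀ i : Fin K, cd A B i < N :=
    eventually_all.2 fun i => eventually_gt_atTop (cd A B i)
  have hineq : ∀ᶠ N : ℕ in atTop,
      ((∏ i, (N - cd A B i) : ℕ) : ℝ) / (N : ℝ) ^ K * LL A B ≤
        (2 - ((∏ i, (N - cd A B i) : ℕ) : ℝ) / (N : ℝ) ^ K) * Real.log (2 * M) := by
    filter_upwards [hbig, eventually_gt_atTop 0] with N hN hN0
    have hfin : {s : Fin K →₀ ℕ | ∀ i, s i < 2 * N}.Finite := by
      refine (Set.finite_Iic (Finsupp.equivFunOnFinite.symm (fun _ : Fin K => 2 * N))).subset ?_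
      intro s hs
      rw [Set.mem_Iic, Finsupp.le_def]
      intro i
      exact (hs i).le
    have hinj := hγ.injOn hfin.toFinset
    rw [Set.Finite.coe_toFinset] at hinj
    obtain ⟨n, ⟨hn1, hn2⟩, hn3⟩ := ((hinj.and hrel).and hM).exists
    have h := lemD (hP n) (hQ n) hA hB hAB hn2 N hN hn1 hn3
    have hle : (∏ i, (N - cd A B i) : ℕ) ≤ 2 * N ^ K := by
      calc (∏ i, (N - cd A B i) : ℕ) ≤ ∏ _i : Fin K, N :=
            Finset.prod_le_prod' fun i _ => Nat.sub_le _ _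
        _ = N ^ K := by simp
        _ ≤ 2 * N ^ K := by omega
    rw [Nat.cast_sub hle] at h
    push_cast at h
    have hNr : (0 : ℝ) < (N : ℝ) ^ K := by
      have : (0 : ℝ) < N := by exact_mod_cast hN0
      positivity
    push_cast
    have e1 : (∏ i, ((N - cd A B i : ℕ) : ℝ)) / (N : ℝ) ^ K * LL A B =
        (∏ i, ((N - cd A B i : ℕ) : ℝ)) * LL A B / (N : ℝ) ^ K := by ring
    have e2 : (2 - (∏ i, ((N - cd A B i : ℕ) : ℝ)) / (N : ℝ) ^ K) * Real.log (2 * M) =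
        (2 * (N : ℝ) ^ K - ∏ i, ((N - cd A B i : ℕ) : ℝ)) * Real.log (2 * M) / (N : ℝ) ^ K := by
      field_simp
    rw [e1, e2]
    exact div_le_div_of_nonneg_right h hNr.le
  have ht := thmD_tendsto (cd A B)
  have hl := (ht.mul_const (LL A B))
  have hr := ((ht.const_sub 2).mul_const (Real.log (2 * M)))
  have := le_of_tendsto_of_tendsto hl hr hineq
  linarith

end Pool.Agent.NRC
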