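import Mathlib

/-!
# Module O01Root: outer polynomial for one root

PROOF. `‖α‖ > 1`: `q = ∑_{j ≤ J} (X / α)^j`: `q (X - α) = -α (1 - (X/α)^(J+1))`, norm on the circle `≤ ‖α‖ (1 + ‖α‖^-(J+1))
≤ ‖α‖ (1 + δ)` for `J` large.
`‖α‖ ≤ 1`: for `0 < r < 1` put `w = r * conj α`, `q = ∑_{j ≤ J} (w X)^j`: `q (1 - w X) = 1 - (w X)^(J+1)`. For `‖z‖ = 1`:
`‖z - α‖ ≤ (2 / (1 + r)) ‖1 - r conj α z‖` (with `β = conj z α`, `‖β‖ ≤ 1`: `‖z - α‖ = ‖1 - β‖`,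
`‖1 - r conj α z‖ = ‖1 - r conj β‖ = ‖1 - r β‖`, and `‖1 - β‖² (1 + r)² ≤ 4 ‖1 - r β‖²`: with `β = x + i y`, `x² + y² ≤ 1`:
`4 (1 - 2 r x + r² ρ) - (1+r)² (1 - 2 x + ρ)`, `ρ = x² + y² ≤ 1`: coefficient of `ρ` is `4 r² - (1 + r)² = (3 r + 1)(r - 1) ≤ 0` so
the minimum over `ρ ∈ [x², 1]` is at `ρ = 1`: `4 (1 + r² - 2 r x) - 2 (1+r)² (1 - x) = 2 (1 - r)² (1 + x)`... which is
`4 + 4 r² - 2 (1+r)² + x (2 (1+r)² - 8 r) = 2 (1-r)² + 2 x (1-r)² ≥ 0`.) So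
`‖q(z) (z - α)‖ ≤ (2/(1+r)) ‖1 - (w z)^(J+1)‖ ≤ (2/(1+r)) (1 + r^(J+1))`, which is `≤ 1 + δ` for `r` close to `1` and then `J` large.
-/

open Polynomial

namespace Pool.Agent.NRC

private theorem norm_sub_le_aux {z α : ℂ} {r : ℝ} (hz : ‖z‖ = 1) (hα : ‖α‖ ≤ 1) (hr : 0 < r)
    (hr1 : r < 1) :
    ‖z - α‖ * (1 + r) ≤ 2 * ‖1 - ((r : ℂ) * (starRingEnd ℂ) α) * z‖ := by
  have hz2 : z.re ^ 2 + z.im ^ 2 = 1 := by
    have h := Complex.normSq_eq_norm_sq z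
    rw [hz, Complex.normSq_apply] at h
    linarith
  have ha2 : α.re ^ 2 + α.im ^ 2 ≤ 1 := by
    have h := Complex.normSq_eq_norm_sq α
    rw [Complex.normSq_apply] at h
    nlinarith [norm_nonneg α]
  have h1 : ‖z - α‖ ^ 2 = (z.re - α.re) ^ 2 + (z.im - α.im) ^ 2 := by
    rw [← Complex.normSq_eq_norm_sq, Complex.normSq_apply]
    simp only [Complex.sub_re, Complex.sub_im]
    ring
  have h2 : ‖1 - ((r : ℂ) * (starRingEnd ℂ) α) * z‖ ^ 2 =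
      (1 - r * (α.re * z.re + α.im * z.im)) ^ 2 + (r * (α.re * z.im - α.im * z.re)) ^ 2 := by
    rw [← Complex.normSq_eq_norm_sq, Complex.normSq_apply]
    simp only [Complex.sub_re, Complex.sub_im, Complex.mul_re, Complex.mul_im, Complex.one_re,
      Complex.one_im, Complex.ofReal_re, Complex.ofReal_im, Complex.conj_re, Complex.conj_im]
    ring
  refine le_of_sq_le_sq ?_ (by positivity)
  rw [mul_pow, mul_pow, h1, h2]
  set s := α.re * z.re + α.im * z.im with hs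
  have e1 : (z.re - α.re) ^ 2 + (z.im - α.im) ^ 2 = 1 - 2 * s + (α.re ^ 2 + α.im ^ 2) := by
    rw [hs]; linear_combination hz2
  have e2 : (1 - r * s) ^ 2 + (r * (α.re * z.im - α.im * z.re)) ^ 2 =
      1 - 2 * r * s + r ^ 2 * (α.re ^ 2 + α.im ^ 2) := by
    rw [hs]; linear_combination (r ^ 2 * (α.re ^ 2 + α.im ^ 2)) * hz2
  rw [e1, e2]
  have hs1 : -1 ≤ s := by
    rw [hs]
    nlinarith [sq_nonneg (α.re + z.re), sq_nonneg (α.im + z.im)]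
  set ρ := α.re ^ 2 + α.im ^ 2 with hρ
  have hk : 0 ≤ (1 - r) * (1 + 3 * r) * (1 - ρ) := by
    apply mul_nonneg (mul_nonneg (by linarith) (by linarith)) (by linarith)
  have hk2 : 0 ≤ 2 * (1 - r) ^ 2 * (1 + s) := by
    apply mul_nonneg (by positivity) (by linarith)
  nlinarith [hk, hk2]

theorem exists_root_poly (α : ℂ) {δ : ℝ} (hδ : 0 < δ) : ∃ q : ℂ[X], q.coeff 0 = 1 ∧
    ∀ z : ℂ, ‖z‖ = 1 → ‖(q * (X - C α)).eval z‖ ≤ (1 + δ) * max 1 ‖α‖ := by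
  have hcoeff : ∀ (w : ℂ) (J : ℕ), (∑ j ∈ Finset.range (J + 1), (C w * X) ^ j : ℂ[X]).coeff 0 = 1 := by
    intro w J
    rw [Polynomial.coeff_zero_eq_eval_zero, Polynomial.eval_finset_sum, Finset.sum_range_succ']
    simp
  have heval : ∀ (w z : ℂ) (J : ℕ),
      (∑ j ∈ Finset.range (J + 1), (C w * X) ^ j : ℂ[X]).eval z * (1 - w * z) =
        1 - (w * z) ^ (J + 1) := by
    intro w z J
    rw [Polynomial.eval_finset_sum]
    have : ∀ j ∈ Finset.range (J + 1), ((C w * X : ℂ[X]) ^ j).eval z = (w * z) ^ j := by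
      intro j _
      simp
    rw [Finset.sum_congr rfl this]
    exact geom_sum_mul_neg (w * z) (J + 1)
  by_cases hα : ‖α‖ ≤ 1
  · -- small root
    set r : ℝ := 1 / (1 + δ) with hr
    have hr0 : 0 < r := by positivity
    have hr1 : r < 1 := by
      rw [hr, div_lt_one (by positivity)]
      linarith
    obtain ⟨J, hJ⟩ := exists_pow_lt_of_lt_one (show 0 < δ / 2 by positivity) hr1
    refine ⟨∑ j ∈ Finset.range (J + 1), (C ((r : ℂ) * (starRingEnd ℂ) α) * X) ^ j,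
      hcoeff _ _, ?_⟩
    intro z hz
    rw [max_eq_left hα, mul_one, Polynomial.eval_mul, norm_mul]
    have h1 : (X - C α : ℂ[X]).eval z = z - α := by simp
    rw [h1]
    set w : ℂ := (r : ℂ) * (starRingEnd ℂ) α with hw
    have hwz : ‖w * z‖ ≤ r := by
      rw [norm_mul, hz, mul_one, hw, norm_mul, Complex.norm_real, Real.norm_of_nonneg hr0.le,
        Complex.norm_conj]
      exact mul_le_of_le_one_right hr0.le hα
    have h2 := norm_sub_le_aux hz hα hr0 hr1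
    have h3 : ‖(∑ j ∈ Finset.range (J + 1), (C w * X) ^ j : ℂ[X]).eval z‖ * ‖1 - w * z‖ ≤
        1 + δ / 2 := by
      rw [← norm_mul, heval]
      have e1 : ‖(w * z) ^ (J + 1)‖ ≤ δ / 2 := by
        rw [norm_pow]
        calc ‖w * z‖ ^ (J + 1) ≤ r ^ (J + 1) := pow_le_pow_left₀ (norm_nonneg _) hwz _
          _ ≤ r ^ J := pow_le_pow_of_le_one hr0.le hr1.le (Nat.le_succ J)
          _ ≤ δ / 2 := hJ.le
      calc ‖1 - (w * z) ^ (J + 1)‖ ≤ ‖(1 : ℂ)‖ + ‖(w * z) ^ (J + 1)‖ := norm_sub_le _ _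
        _ ≤ 1 + δ / 2 := by rw [norm_one]; linarith
    set Q := ‖(∑ j ∈ Finset.range (J + 1), (C w * X) ^ j : ℂ[X]).eval z‖ with hQ
    have hQ0 : 0 ≤ Q := norm_nonneg _
    have h4 : Q * ‖z - α‖ * (1 + r) ≤ 2 * (1 + δ / 2) := by
      calc Q * ‖z - α‖ * (1 + r) = Q * (‖z - α‖ * (1 + r)) := by ring
        _ ≤ Q * (2 * ‖1 - w * z‖) := mul_le_mul_of_nonneg_left h2 hQ0
        _ = 2 * (Q * ‖1 - w * z‖) := by ring
        _ ≤ 2 * (1 + δ / 2) := by linarith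
    have h5 : (1 + δ) * (1 + r) = 2 * (1 + δ / 2) := by
      rw [hr]; field_simp; ring
    have h6 : Q * ‖z - α‖ * (1 + r) ≤ (1 + δ) * (1 + r) := by rw [h5]; exact h4
    exact le_of_mul_le_mul_right h6 (by linarith)
  · -- large root
    push Not at hα
    have hα0 : α ≠ 0 := by
      intro h
      rw [h, norm_zero] at hα
      linarith
    have hinv : ‖α‖⁻¹ < 1 := inv_lt_one_of_one_lt₀ hα
    obtain ⟨J, hJ⟩ := exists_pow_lt_of_lt_one hδ hinv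
    refine ⟨∑ j ∈ Finset.range (J + 1), (C α⁻¹ * X) ^ j, hcoeff _ _, ?_⟩
    intro z hz
    rw [max_eq_right hα.le, Polynomial.eval_mul]
    have h1 : (X - C α : ℂ[X]).eval z = (1 - α⁻¹ * z) * (-α) := by
      simp only [Polynomial.eval_sub, Polynomial.eval_X, Polynomial.eval_C]
      field_simp
      ring
    rw [h1, ← mul_assoc, heval, norm_mul, norm_neg]
    have e1 : ‖(α⁻¹ * z) ^ (J + 1)‖ ≤ δ := by
      rw [norm_pow, norm_mul, hz, mul_one, norm_inv]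
      calc ‖α‖⁻¹ ^ (J + 1) ≤ ‖α‖⁻¹ ^ J :=
            pow_le_pow_of_le_one (by positivity) hinv.le (Nat.le_succ J)
        _ ≤ δ := hJ.le
    have e2 : ‖1 - (α⁻¹ * z) ^ (J + 1)‖ ≤ 1 + δ := by
      calc ‖1 - (α⁻¹ * z) ^ (J + 1)‖ ≤ ‖(1 : ℂ)‖ + ‖(α⁻¹ * z) ^ (J + 1)‖ := norm_sub_le _ _
        _ ≤ 1 + δ := by rw [norm_one]; linarith
    exact mul_le_mul_of_nonneg_right e2 (norm_nonneg _)

end Pool.Agent.NRC
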