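import Pool.Agent.NRC.O01Root

/-!
# Module O02Poly: outer polynomial of a polynomial

PROOF of `exists_outer`. `p = C lc * ∏_{α ∈ roots} (X - C α)`, `mahlerMeasure p = ‖lc‖ * ∏ max 1 ‖α‖`
(`Polynomial.mahlerMeasure_eq_leadingCoeff_mul_prod_roots`). Choose `δ' > 0` with `(1 + δ')^(natDegree p) ≤ 1 + δ`, the product
of the polynomials of `exists_root_poly α δ'` over the roots (Multiset induction).
PROOF of `exists_outer_real`. `q` from `exists_outer` for `p.map (Int.castRingHom ℂ)`; `q' = ` the real polynomial with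
coefficients `Re (q.coeff j)`; `q'(z) = (q(z) + conj (q (conj z))) / 2`, and `‖p (conj z)‖ = ‖p z‖`, so
`‖q'(z)‖ ‖p(z)‖ ≤ (‖q(z) p(z)‖ + ‖q(conj z) p(conj z)‖) / 2 ≤ (1 + δ) mahlerMeasure p`.
-/

open Polynomial

namespace Pool.Agent.NRC

private theorem outer_multiset (s : Multiset ℂ) {δ : ℝ} (hδ : 0 < δ) : ∃ q : ℂ[X], q.coeff 0 = 1 ∧
    ∀ z : ℂ, ‖z‖ = 1 → ‖(q * (s.map (fun a => X - C a)).prod).eval z‖ ≤
      (1 + δ) ^ (Multiset.card s) * (s.map (fun a => max 1 ‖a‖)).prod := by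
  induction s using Multiset.induction_on with
  | empty => exact ⟨1, by simp, fun z _ => by simp⟩
  | cons a s ih =>
    obtain ⟨q, hq0, hq⟩ := ih
    obtain ⟨q1, hq10, hq1⟩ := exists_root_poly a hδ
    refine ⟨q * q1, by rw [mul_coeff_zero, hq0, hq10, one_mul], fun z hz => ?_⟩
    have e1 : (q * q1 * ((a ::ₘ s).map (fun a => X - C a)).prod).eval z =
        (q1 * (X - C a)).eval z * (q * (s.map (fun a => X - C a)).prod).eval z := by
      rw [Multiset.map_cons, Multiset.prod_cons]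
      simp only [eval_mul]
      ring
    rw [e1, norm_mul, Multiset.card_cons, Multiset.map_cons, Multiset.prod_cons]
    have h1 := hq1 z hz
    have h2 := hq z hz
    calc ‖(q1 * (X - C a)).eval z‖ * ‖(q * (s.map (fun a => X - C a)).prod).eval z‖
        ≤ ((1 + δ) * max 1 ‖a‖) * ((1 + δ) ^ (Multiset.card s) * (s.map (fun a => max 1 ‖a‖)).prod) :=
          mul_le_mul h1 h2 (norm_nonneg _) (by positivity)
      _ = _ := by ring

theorem exists_outer (p : ℂ[X]) {δ : ℝ} (hδ : 0 < δ) : ∃ q : ℂ[X], q.coeff 0 = 1 ∧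
    ∀ z : ℂ, ‖z‖ = 1 → ‖(q * p).eval z‖ ≤ (1 + δ) * p.mahlerMeasure := by
  obtain ⟨δ', hδ', hpow⟩ : ∃ δ' : ℝ, 0 < δ' ∧ (1 + δ') ^ (Multiset.card p.roots) ≤ 1 + δ := by
    have hcont : ContinuousAt (fun x : ℝ => (1 + x) ^ (Multiset.card p.roots)) 0 := by fun_prop
    have hlt : (fun x : ℝ => (1 + x) ^ (Multiset.card p.roots)) 0 < 1 + δ := by simp [hδ]
    have hev := hcont.eventually_lt continuousAt_const hlt
    rw [Metric.eventually_nhds_iff] at hev
    obtain ⟨ε, hε, h⟩ := hev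
    refine ⟨ε / 2, by positivity, (h (y := ε / 2) ?_).le⟩
    rw [Real.dist_eq, sub_zero, abs_of_pos (by positivity)]
    linarith
  obtain ⟨q, hq0, hq⟩ := outer_multiset p.roots hδ'
  refine ⟨q, hq0, fun z hz => ?_⟩
  have hp : p = C p.leadingCoeff * (p.roots.map (fun a => X - C a)).prod :=
    (IsAlgClosed.splits p).eq_prod_roots
  have e1 : (q * p).eval z = p.leadingCoeff * (q * (p.roots.map (fun a => X - C a)).prod).eval z := by
    conv_lhs => rw [hp]
    simp only [eval_mul, eval_C]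
    ring
  rw [e1, norm_mul, mahlerMeasure_eq_leadingCoeff_mul_prod_roots]
  have hP : 0 ≤ (p.roots.map (fun a => max 1 ‖a‖)).prod :=
    zero_le_one.trans (one_le_prod_max_one_norm_roots p)
  calc ‖p.leadingCoeff‖ * ‖(q * (p.roots.map (fun a => X - C a)).prod).eval z‖
      ≤ ‖p.leadingCoeff‖ * ((1 + δ) * (p.roots.map (fun a => max 1 ‖a‖)).prod) := by
        refine mul_le_mul_of_nonneg_left ((hq z hz).trans ?_) (norm_nonneg _)
        exact mul_le_mul_of_nonneg_right hpow hP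
    _ = _ := by ring

theorem exists_outer_real (p : ℤ[X]) {δ : ℝ} (hδ : 0 < δ) : ∃ q : ℝ[X], q.coeff 0 = 1 ∧
    ∀ z : ℂ, ‖z‖ = 1 → ‖(q.map (algebraMap ℝ ℂ)).eval z‖ * ‖(p.map (Int.castRingHom ℂ)).eval z‖ ≤
      (1 + δ) * (p.map (Int.castRingHom ℂ)).mahlerMeasure := by
  obtain ⟨q, hq0, hq⟩ := exists_outer (p.map (Int.castRingHom ℂ)) hδ
  let q' : ℝ[X] := ∑ i ∈ Finset.range (q.natDegree + 1), C (q.coeff i).re * X ^ i
  have hcoeff : ∀ n, q'.coeff n = (q.coeff n).re := by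
    intro n
    simp only [q', finsetSum_coeff, coeff_C_mul_X_pow]
    rw [Finset.sum_ite_eq]
    split_ifs with h
    · rfl
    · rw [Finset.mem_range, not_lt] at h
      rw [coeff_eq_zero_of_natDegree_lt (by omega)]
      simp
  have hmap : q'.map (algebraMap ℝ ℂ) = C (1/2) * (q + q.map (starRingEnd ℂ)) := by
    ext n
    rw [coeff_map, hcoeff, coeff_C_mul, coeff_add, coeff_map]
    rw [Complex.add_conj]
    simp
  have hint : (p.map (Int.castRingHom ℂ)).map (starRingEnd ℂ) = p.map (Int.castRingHom ℂ) := by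
    rw [Polynomial.map_map]
    congr 1
    exact Subsingleton.elim _ _
  have hpc : ∀ z : ℂ, ‖(p.map (Int.castRingHom ℂ)).eval (starRingEnd ℂ z)‖ =
      ‖(p.map (Int.castRingHom ℂ)).eval z‖ := by
    intro z
    conv_lhs => rw [← hint]
    rw [eval_map_apply, Complex.norm_conj]
  refine ⟨q', by rw [hcoeff, hq0]; simp, fun z hz => ?_⟩
  have h1 : (q'.map (algebraMap ℝ ℂ)).eval z = (1/2) * (q.eval z + starRingEnd ℂ (q.eval (starRingEnd ℂ z))) := by
    rw [hmap, eval_mul, eval_C, eval_add]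
    congr 2
    rw [← eval_map_apply, Complex.conj_conj]
  have hz' : ‖starRingEnd ℂ z‖ = 1 := by rw [Complex.norm_conj, hz]
  have h2 := hq z hz
  have h3 := hq _ hz'
  rw [eval_mul, norm_mul] at h2 h3
  rw [hpc] at h3
  have h4 : ‖(q'.map (algebraMap ℝ ℂ)).eval z‖ ≤ (1/2) * (‖q.eval z‖ + ‖q.eval (starRingEnd ℂ z)‖) := by
    rw [h1, norm_mul]
    have : ‖(1/2 : ℂ)‖ = 1/2 := by simp
    rw [this]
    refine mul_le_mul_of_nonneg_left ((norm_add_le _ _).trans ?_) (by norm_num)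
    rw [Complex.norm_conj]
  calc ‖(q'.map (algebraMap ℝ ℂ)).eval z‖ * ‖(p.map (Int.castRingHom ℂ)).eval z‖
      ≤ (1/2) * (‖q.eval z‖ + ‖q.eval (starRingEnd ℂ z)‖) * ‖(p.map (Int.castRingHom ℂ)).eval z‖ :=
        mul_le_mul_of_nonneg_right h4 (norm_nonneg _)
    _ = (1/2) * (‖q.eval z‖ * ‖(p.map (Int.castRingHom ℂ)).eval z‖) +
        (1/2) * (‖q.eval (starRingEnd ℂ z)‖ * ‖(p.map (Int.castRingHom ℂ)).eval z‖) := by ring
    _ ≤ (1/2) * ((1 + δ) * (p.map (Int.castRingHom ℂ)).mahlerMeasure) +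
        (1/2) * ((1 + δ) * (p.map (Int.castRingHom ℂ)).mahlerMeasure) := by gcongr
    _ = _ := by ring

end Pool.Agent.NRC
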