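import Pool.Agent.NRC.Defs

/-!
# Module U01Sel: selection of a finitely generated group of shifts along an ultrafilter

PROOF. `G = (l : Filter ℕ).Germ ℤ` (abelian group; torsion free: `k • g = 0`, `k ≠ 0` gives `g = 0`). For `f : ℕ → ℤ` the
bounded sequence `m n (f n)` (`0 ≤ . ≤ Λ`) has a limit along `l` (compactness of `[0, Λ]`), which depends only on the germ:
`μ : G → ℝ`. For distinct germs `g_1, .., g_r` with representatives `f_i`: for `l`-most `n` the `f_i n` are distinct, so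
`∑ μ g_i ≤ Λ`. Let `s` be the supremum of `∑_{g ∈ F} μ g` over finite sets `F` of germs, and `F₀` with
`∑_{F₀} μ > s - ε`: then `∑_F μ < ε` for every finite `F` disjoint from `F₀`. The subgroup generated by `F₀` is finitely
generated and torsion free, so free with a finite basis `g_1, .., g_K`; `γ n i` = representative of `g_i`. (a) `Free`: for
`t ≠ 0` the germ `∑ t_i g_i` is not `0`, so `dt t (γ n) ≠ 0` for `l`-most `n` (ultrafilter). `Y` = the coordinate vectors of the
elements of `F₀`. (b) Otherwise for `l`-most `n` there is `e_n` with `e_n ≠ dt (τ s + y) (γ n)` for all `s`, `y ∈ Y`, and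
`∑_s m n (e_n - dt (τ s) (γ n)) > ε`. Let `σ` be the germ of `e_n`. The germs `σ - ∑_i τ s i • g_i`, `s : ι`, are distinct (`τ`
injective) and none is in `F₀` (it would be `∑ y_i g_i`, so `e_n = dt (τ s + y) (γ n)` for `l`-most `n`). So the sum of their `μ` is
`< ε`, but it is the limit of `∑_s m n (e_n - dt (τ s) (γ n)) > ε`: contradiction.
-/

open Filter Topology

namespace Pool.Agent.NRC

namespace U01Aux

/-- the germ of a sequence of integers, as an additive map -/
noncomputable def q (l : Ultrafilter ℕ) : (ℕ → ℤ) →+ (l : Filter ℕ).Germ ℤ :=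
  Filter.Germ.coeAddHom (l : Filter ℕ)

theorem q_eq {l : Ultrafilter ℕ} {f g : ℕ → ℤ} : q l f = q l g ↔ f =ᶠ[(l : Filter ℕ)] g :=
  Filter.Germ.coe_eq

theorem q_surj (l : Ultrafilter ℕ) : Function.Surjective (q l) := by
  intro g
  induction g using Filter.Germ.inductionOn with
  | _ f => exact ⟨f, rfl⟩

theorem torsionFree (l : Ultrafilter ℕ) : Module.IsTorsionFree ℤ ((l : Filter ℕ).Germ ℤ) := by
  refine Module.IsTorsionFree.of_smul_eq_zero fun k g hk => ?_
  obtain ⟨f, rfl⟩ := q_surj l g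
  rw [← map_zsmul, ← map_zero (q l), q_eq] at hk
  by_cases hk0 : k = 0
  · exact Or.inl hk0
  · right
    rw [← map_zero (q l), q_eq]
    filter_upwards [hk] with n hn
    have hn' : k • f n = 0 := hn
    rw [smul_eq_mul, mul_eq_zero] at hn'
    exact hn'.resolve_left hk0

/-- choice of a representative -/
noncomputable def rep (l : Ultrafilter ℕ) (g : (l : Filter ℕ).Germ ℤ) : ℕ → ℤ :=
  (q_surj l g).choose

theorem q_rep (l : Ultrafilter ℕ) (g : (l : Filter ℕ).Germ ℤ) : q l (rep l g) = g :=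
  (q_surj l g).choose_spec

theorem exists_lim (l : Ultrafilter ℕ) (m : ℕ → ℤ → ℝ) (h0 : ∀ n e, 0 ≤ m n e) {Λ : ℝ}
    (hΛ : ∀ (n : ℕ) (A : Finset ℤ), ∑ e ∈ A, m n e ≤ Λ) :
    ∃ ν : (l : Filter ℕ).Germ ℤ → ℝ, (∀ g, 0 ≤ ν g) ∧
      (∀ f : ℕ → ℤ, Tendsto (fun n => m n (f n)) (l : Filter ℕ) (𝓝 (ν (q l f)))) ∧
      ∀ F : Finset ((l : Filter ℕ).Germ ℤ), ∑ g ∈ F, ν g ≤ Λ := by
  classical
  have hex : ∀ f : ℕ → ℤ, ∃ x ∈ Set.Icc (0 : ℝ) Λ,
      Tendsto (fun n => m n (f n)) (l : Filter ℕ) (𝓝 x) := by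
    intro f
    have hle : ((l.map fun n => m n (f n) : Ultrafilter ℝ) : Filter ℝ) ≤ 𝓟 (Set.Icc (0 : ℝ) Λ) := by
      rw [Filter.le_principal_iff]
      refine Filter.mem_map.mpr (Filter.univ_mem' fun n => ⟨h0 n _, ?_⟩)
      simpa using hΛ n {f n}
    obtain ⟨x, hx, hx2⟩ := isCompact_Icc.ultrafilter_le_nhds _ hle
    exact ⟨x, hx, hx2⟩
  choose μ hμ1 hμ2 using hex
  have htend : ∀ f : ℕ → ℤ, Tendsto (fun n => m n (f n)) (l : Filter ℕ)
      (𝓝 (μ (rep l (q l f)))) := by
    intro f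
    refine (hμ2 (rep l (q l f))).congr' ?_
    have h1 : rep l (q l f) =ᶠ[(l : Filter ℕ)] f := q_eq.mp (q_rep l (q l f))
    filter_upwards [h1] with n hn
    rw [hn]
  refine ⟨fun g => μ (rep l g), fun g => (hμ1 _).1, htend, ?_⟩
  intro F
  have hlim : Tendsto (fun n => ∑ g ∈ F, m n (rep l g n)) (l : Filter ℕ)
      (𝓝 (∑ g ∈ F, μ (rep l g))) := by
    refine tendsto_finsetSum _ fun g _ => ?_
    exact hμ2 (rep l g)
  refine le_of_tendsto hlim ?_
  have hne : ∀ᶠ n in (l : Filter ℕ), ∀ x ∈ F ×ˢ F, x.1 ≠ x.2 → rep l x.1 n ≠ rep l x.2 n := by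
    rw [Filter.eventually_all_finset]
    rintro ⟨g, g'⟩ _
    by_cases hg : g = g'
    · exact Filter.Eventually.of_forall fun n hne => absurd hg hne
    · have h2 : ¬ ∀ᶠ n in (l : Filter ℕ), rep l g n = rep l g' n := by
        intro h3
        apply hg
        rw [← q_rep l g, ← q_rep l g', q_eq]
        exact h3
      rw [← Ultrafilter.eventually_not] at h2
      filter_upwards [h2] with n hn _
      exact hn
  filter_upwards [hne] with n hn
  have hinj : Set.InjOn (fun g => rep l g n) (F : Set ((l : Filter ℕ).Germ ℤ)) := by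
    intro g hg g' hg' heq
    by_contra hgg
    exact hn (g, g') (Finset.mem_product.mpr ⟨hg, hg'⟩) hgg heq
  have h4 : ∑ g ∈ F, m n (rep l g n) = ∑ e ∈ F.image (fun g => rep l g n), m n e := by
    rw [Finset.sum_image hinj]
  rw [h4]
  exact hΛ n _

end U01Aux


theorem exists_selection (l : Ultrafilter ℕ) (m : ℕ → ℤ → ℝ) (h0 : ∀ n e, 0 ≤ m n e) {Λ : ℝ}
    (hΛ : ∀ (n : ℕ) (A : Finset ℤ), ∑ e ∈ A, m n e ≤ Λ) {ε : ℝ} (hε : 0 < ε) :
    ∃ (K : ℕ) (γ : ℕ → Fin K → ℤ) (Y : Finset (Fin K → ℤ)), Free (l : Filter ℕ) γ ∧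
      ∀ (ι : Type) [Fintype ι] (τ : ι → Fin K → ℤ), Function.Injective τ →
        ∀ᶠ n in (l : Filter ℕ), ∀ e : ℤ, (∀ s, ∀ y ∈ Y, e ≠ dt (τ s + y) (γ n)) →
          ∑ s, m n (e - dt (τ s) (γ n)) ≤ ε := by
  classical
  obtain ⟨ν, hν0, hνt, hνs⟩ := U01Aux.exists_lim l m h0 hΛ
  have hsum : Summable ν := summable_of_sum_le hν0 hνs
  obtain ⟨F₀, hF₀⟩ := summable_iff_vanishing_norm.mp hsum ε hε
  have htf := U01Aux.torsionFree l
  let N : Submodule ℤ ((l : Filter ℕ).Germ ℤ) := Submodule.span ℤ (F₀ : Set _)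
  have hfin : Module.Finite ℤ N := Module.Finite.span_of_finite ℤ F₀.finite_toSet
  have htfN : Module.IsTorsionFree ℤ N := inferInstance
  have hfree : Module.Free ℤ N := Module.free_of_finite_type_torsion_free'
  let b := Module.finBasis ℤ N
  let γ : ℕ → Fin (Module.finrank ℤ N) → ℤ := fun n i =>
    U01Aux.rep l (b i : (l : Filter ℕ).Germ ℤ) n
  have hq : ∀ t : Fin (Module.finrank ℤ N) → ℤ,
      U01Aux.q l (fun n => dt t (γ n)) = ((∑ i, t i • b i : N) : (l : Filter ℕ).Germ ℤ) := by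
    intro t
    have h1 : (fun n => dt t (γ n)) = ∑ i, t i • (fun n => γ n i) := by
      funext n
      simp [dt, Finset.sum_apply]
    rw [h1, map_sum, Submodule.coe_sum]
    refine Finset.sum_congr rfl fun i _ => ?_
    rw [map_zsmul, Submodule.coe_smul]
    congr 1
    exact U01Aux.q_rep l _
  let co : N → (Fin (Module.finrank ℤ N) → ℤ) := fun x => ⇑(b.repr x)
  have hco : ∀ x : N, ∑ i, co x i • b i = x := fun x => b.sum_repr x
  refine ⟨Module.finrank ℤ N, γ,
    F₀.attach.image fun g => co ⟨g.1, Submodule.subset_span g.2⟩, ?_, ?_⟩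
  · intro t ht
    rw [Ultrafilter.eventually_not]
    intro hcon
    apply ht
    have h1 : U01Aux.q l (fun n => dt t (γ n)) = 0 := by
      rw [← map_zero (U01Aux.q l), U01Aux.q_eq]
      exact hcon
    rw [hq, ZeroMemClass.coe_eq_zero] at h1
    have h2 := Fintype.linearIndependent_iff.mp b.linearIndependent t h1
    funext i
    exact h2 i
  · intro ι _ τ hτ
    by_contra hcon
    rw [← Ultrafilter.eventually_not] at hcon
    have hex : ∀ n : ℕ, ∃ e : ℤ, (¬ (∀ e : ℤ, (∀ s, ∀ y ∈ F₀.attach.image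
        (fun g => co ⟨g.1, Submodule.subset_span g.2⟩), e ≠ dt (τ s + y) (γ n)) →
          ∑ s, m n (e - dt (τ s) (γ n)) ≤ ε)) →
        ((∀ s, ∀ y ∈ F₀.attach.image
        (fun g => co ⟨g.1, Submodule.subset_span g.2⟩), e ≠ dt (τ s + y) (γ n)) ∧
          ε < ∑ s, m n (e - dt (τ s) (γ n))) := by
      intro n
      by_cases hn : (∀ e : ℤ, (∀ s, ∀ y ∈ F₀.attach.image
        (fun g => co ⟨g.1, Submodule.subset_span g.2⟩), e ≠ dt (τ s + y) (γ n)) →
          ∑ s, m n (e - dt (τ s) (γ n)) ≤ ε)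
      · exact ⟨0, fun h => absurd hn h⟩
      · push Not at hn
        obtain ⟨e, he1, he2⟩ := hn
        exact ⟨e, fun _ => ⟨he1, he2⟩⟩
    choose σ hσ using hex
    have hev : ∀ᶠ n in (l : Filter ℕ), (∀ s, ∀ y ∈ F₀.attach.image
        (fun g => co ⟨g.1, Submodule.subset_span g.2⟩), σ n ≠ dt (τ s + y) (γ n)) ∧
          ε < ∑ s, m n (σ n - dt (τ s) (γ n)) := by
      filter_upwards [hcon] with n hn
      exact hσ n hn
    let G : ι → (l : Filter ℕ).Germ ℤ := fun s => U01Aux.q l (fun n => σ n - dt (τ s) (γ n))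
    have hG : ∀ s, G s = U01Aux.q l σ - ((∑ i, τ s i • b i : N) : (l : Filter ℕ).Germ ℤ) := by
      intro s
      rw [← hq, ← map_sub]
      rfl
    have hGinj : Function.Injective G := by
      intro s s' hs
      rw [hG, hG, sub_right_inj, Subtype.coe_inj] at hs
      apply hτ
      have h3 : ∑ i, (τ s - τ s') i • b i = 0 := by
        simp only [Pi.sub_apply, sub_smul, Finset.sum_sub_distrib]
        rw [hs, sub_self]
      have h4 := Fintype.linearIndependent_iff.mp b.linearIndependent _ h3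
      funext i
      exact sub_eq_zero.mp (h4 i)
    have hGF : ∀ s, G s ∉ F₀ := by
      intro s hs
      set y := co ⟨G s, Submodule.subset_span hs⟩ with hy
      have hyY : y ∈ F₀.attach.image
          (fun g => co ⟨g.1, Submodule.subset_span g.2⟩) :=
        Finset.mem_image.mpr ⟨⟨G s, hs⟩, Finset.mem_attach _ _, rfl⟩
      have h5 : U01Aux.q l (fun n => dt y (γ n)) = G s := by
        rw [hq, hco]
      have h6 : U01Aux.q l σ = U01Aux.q l (fun n => dt (τ s + y) (γ n)) := by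
        have h7 : (fun n => dt (τ s + y) (γ n)) =
            (fun n => dt (τ s) (γ n)) + (fun n => dt y (γ n)) := by
          funext n
          exact dt_add _ _ _
        rw [h7, map_add, h5, hG, hq]
        abel
      rw [U01Aux.q_eq] at h6
      obtain ⟨n, hn1, hn2⟩ := (h6.and hev).exists
      exact hn2.1 s y hyY hn1
    have h8 : ∑ s, ν (G s) < ε := by
      have h9 := hF₀ (Finset.univ.image G) (by
        rw [Finset.disjoint_left]
        intro g hg
        obtain ⟨s, _, rfl⟩ := Finset.mem_image.mp hg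
        exact hGF s)
      rw [Finset.sum_image (fun x _ y _ h => hGinj h)] at h9
      exact lt_of_le_of_lt (le_abs_self _) h9
    have h10 : Tendsto (fun n => ∑ s, m n (σ n - dt (τ s) (γ n))) (l : Filter ℕ)
        (𝓝 (∑ s, ν (G s))) :=
      tendsto_finsetSum _ fun s _ => hνt (fun n => σ n - dt (τ s) (γ n))
    have h11 : ε ≤ ∑ s, ν (G s) := by
      refine ge_of_tendsto h10 ?_
      filter_upwards [hev] with n hn
      exact hn.2.le
    exact absurd h8 (not_lt.mpr h11)

end Pool.Agent.NRC
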